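import Mathlib

set_option autoImplicit false

namespace Pool.Agent.Lib.MP_9087e4_co

open Module

variable {X Y : Type*} [AddCommGroup X] [Module ℝ X] [AddCommGroup Y] [Module ℝ Y]

/-- two vectors are parallel (linearly dependent) -/
def Par (u w : X) : Prop := ∀ α β : Dual ℝ X, α u * β w = α w * β u

namespace Par

theorem symm {u w : X} (h : Par u w) : Par w u := fun α β => (h α β).symm

theorem refl (u : X) : Par u u := fun _ _ => rfl

theorem zero_right (u : X) : Par u 0 := fun α β => by simp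

theorem zero_left (u : X) : Par 0 u := (zero_right u).symm

theorem add_right {u w z : X} (h : Par u w) (h' : Par u z) : Par u (w + z) := fun α β => by
  simp only [map_add]
  linear_combination h α β + h' α β

theorem add_left {u w z : X} (h : Par w u) (h' : Par z u) : Par (w + z) u :=
  (add_right h.symm h'.symm).symm

theorem smul_right {u w : X} (t : ℝ) (h : Par u w) : Par u (t • w) := fun α β => by
  simp only [map_smul, smul_eq_mul]
  linear_combination t * h α β

theorem smul_left {u w : X} (t : ℝ) (h : Par u w) : Par (t • u) w :=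
  (smul_right t h.symm).symm

theorem neg_right {u w : X} (h : Par u w) : Par u (-w) := by
  simpa using h.smul_right (-1)

theorem neg_left {u w : X} (h : Par u w) : Par (-u) w := h.symm.neg_right.symm

theorem sub_right {u w z : X} (h : Par u w) (h' : Par u z) : Par u (w - z) := by
  rw [sub_eq_add_neg]; exact h.add_right h'.neg_right

theorem sum_right {ι : Type*} {u : X} {s : Finset ι} {f : ι → X} (h : ∀ i ∈ s, Par u (f i)) :
    Par u (∑ i ∈ s, f i) := by
  classical
  induction s using Finset.induction_on with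
  | empty => simpa using zero_right u
  | insert a s ha ih =>
    rw [Finset.sum_insert ha]
    exact (h a (by simp)).add_right (ih fun i hi => h i (by simp [hi]))

theorem of_smul_right {u w : X} {t : ℝ} (ht : t ≠ 0) (h : Par u (t • w)) : Par u w := by
  simpa [smul_smul, inv_mul_cancel₀ ht] using h.smul_right t⁻¹

theorem of_smul_left {u w : X} {t : ℝ} (ht : t ≠ 0) (h : Par (t • u) w) : Par u w :=
  (of_smul_right ht h.symm).symm

theorem map {u w : X} (f : X →ₗ[ℝ] Y) (h : Par u w) : Par (f u) (f w) := fun α β =>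
  h (α.comp f) (β.comp f)

theorem exists_smul {u w : X} (hu : u ≠ 0) (h : Par u w) : ∃ t : ℝ, w = t • u := by
  obtain ⟨α, hα⟩ : ∃ α : Dual ℝ X, α u ≠ 0 := by
    by_contra hc
    push Not at hc
    exact hu ((forall_dual_apply_eq_zero_iff ℝ u).1 hc)
  refine ⟨α w / α u, ?_⟩
  rw [← sub_eq_zero]
  apply (forall_dual_apply_eq_zero_iff ℝ _).1
  intro β
  simp only [map_sub, map_smul, smul_eq_mul]
  field_simp
  linear_combination h α β

theorem trans {u w z : X} (hz : z ≠ 0) (h : Par u z) (h' : Par z w) : Par u w := by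
  obtain ⟨t, rfl⟩ := h'.exists_smul hz
  exact h.smul_right t

theorem eq_zero {u w z : X} (huw : ¬ Par u w) (h : Par u z) (h' : Par z w) : z = 0 := by
  by_contra hz
  exact huw (h.trans hz h')

theorem ne_zero_left {u w : X} (h : ¬ Par u w) : u ≠ 0 := by
  rintro rfl; exact h (zero_left w)

theorem ne_zero_right {u w : X} (h : ¬ Par u w) : w ≠ 0 := by
  rintro rfl; exact h (zero_right u)

theorem of_comb {u w : X} {a b : ℝ} (hab : a ≠ 0 ∨ b ≠ 0) (h : a • u + b • w = 0) : Par u w := by
  rcases hab with ha | hb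
  · have : a • u = (-b) • w := by rw [neg_smul]; exact eq_neg_of_add_eq_zero_left h
    exact of_smul_left ha (this ▸ (refl w).smul_left (-b))
  · have : b • w = (-a) • u := by rw [neg_smul]; exact eq_neg_of_add_eq_zero_right h
    exact of_smul_right hb (this ▸ (refl u).smul_right (-a))

theorem comb_eq_zero {u w : X} {a b : ℝ} (huw : ¬ Par u w) (h : a • u + b • w = 0) :
    a = 0 ∧ b = 0 := by
  by_contra hc
  exact huw (of_comb (by tauto) h)

theorem exists_comb {u w : X} (h : Par u w) : ∃ a b : ℝ, (a ≠ 0 ∨ b ≠ 0) ∧ a • u + b • w = 0 := by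
  by_cases hu : u = 0
  · exact ⟨1, 0, by simp, by simp [hu]⟩
  · obtain ⟨t, rfl⟩ := h.exists_smul hu
    exact ⟨t, -1, by simp, by simp⟩

theorem of_mem_span {u w z : X} (hu : u ∈ Submodule.span ℝ {z}) (hw : w ∈ Submodule.span ℝ {z}) :
    Par u w := by
  obtain ⟨a, rfl⟩ := Submodule.mem_span_singleton.1 hu
  obtain ⟨b, rfl⟩ := Submodule.mem_span_singleton.1 hw
  exact ((refl z).smul_left a).smul_right b

/-- two non-parallel vectors in a plane span the plane -/
theorem span_le {u w a b : X} (hab : ¬ Par a b) (ha : a ∈ Submodule.span ℝ {u, w})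
    (hb : b ∈ Submodule.span ℝ {u, w}) :
    Submodule.span ℝ {u, w} ≤ Submodule.span ℝ {a, b} := by
  obtain ⟨a1, a2, rfl⟩ := Submodule.mem_span_pair.1 ha
  obtain ⟨b1, b2, rfl⟩ := Submodule.mem_span_pair.1 hb
  have hD : a1 * b2 - a2 * b1 ≠ 0 := by
    intro hD
    apply hab
    intro α β
    simp only [map_add, map_smul, smul_eq_mul]
    linear_combination (α u * β w - α w * β u) * hD
  set D := a1 * b2 - a2 * b1 with hDdef
  have hD' : D⁻¹ * (a1 * b2 - a2 * b1) = 1 := inv_mul_cancel₀ hD
  rw [Submodule.span_le]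
  rintro z (rfl | rfl)
  · refine Submodule.mem_span_pair.2 ⟨D⁻¹ * b2, -(D⁻¹ * a2), ?_⟩
    linear_combination (norm := module) hD' • z
  · refine Submodule.mem_span_pair.2 ⟨-(D⁻¹ * b1), D⁻¹ * a1, ?_⟩
    linear_combination (norm := module) hD' • z

end Par

section Indep

variable {ι : Type*} (r : ι → X)

/-- the span of the vectors indexed by a finite set -/
def sp (F : Finset ι) : Submodule ℝ X := Submodule.span ℝ (r '' (F : Set ι))

/-- linear independence of the vectors indexed by a finite set -/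
def Ind (F : Finset ι) : Prop := LinearIndepOn ℝ r (F : Set ι)

variable {r}

theorem mem_sp {F : Finset ι} {e : ι} (he : e ∈ F) : r e ∈ sp r F :=
  Submodule.subset_span ⟨e, he, rfl⟩

theorem sp_mono {F F' : Finset ι} (h : F ⊆ F') : sp r F ≤ sp r F' :=
  Submodule.span_mono (Set.image_mono h)

theorem sp_le {F : Finset ι} {S : Submodule ℝ X} (h : ∀ e ∈ F, r e ∈ S) : sp r F ≤ S := by
  rw [sp, Submodule.span_le]
  rintro _ ⟨e, he, rfl⟩
  exact h e he

theorem sp_union [DecidableEq ι] (F F' : Finset ι) : sp r (F ∪ F') = sp r F ⊔ sp r F' := by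
  simp [sp, Set.image_union, Submodule.span_union]

theorem sp_congr {r' : ι → X} {F : Finset ι} (h : ∀ e ∈ F, r e = r' e) : sp r F = sp r' F := by
  unfold sp
  congr 1
  exact Set.image_congr h

theorem Ind.mono {F F' : Finset ι} (h : Ind r F') (hF : F ⊆ F') : Ind r F :=
  LinearIndepOn.mono h hF

theorem ind_congr {r' : ι → X} {F : Finset ι} (h : ∀ e ∈ F, r e = r' e) : Ind r F ↔ Ind r' F :=
  linearIndepOn_congr h

theorem ind_empty : Ind r ∅ := by simp [Ind]

theorem ind_insert [DecidableEq ι] {F : Finset ι} {e : ι} (he : e ∉ F) :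
    Ind r (insert e F) ↔ Ind r F ∧ r e ∉ sp r F := by
  unfold Ind sp
  rw [Finset.coe_insert, linearIndepOn_insert (by simpa using he)]

theorem Ind.insert' [DecidableEq ι] {F : Finset ι} {e : ι} (h : Ind r F) (he : r e ∉ sp r F) :
    e ∉ F ∧ Ind r (insert e F) := by
  have : e ∉ F := fun h' => he (mem_sp h')
  exact ⟨this, (ind_insert this).2 ⟨h, he⟩⟩

theorem sp_insert [DecidableEq ι] (F : Finset ι) (e : ι) :
    sp r (insert e F) = Submodule.span ℝ {r e} ⊔ sp r F := by
  simp [sp, Set.image_insert_eq, Submodule.span_insert]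

theorem Ind.insert2 [DecidableEq ι] {F : Finset ι} {e f : ι} (h : Ind r F)
    (hef : ¬ Par ((sp r F).mkQ (r e)) ((sp r F).mkQ (r f))) :
    e ∉ F ∧ f ∉ F ∧ e ≠ f ∧ Ind r (insert e (insert f F)) := by
  have hf : r f ∉ sp r F := fun h' => Par.ne_zero_right hef (by simpa using h')
  have he : r e ∉ sp r F := fun h' => Par.ne_zero_left hef (by simpa using h')
  obtain ⟨hf1, hf2⟩ := h.insert' hf
  have he2 : r e ∉ sp r (insert f F) := by
    rw [sp_insert]
    intro h'
    obtain ⟨a, ha, b, hb, hab⟩ := Submodule.mem_sup.1 h'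
    obtain ⟨t, rfl⟩ := Submodule.mem_span_singleton.1 ha
    apply hef
    rw [← hab]
    have : (sp r F).mkQ b = 0 := by simpa using hb
    rw [map_add, this, add_zero, map_smul]
    exact (Par.refl _).smul_left t
  obtain ⟨he3, he4⟩ := hf2.insert' he2
  refine ⟨fun h' => he (mem_sp h'), hf1, ?_, he4⟩
  rintro rfl
  exact he3 (by simp)

theorem Ind.not_par [DecidableEq ι] {F : Finset ι} {e f : ι} (he : e ∉ F) (hf : f ∉ F)
    (hef : e ≠ f) (h : Ind r (insert e (insert f F))) :
    ¬ Par ((sp r F).mkQ (r e)) ((sp r F).mkQ (r f)) := by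
  intro hp
  rw [ind_insert (by simp [he, hef]), ind_insert hf] at h
  obtain ⟨⟨_, h2⟩, h3⟩ := h
  have hf0 : (sp r F).mkQ (r f) ≠ 0 := by simpa using h2
  obtain ⟨t, ht⟩ := hp.symm.exists_smul hf0
  apply h3
  rw [sp_insert]
  have : r e - t • r f ∈ sp r F := by
    rw [← Submodule.Quotient.mk_eq_zero, ← Submodule.mkQ_apply, map_sub, map_smul, ht, sub_self]
  refine Submodule.mem_sup.2 ⟨t • r f, Submodule.mem_span_singleton.2 ⟨t, rfl⟩, _, this, by abel⟩

theorem Ind.union [DecidableEq ι] {F F' : Finset ι} (h : Ind r F) (h' : Ind r F')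
    (hd : Disjoint (sp r F) (sp r F')) : Ind r (F ∪ F') := by
  unfold Ind
  rw [Finset.coe_union]
  exact LinearIndepOn.union h h' hd

theorem Ind.disjoint [DecidableEq ι] {F F' : Finset ι} (h : Ind r (F ∪ F'))
    (hd : Disjoint F F') : Disjoint (sp r F) (sp r F') := by
  unfold Ind at h
  rw [Finset.coe_union] at h
  exact (linearIndepOn_union_iff (by simpa using hd)).1 h |>.2.2

theorem mem_sp_iff {F : Finset ι} {w : X} :
    w ∈ sp r F ↔ ∃ a : ι → ℝ, w = ∑ e ∈ F, a e • r e := by
  constructor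
  · intro h
    obtain ⟨a, ha⟩ := (Submodule.mem_span_image_finset_iff_exists_fun' ℝ).1 h
    exact ⟨a, ha.symm⟩
  · rintro ⟨a, rfl⟩
    exact Submodule.sum_mem _ fun e he => Submodule.smul_mem _ _ (mem_sp he)

theorem ind_iff {F : Finset ι} :
    Ind r F ↔ ∀ a : ι → ℝ, ∑ e ∈ F, a e • r e = 0 → ∀ e ∈ F, a e = 0 :=
  linearIndepOn_finset_iff

end Indep

end Pool.Agent.Lib.MP_9087e4_co
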