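import Mathlib
import Pool.Agent.Lib.MP_9087e4_co.Par

set_option autoImplicit false

namespace Pool.Agent.Lib.MP_9087e4_co

open Module Filter Topology

variable {V : Type*} [DecidableEq V]

/-- the edges of the complete graph on `N` -/
def KK (N : Finset V) : Finset (Sym2 V) := N.sym2.filter fun e => ¬ e.IsDiag

theorem mem_KK {N : Finset V} {e : Sym2 V} : e ∈ KK N ↔ ¬ e.IsDiag ∧ ∀ a ∈ e, a ∈ N := by
  simp [KK, Finset.mem_sym2_iff, and_comm]

theorem mk_mem_KK {N : Finset V} {a b : V} : s(a, b) ∈ KK N ↔ a ∈ N ∧ b ∈ N ∧ a ≠ b := by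
  simp [mem_KK]; tauto

theorem KK_mono {N N' : Finset V} (h : N ⊆ N') : KK N ⊆ KK N' := fun e he => by
  rw [mem_KK] at *
  exact ⟨he.1, fun a ha => h (he.2 a ha)⟩

theorem KK_erase (N : Finset V) (x : V) : KK (N.erase x) = (KK N).filter fun e => x ∉ e := by
  ext e
  simp only [mem_KK, Finset.mem_erase, Finset.mem_filter]
  constructor
  · rintro ⟨h1, h2⟩
    exact ⟨⟨h1, fun a ha => (h2 a ha).2⟩, fun hx => (h2 x hx).1 rfl⟩
  · rintro ⟨⟨h1, h2⟩, h3⟩
    exact ⟨h1, fun a ha => ⟨fun h => h3 (h ▸ ha), h2 a ha⟩⟩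

/-- the edges from `v` to `N` -/
def star (v : V) (N : Finset V) : Finset (Sym2 V) := N.image fun a => s(v, a)

theorem mem_star {v : V} {N : Finset V} {e : Sym2 V} : e ∈ star v N ↔ ∃ a ∈ N, s(v, a) = e := by
  simp [star]

theorem mk_inj (v : V) : Function.Injective fun a : V => s(v, a) := fun a b h => by
  simpa using (Sym2.congr_right.1 h)

theorem sum_star {M : Type*} [AddCommMonoid M] (v : V) (N : Finset V) (f : Sym2 V → M) :
    ∑ e ∈ star v N, f e = ∑ a ∈ N, f s(v, a) :=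
  Finset.sum_image fun _ _ _ _ h => mk_inj v h

theorem KK_filter_mem {N : Finset V} {x : V} (hx : x ∈ N) :
    ((KK N).filter fun e => x ∈ e) = star x (N.erase x) := by
  ext e
  simp only [Finset.mem_filter, mem_star, Finset.mem_erase]
  constructor
  · rintro ⟨h1, h2⟩
    obtain ⟨a, rfl⟩ := Sym2.mem_iff_exists.1 h2
    rw [mk_mem_KK] at h1
    exact ⟨a, ⟨h1.2.2.symm, h1.2.1⟩, rfl⟩
  · rintro ⟨a, ⟨h1, h2⟩, rfl⟩
    exact ⟨mk_mem_KK.2 ⟨hx, h2, h1.symm⟩, by simp⟩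

theorem sum_KK_split {M : Type*} [AddCommMonoid M] {N : Finset V} {x : V} (hx : x ∈ N)
    (f : Sym2 V → M) :
    ∑ e ∈ KK N, f e = ∑ a ∈ N.erase x, f s(x, a) + ∑ e ∈ KK (N.erase x), f e := by
  rw [← Finset.sum_filter_add_sum_filter_not (KK N) (fun e => x ∈ e), KK_filter_mem hx, sum_star,
    KK_erase]

section Residue

variable {ι : Type*} [DecidableEq ι]
variable {E : Type*} [NormedAddCommGroup E] [NormedSpace ℝ E] (l : ι → E →L[ℝ] ℝ)
variable {X : Type*} [AddCommGroup X] [Module ℝ X]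

/-- a sum of simple fractions -/
noncomputable def Fr (I : Finset ι) (u : ι → X) (Z : E) : X := ∑ e ∈ I, (l e Z)⁻¹ • u e

/-- the numerator of a sum of simple fractions -/
noncomputable def Pol (I : Finset ι) (a : ι → ℝ) (Z : E) : ℝ :=
  ∑ e ∈ I, a e * ∏ h ∈ I.erase e, l h Z

variable {l}

theorem Pol_analytic (I : Finset ι) (a : ι → ℝ) (Z : E) : AnalyticAt ℝ (Pol l I a) Z := by
  unfold Pol
  refine Finset.analyticAt_fun_sum _ fun e _ => analyticAt_const.mul ?_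
  exact Finset.analyticAt_fun_prod _ fun h _ => (l h).analyticAt Z

theorem Pol_continuous (I : Finset ι) (a : ι → ℝ) : Continuous (Pol l I a) :=
  continuous_iff_continuousAt.2 fun Z => (Pol_analytic I a Z).continuousAt

theorem Pol_eq {I : Finset ι} (u : ι → X) (α : Dual ℝ X) {Z : E} (h : ∀ e ∈ I, l e Z ≠ 0) :
    Pol l I (fun e => α (u e)) Z = (∏ e ∈ I, l e Z) * α (Fr l I u Z) := by
  unfold Pol Fr
  rw [map_sum, Finset.mul_sum]
  refine Finset.sum_congr rfl fun e he => ?_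
  rw [← Finset.mul_prod_erase I (fun h => l h Z) he, map_smul, smul_eq_mul]
  have := h e he
  field_simp

theorem Pol_at {I : Finset ι} (a : ι → ℝ) {Z : E} {e : ι} (he : e ∈ I) (h : l e Z = 0) :
    Pol l I a Z = a e * ∏ h ∈ I.erase e, l h Z := by
  unfold Pol
  rw [Finset.sum_eq_single_of_mem e he]
  intro f _ hfe
  rw [Finset.prod_eq_zero (Finset.mem_erase.2 ⟨hfe.symm, he⟩) h, mul_zero]

theorem eventually_ne {I : Finset ι} {Z : E} (h : ∀ e ∈ I, l e Z ≠ 0) :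
    ∀ᶠ Z' in 𝓝 Z, ∀ e ∈ I, l e Z' ≠ 0 := by
  rw [eventually_all_finset]
  exact fun e he => (l e).continuous.continuousAt.eventually_ne (h e he)

theorem eq_zero_of_eventually {f : E → ℝ} (hf : ∀ Z, AnalyticAt ℝ f Z) {Z₁ : E}
    (h : ∀ᶠ Z in 𝓝 Z₁, f Z = 0) (Z : E) : f Z = 0 := by
  have := AnalyticOnNhd.eq_of_eventuallyEq (f := f) (g := fun _ => 0) (fun Z _ => hf Z)
    (fun _ _ => analyticAt_const) (z₀ := Z₁) h
  exact congrFun this Z

theorem pol_par {I J : Finset ι} {u w : ι → X} {Z₁ : E} (hI : ∀ e ∈ I, l e Z₁ ≠ 0)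
    (hJ : ∀ e ∈ J, l e Z₁ ≠ 0) (h : ∀ᶠ Z in 𝓝 Z₁, Par (Fr l I u Z) (Fr l J w Z))
    (α β : Dual ℝ X) (Z : E) :
    Pol l I (fun e => α (u e)) Z * Pol l J (fun e => β (w e)) Z =
      Pol l J (fun e => α (w e)) Z * Pol l I (fun e => β (u e)) Z := by
  rw [← sub_eq_zero]
  refine eq_zero_of_eventually (f := fun Z =>
    Pol l I (fun e => α (u e)) Z * Pol l J (fun e => β (w e)) Z -
      Pol l J (fun e => α (w e)) Z * Pol l I (fun e => β (u e)) Z) (Z₁ := Z₁) ?_ ?_ Z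
  · intro Z
    exact ((Pol_analytic _ _ _).mul (Pol_analytic _ _ _)).sub
      ((Pol_analytic _ _ _).mul (Pol_analytic _ _ _))
  · filter_upwards [h, eventually_ne hI, eventually_ne hJ] with Z h1 h2 h3
    rw [Pol_eq u α h2, Pol_eq w β h3, Pol_eq w α h3, Pol_eq u β h2]
    linear_combination (∏ e ∈ I, l e Z) * (∏ e ∈ J, l e Z) * h1 α β

theorem res_two {I J : Finset ι} {u w : ι → X} {Z₁ : E} (hI : ∀ e ∈ I, l e Z₁ ≠ 0)
    (hJ : ∀ e ∈ J, l e Z₁ ≠ 0) (h : ∀ᶠ Z in 𝓝 Z₁, Par (Fr l I u Z) (Fr l J w Z))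
    {e f : ι} (he : e ∈ I) (hf : f ∈ J) {Z : E} (h1 : l e Z = 0) (h2 : l f Z = 0)
    (h3 : ∀ h ∈ I.erase e, l h Z ≠ 0) (h4 : ∀ h ∈ J.erase f, l h Z ≠ 0) : Par (u e) (w f) := by
  intro α β
  have := pol_par hI hJ h α β Z
  rw [Pol_at _ he h1, Pol_at _ he h1, Pol_at _ hf h2, Pol_at _ hf h2] at this
  have h5 := Finset.prod_ne_zero_iff.2 h3
  have h6 := Finset.prod_ne_zero_iff.2 h4
  apply mul_right_cancel₀ (mul_ne_zero h5 h6)
  linear_combination this

theorem res_one {I : Finset ι} {u : ι → X} {Z₁ : E} (hI : ∀ e ∈ I, l e Z₁ ≠ 0)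
    (h : ∀ᶠ Z in 𝓝 Z₁, Fr l I u Z = 0) {e : ι} (he : e ∈ I) {Z : E} (h1 : l e Z = 0)
    (h3 : ∀ h ∈ I.erase e, l h Z ≠ 0) : u e = 0 := by
  apply (forall_dual_apply_eq_zero_iff ℝ _).1
  intro α
  have := eq_zero_of_eventually (f := Pol l I fun e => α (u e)) (Pol_analytic _ _) (Z₁ := Z₁)
    (by
      filter_upwards [h, eventually_ne hI] with Z h1 h2
      rw [Pol_eq u α h2, h1, map_zero, mul_zero]) Z
  rw [Pol_at _ he h1] at this
  exact (mul_eq_zero.1 this).resolve_right (Finset.prod_ne_zero_iff.2 h3)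

theorem res_line {I J : Finset ι} {u w : ι → X} {Z₁ : E} (hI : ∀ e ∈ I, l e Z₁ ≠ 0)
    (hJ : ∀ e ∈ J, l e Z₁ ≠ 0) (h : ∀ᶠ Z in 𝓝 Z₁, Par (Fr l I u Z) (Fr l J w Z))
    {f : ι} (hf : f ∈ J) {A B : E} (hA : l f A = 0) (hB : l f B = 0)
    (h3 : ∀ h ∈ I, l h A ≠ 0) (h4 : ∀ h ∈ J.erase f, l h A ≠ 0 ∨ l h B ≠ 0) :
    Par (Fr l I u A) (w f) := by
  intro α β
  have hc : Continuous fun t : ℝ => A + t • B := by fun_prop
  let g : ℝ → ℝ := fun t => Pol l I (fun e => α (u e)) (A + t • B) * β (w f) -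
    α (w f) * Pol l I (fun e => β (u e)) (A + t • B)
  have hg : Continuous g :=
    (((Pol_continuous _ _).comp hc).mul continuous_const).sub
      (continuous_const.mul ((Pol_continuous _ _).comp hc))
  have hev : ∀ᶠ t in 𝓝[≠] (0 : ℝ), ∀ h ∈ J.erase f, l h (A + t • B) ≠ 0 := by
    rw [eventually_all_finset]
    intro h hh
    by_cases hA' : l h A = 0
    · have hB' := (h4 h hh).resolve_left (by simpa using hA')
      filter_upwards [self_mem_nhdsWithin] with t ht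
      simpa [hA', hB'] using ht
    · apply eventually_nhdsWithin_of_eventually_nhds
      exact ((l h).continuous.comp hc).continuousAt.eventually_ne (by simpa using hA')
  have hg0 : ∀ᶠ t in 𝓝[≠] (0 : ℝ), g t = 0 := by
    filter_upwards [hev] with t ht
    have h0 : l f (A + t • B) = 0 := by simp [hA, hB]
    have := pol_par hI hJ h α β (A + t • B)
    rw [Pol_at _ hf h0, Pol_at _ hf h0] at this
    apply mul_right_cancel₀ (Finset.prod_ne_zero_iff.2 ht)
    simp only [g]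
    linear_combination this
  have h00 : g 0 = 0 :=
    tendsto_nhds_unique (hg.continuousAt.tendsto.mono_left nhdsWithin_le_nhds)
      (tendsto_const_nhds.congr' (hg0.mono fun t ht => ht.symm))
  simp only [g, zero_smul, add_zero] at h00
  rw [Pol_eq u α h3, Pol_eq u β h3] at h00
  apply mul_left_cancel₀ (Finset.prod_ne_zero_iff.2 h3)
  linear_combination h00

end Residue

section Tricho

variable {E : Type*} [NormedAddCommGroup E] [NormedSpace ℝ E]
variable {X : Type*} [AddCommGroup X] [Module ℝ X]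

/-- general position of points `Q a` and of the lines `l e` joining them -/
structure GenPos (l : Sym2 V → E →L[ℝ] ℝ) (Q : V → E) : Prop where
  pt : ∀ e : Sym2 V, ¬ e.IsDiag → ∀ a, l e (Q a) = 0 ↔ a ∈ e
  meet : ∀ e f : Sym2 V, ¬ e.IsDiag → ¬ f.IsDiag → (∀ a ∈ e, a ∉ f) →
    ∃ Z, l e Z = 0 ∧ l f Z = 0 ∧ ∀ h : Sym2 V, ¬ h.IsDiag → h ≠ e → h ≠ f → l h Z ≠ 0

/-- the constraint obtained from the complete graph on `N - x + v` -/
noncomputable def phi (l : Sym2 V → E →L[ℝ] ℝ) (Q : V → E) (N : Finset V) (c : Sym2 V → X)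
    (x : V) (Z : E) : X :=
  Fr l (KK (N.erase x)) (fun e => l e (Q x) • c e) Z

variable {l : Sym2 V → E →L[ℝ] ℝ} {Q : V → E}

theorem local_conditions (hG : GenPos l Q) {N : Finset V} (hN : 3 ≤ N.card) {c : Sym2 V → X}
    (hc : ∑ e ∈ KK N, c e = 0) {Z₁ : E} (hZ : ∀ e ∈ KK N, l e Z₁ ≠ 0)
    (h : ∀ x ∈ N, ∀ y ∈ N, x ≠ y → ∀ᶠ Z in 𝓝 Z₁, Par (phi l Q N c x Z) (phi l Q N c y Z)) :
    (∀ a ∈ N, ∀ b ∈ N, ∀ x ∈ N, ∀ y ∈ N, a ≠ b → x ≠ y → a ≠ x → a ≠ y → b ≠ x → b ≠ y →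
      Par (c s(a, b)) (c s(x, y))) ∧
    (∀ x ∈ N, ∀ a ∈ N, x ≠ a → Par (c s(x, a)) (∑ b ∈ N.erase x, c s(x, b))) := by
  have hZ' : ∀ x, ∀ e ∈ KK (N.erase x), l e Z₁ ≠ 0 := fun x e he =>
    hZ e (KK_mono (Finset.erase_subset _ _) he)
  constructor
  · intro a ha b hb x hx y hy hab hxy hax hay hbx hby
    obtain ⟨Z, h1, h2, h3⟩ := hG.meet s(a, b) s(x, y) (by simpa using hab) (by simpa using hxy)
      (by simp; tauto)
    have he : s(a, b) ∈ KK (N.erase x) := mk_mem_KK.2 (by simp [*])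
    have hf : s(x, y) ∈ KK (N.erase a) := mk_mem_KK.2 (by simp [*, hax.symm, hay.symm])
    have := res_two (hZ' x) (hZ' a) (h x hx a ha hax.symm) he hf h1 h2 ?_ ?_
    · refine (this.of_smul_left ?_).of_smul_right ?_
      · rw [Ne, hG.pt _ (by simpa using hab)]; simp [hax.symm, hbx.symm]
      · rw [Ne, hG.pt _ (by simpa using hxy)]; simp [hax, hay]
    · intro g hg
      rw [Finset.mem_erase, mem_KK] at hg
      refine h3 g hg.2.1 hg.1 ?_
      rintro rfl
      simpa using hg.2.2 x (by simp)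
    · intro g hg
      rw [Finset.mem_erase, mem_KK] at hg
      refine h3 g hg.2.1 ?_ hg.1
      rintro rfl
      simpa using hg.2.2 a (by simp)
  · intro x hx a ha hxa
    obtain ⟨y, hy⟩ : ((N.erase x).erase a).Nonempty := by
      rw [← Finset.card_pos, Finset.card_erase_of_mem (by simp [ha, hxa.symm]),
        Finset.card_erase_of_mem hx]
      omega
    simp only [Finset.mem_erase] at hy
    obtain ⟨hya, hyx, hy⟩ := hy
    have hd : ¬ (s(x, a)).IsDiag := by simpa using hxa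
    have hf : s(x, a) ∈ KK (N.erase y) := mk_mem_KK.2 (by simp [*, hyx.symm, hya.symm])
    have h3 : ∀ g ∈ KK (N.erase x), l g (Q x) ≠ 0 := by
      intro g hg
      rw [mem_KK] at hg
      rw [Ne, hG.pt _ hg.1]
      intro hxg
      simpa using hg.2 x hxg
    have := res_line (hZ' x) (hZ' y) (h x hx y hy hyx.symm) hf (A := Q x) (B := Q a)
      ((hG.pt _ hd _).2 (by simp)) ((hG.pt _ hd _).2 (by simp)) h3 ?_
    · have h4 : Fr l (KK (N.erase x)) (fun e => l e (Q x) • c e) (Q x) =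
          - ∑ b ∈ N.erase x, c s(x, b) := by
        rw [sum_KK_split hx] at hc
        rw [← eq_neg_of_add_eq_zero_right hc]
        refine Finset.sum_congr rfl fun g hg => ?_
        rw [smul_smul, inv_mul_cancel₀ (h3 g hg), one_smul]
      rw [h4] at this
      have h5 := this.neg_left.symm
      rw [neg_neg] at h5
      refine h5.of_smul_left ?_
      rw [Ne, hG.pt _ hd]; simp [hyx, hya]
    · intro g hg
      rw [Finset.mem_erase, mem_KK] at hg
      rw [Ne, Ne, hG.pt _ hg.2.1, hG.pt _ hg.2.1]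
      by_contra hcon
      push Not at hcon
      exact hg.1 ((Sym2.mem_and_mem_iff hxa).1 hcon)

/-- the relations defining the conic type -/
structure Rel (N T : Finset V) (c : Sym2 V → X) : Prop where
  out : ∀ x ∈ N, ∀ y ∈ N, x ≠ y → ¬ (x ∈ T ∧ y ∈ T) → c s(x, y) = 0
  vert : ∀ x ∈ N, ∑ b ∈ N.erase x, c s(x, b) = 0

theorem Rel.lab {N : Finset V} {c : Sym2 V → X} {a b x y : V} (h : Rel N {a, b, x, y} c)
    (ha : a ∈ N) (hb : b ∈ N) (hx : x ∈ N) (hy : y ∈ N) (hab : a ≠ b) (hax : a ≠ x) (hay : a ≠ y)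
    (hbx : b ≠ x) (hby : b ≠ y) (hxy : x ≠ y) :
    c s(a, b) + c s(a, x) + c s(a, y) = 0 ∧ c s(x, y) = c s(a, b) ∧ c s(b, y) = c s(a, x) ∧
      c s(b, x) = c s(a, y) := by
  have key : ∀ z ∈ N, ∀ S : Finset V, S ⊆ N.erase z → (∀ t ∈ ({a, b, x, y} : Finset V), t ≠ z →
      t ∈ S) → ∑ t ∈ S, c s(z, t) = 0 := by
    intro z hz S hS hS'
    rw [← h.vert z hz]
    refine Finset.sum_subset hS fun t ht ht' => ?_
    rw [Finset.mem_erase] at ht
    exact h.out z hz t ht.2 ht.1.symm fun h' => ht' (hS' t h'.2 ht.1)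
  have h1 := key a ha {b, x, y} (by intro t; simp; rintro (rfl | rfl | rfl) <;> simp [*, hab.symm, hax.symm, hay.symm]) (by simp)
  have h2 := key b hb {a, x, y} (by intro t; simp; rintro (rfl | rfl | rfl) <;> simp [*, hbx.symm, hby.symm]) (by simp)
  have h3 := key x hx {a, b, y} (by intro t; simp; rintro (rfl | rfl | rfl) <;> simp [*, hxy.symm]) (by simp)
  have h4 := key y hy {a, b, x} (by intro t; simp; rintro (rfl | rfl | rfl) <;> simp [*]) (by simp)
  rw [Finset.sum_insert (by simp [*]), Finset.sum_insert (by simp [*]), Finset.sum_singleton]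
    at h1 h2 h3 h4
  rw [Sym2.eq_swap (a := b) (b := a)] at h2
  rw [Sym2.eq_swap (a := x) (b := a), Sym2.eq_swap (a := x) (b := b)] at h3
  rw [Sym2.eq_swap (a := y) (b := a), Sym2.eq_swap (a := y) (b := b),
    Sym2.eq_swap (a := y) (b := x)] at h4
  refine ⟨by linear_combination (norm := module) h1, ?_, ?_, ?_⟩
  · linear_combination (norm := module) (1 / 2 : ℝ) • (h3 + h4 - h1 - h2)
  · linear_combination (norm := module) (1 / 2 : ℝ) • (h2 + h4 - h1 - h3)
  · linear_combination (norm := module) (1 / 2 : ℝ) • (h2 + h3 - h1 - h4)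

end Tricho

end Pool.Agent.Lib.MP_9087e4_co
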