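import Mathlib
import Pool.Agent.Lib.MP_9087e4_co.Tricho

set_option autoImplicit false

namespace Pool.Agent.Lib.MP_9087e4_co

variable {V : Type*} [DecidableEq V] {X : Type*} [AddCommGroup X] [Module ℝ X]

/-- the local conditions satisfied when a new vertex is dependent in all positions -/
structure Loc (N : Finset V) (c : Sym2 V → X) : Prop where
  disj : ∀ a ∈ N, ∀ b ∈ N, ∀ x ∈ N, ∀ y ∈ N, a ≠ b → x ≠ y → a ≠ x → a ≠ y → b ≠ x → b ≠ y →
      Par (c s(a, b)) (c s(x, y))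
  vert : ∀ x ∈ N, ∀ a ∈ N, x ≠ a → Par (c s(x, a)) (∑ b ∈ N.erase x, c s(x, b))

variable {N : Finset V} {c : Sym2 V → X}

theorem Loc.sum_zero (h : Loc N c) {z a b : V} (hz : z ∈ N) (ha : a ∈ N) (hb : b ∈ N)
    (hza : z ≠ a) (hzb : z ≠ b) (hp : ¬ Par (c s(z, a)) (c s(z, b))) :
    ∑ t ∈ N.erase z, c s(z, t) = 0 :=
  Par.eq_zero hp (h.vert z hz a ha hza) (h.vert z hz b hb hzb).symm

theorem par_of_sum_zero {z a : V} (ha : a ∈ N) (hza : z ≠ a) {u : X}
    (hs : ∑ t ∈ N.erase z, c s(z, t) = 0)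
    (h : ∀ b ∈ N, b ≠ z → b ≠ a → Par u (c s(z, b))) : Par u (c s(z, a)) := by
  rw [← Finset.add_sum_erase _ _ (Finset.mem_erase.2 ⟨hza.symm, ha⟩)] at hs
  rw [eq_neg_of_add_eq_zero_left hs]
  refine (Par.sum_right fun b hb => ?_).neg_right
  simp only [Finset.mem_erase] at hb
  exact h b hb.2.2 hb.2.1 hb.1

theorem Loc.core (h : Loc N c) {a b x y : V} (ha : a ∈ N) (hb : b ∈ N) (hx : x ∈ N) (hy : y ∈ N)
    (hab : a ≠ b) (hax : a ≠ x) (hay : a ≠ y) (hbx : b ≠ x) (hby : b ≠ y) (hxy : x ≠ y)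
    (hp : ¬ Par (c s(a, b)) (c s(a, x))) (h24 : c s(b, y) ≠ 0) : Rel N {a, b, x, y} c := by
  have p13_24 : Par (c s(a, x)) (c s(b, y)) :=
    h.disj a ha x hx b hb y hy hax hby hab hay hbx.symm hxy
  have n12_24 : ¬ Par (c s(a, b)) (c s(b, y)) := fun h' => hp (h'.trans h24 p13_24.symm)
  have s1 := h.sum_zero ha hb hx hab hax hp
  have s2 := h.sum_zero hb ha hy hab.symm hby (by rwa [Sym2.eq_swap (a := b) (b := a)])
  have n13_14 : ¬ Par (c s(a, x)) (c s(a, y)) := by
    intro h'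
    refine hp (par_of_sum_zero hb hab s1 fun t ht hta htb => ?_).symm
    by_cases htx : t = x
    · subst htx; exact Par.refl _
    by_cases hty : t = y
    · subst hty; exact h'
    exact p13_24.trans h24 (h.disj b hb y hy a ha t ht hby hta.symm hab.symm (Ne.symm htb) hay.symm
      (Ne.symm hty))
  have n13_23 : ¬ Par (c s(a, x)) (c s(b, x)) := by
    intro h'
    apply hp
    rw [Sym2.eq_swap (a := a) (b := b)]
    refine (par_of_sum_zero ha hab.symm s2 fun t ht htb hta => ?_).symm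
    by_cases htx : t = x
    · subst htx; exact h'
    exact h.disj a ha x hx b hb t ht hax htb.symm hab (Ne.symm hta) hbx.symm (Ne.symm htx)
  have out1 : ∀ t ∈ N, ∀ z ∈ N, z ∉ ({a, b, x, y} : Finset V) → t ≠ z → c s(t, z) = 0 := by
    intro t ht z hz hzT htz
    simp only [Finset.mem_insert, Finset.mem_singleton, not_or] at hzT
    obtain ⟨hza, hzb, hzx, hzy⟩ := hzT
    by_cases hta : t = a
    · subst hta
      exact Par.eq_zero n13_23
        (p13_24.trans h24 (h.disj b hb y hy t ht z hz hby htz hab.symm (Ne.symm hzb) hay.symm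
          (Ne.symm hzy)))
        (h.disj t ht z hz b hb x hx htz hbx hab hax hzb hzx)
    by_cases htb : t = b
    · subst htb
      exact Par.eq_zero n13_14
        (h.disj a ha x hx t ht z hz hax htz hab (Ne.symm hza) hbx.symm (Ne.symm hzx))
        (h.disj t ht z hz a ha y hy htz hay hta hby hza hzy)
    by_cases htx : t = x
    · subst htx
      exact Par.eq_zero n12_24
        (h.disj a ha b hb t ht z hz hab htz hax (Ne.symm hza) hbx (Ne.symm hzb))
        (h.disj t ht z hz b hb y hy htz hby htb hxy hzb hzy)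
    exact Par.eq_zero hp
      (h.disj a ha b hb t ht z hz hab htz (Ne.symm hta) (Ne.symm hza) (Ne.symm htb) (Ne.symm hzb))
      (h.disj t ht z hz a ha x hx htz hax hta htx hza hzx)
  constructor
  · intro t ht z hz htz hT
    by_cases hzT : z ∈ ({a, b, x, y} : Finset V)
    · rw [Sym2.eq_swap]
      exact out1 z hz t ht (fun h' => hT ⟨h', hzT⟩) htz.symm
    · exact out1 t ht z hz hzT htz
  · intro z hz
    by_cases hzT : z ∈ ({a, b, x, y} : Finset V)
    · simp only [Finset.mem_insert, Finset.mem_singleton] at hzT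
      rcases hzT with rfl | rfl | rfl | rfl
      · exact s1
      · exact s2
      · refine h.sum_zero hz ha hb hax.symm hbx.symm ?_
        rwa [Sym2.eq_swap (a := z) (b := a), Sym2.eq_swap (a := z) (b := b)]
      · refine h.sum_zero hz ha hb hay.symm hby.symm ?_
        rw [Sym2.eq_swap (a := z) (b := a), Sym2.eq_swap (a := z) (b := b)]
        exact fun h' => n13_14 (p13_24.trans h24 h'.symm)
    · refine Finset.sum_eq_zero fun t ht => ?_
      rw [Finset.mem_erase] at ht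
      rw [Sym2.eq_swap]
      exact out1 t ht.2 z hz hzT ht.1

/-- the case of two non-parallel edges at a vertex -/
theorem Loc.aux (h : Loc N c) {a b x : V} (ha : a ∈ N) (hb : b ∈ N) (hx : x ∈ N)
    (hab : a ≠ b) (hax : a ≠ x) (hp : ¬ Par (c s(a, b)) (c s(a, x))) :
    (∃ x, ∀ a ∈ N, ∀ b ∈ N, a ≠ b → a ≠ x → b ≠ x → c s(a, b) = 0) ∨
    ∃ a ∈ N, ∃ b ∈ N, ∃ x ∈ N, ∃ y ∈ N, a ≠ b ∧ a ≠ x ∧ a ≠ y ∧ b ≠ x ∧ b ≠ y ∧ x ≠ y ∧
      Rel N {a, b, x, y} c ∧ ¬ Par (c s(a, b)) (c s(a, x)) := by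
  have hbx : b ≠ x := by rintro rfl; exact hp (Par.refl _)
  by_cases h1 : ∃ y ∈ N, a ≠ y ∧ b ≠ y ∧ x ≠ y ∧ c s(b, y) ≠ 0
  · obtain ⟨y, hy, hay, hby, hxy, h24⟩ := h1
    exact Or.inr ⟨a, ha, b, hb, x, hx, y, hy, hab, hax, hay, hbx, hby, hxy,
      h.core ha hb hx hy hab hax hay hbx hby hxy hp h24, hp⟩
  by_cases h2 : ∃ y ∈ N, a ≠ y ∧ b ≠ y ∧ x ≠ y ∧ c s(x, y) ≠ 0
  · obtain ⟨y, hy, hay, hby, hxy, h24⟩ := h2
    exact Or.inr ⟨a, ha, x, hx, b, hb, y, hy, hax, hab, hay, hbx.symm, hxy, hby,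
      h.core ha hx hb hy hax hab hay hbx.symm hxy hby (fun h' => hp h'.symm) h24,
      fun h' => hp h'.symm⟩
  push Not at h1 h2
  have key : ∀ b' ∈ N, ∀ x' ∈ N, a ≠ b' → a ≠ x' → b' ≠ x' →
      (∀ y ∈ N, a ≠ y → b' ≠ y → x' ≠ y → c s(b', y) = 0) →
      Par (c s(b', x')) (c s(a, b')) := by
    intro b' hb' x' hx' hab' hax' hbx' h3
    by_contra hn
    rw [Sym2.eq_swap (a := a) (b := b')] at hn
    have s2 := h.sum_zero hb' hx' ha hbx' hab'.symm hn
    refine hn (par_of_sum_zero ha hab'.symm s2 fun t ht htb hta => ?_)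
    by_cases htx : t = x'
    · subst htx; exact Par.refl _
    · rw [h3 t ht (Ne.symm hta) (Ne.symm htb) (Ne.symm htx)]
      exact Par.zero_right _
  have h23 : c s(b, x) = 0 := by
    refine Par.eq_zero hp (key b hb x hx hab hax hbx h1).symm ?_
    rw [Sym2.eq_swap (a := b) (b := x)]
    exact key x hx b hb hax hab hbx.symm fun y hy h3 h4 h5 => h2 y hy h3 h5 h4
  left
  refine ⟨a, fun t ht z hz htz hta hza => ?_⟩
  by_cases htb : t = b
  · subst htb
    by_cases hzx : z = x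
    · subst hzx; exact h23
    · exact h1 z hz (Ne.symm hza) htz (Ne.symm hzx)
  by_cases hzb : z = b
  · subst hzb
    rw [Sym2.eq_swap]
    by_cases htx : t = x
    · subst htx; exact h23
    · exact h1 t ht (Ne.symm hta) (Ne.symm htz) (Ne.symm htx)
  by_cases htx : t = x
  · subst htx
    exact h2 z hz (Ne.symm hza) (Ne.symm hzb) htz
  by_cases hzx : z = x
  · subst hzx
    rw [Sym2.eq_swap]
    exact h2 t ht (Ne.symm hta) (Ne.symm htb) (Ne.symm htz)
  exact Par.eq_zero hp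
    (h.disj a ha b hb t ht z hz hab htz (Ne.symm hta) (Ne.symm hza) (Ne.symm htb) (Ne.symm hzb))
    (h.disj t ht z hz a ha x hx htz hax hta htx hza hzx)

theorem Loc.classify (h : Loc N c) :
    (∀ a ∈ N, ∀ b ∈ N, ∀ x ∈ N, ∀ y ∈ N, a ≠ b → x ≠ y → Par (c s(a, b)) (c s(x, y))) ∨
    (∃ x, ∀ a ∈ N, ∀ b ∈ N, a ≠ b → a ≠ x → b ≠ x → c s(a, b) = 0) ∨
    ∃ a ∈ N, ∃ b ∈ N, ∃ x ∈ N, ∃ y ∈ N, a ≠ b ∧ a ≠ x ∧ a ≠ y ∧ b ≠ x ∧ b ≠ y ∧ x ≠ y ∧
      Rel N {a, b, x, y} c ∧ ¬ Par (c s(a, b)) (c s(a, x)) := by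
  by_cases h0 : ∀ a ∈ N, ∀ b ∈ N, ∀ x ∈ N, ∀ y ∈ N, a ≠ b → x ≠ y →
      Par (c s(a, b)) (c s(x, y))
  · exact Or.inl h0
  right
  push Not at h0
  obtain ⟨a, ha, b, hb, x, hx, y, hy, hab, hxy, hp⟩ := h0
  by_cases hax : a = x
  · subst hax
    exact h.aux ha hb hy hab hxy hp
  by_cases hay : a = y
  · subst hay
    exact h.aux ha hb hx hab hax (by rwa [Sym2.eq_swap (a := a) (b := x)])
  by_cases hbx : b = x
  · subst hbx
    exact h.aux hb ha hy hab.symm hxy (by rwa [Sym2.eq_swap (a := b) (b := a)])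
  by_cases hby : b = y
  · subst hby
    exact h.aux hb ha hx hab.symm hbx
      (by rwa [Sym2.eq_swap (a := b) (b := a), Sym2.eq_swap (a := b) (b := x)])
  exact absurd (h.disj a ha b hb x hx y hy hab hxy hax hay hbx hby) hp

/-- in the conic type any two edges at a vertex of the four-set are non-parallel -/
theorem Rel.not_par {a b x y : V} (h : Rel N {a, b, x, y} c)
    (ha : a ∈ N) (hb : b ∈ N) (hx : x ∈ N) (hy : y ∈ N) (hab : a ≠ b) (hax : a ≠ x) (hay : a ≠ y)
    (hbx : b ≠ x) (hby : b ≠ y) (hxy : x ≠ y) (hp : ¬ Par (c s(a, b)) (c s(a, x))) :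
    ∀ r ∈ ({a, b, x, y} : Finset V), ∀ s ∈ ({a, b, x, y} : Finset V),
      ∀ t ∈ ({a, b, x, y} : Finset V), r ≠ s → r ≠ t → s ≠ t → ¬ Par (c s(r, s)) (c s(r, t)) := by
  obtain ⟨h1, h2, h3, h4⟩ := h.lab ha hb hx hy hab hax hay hbx hby hxy
  have h5 : c s(a, y) = - c s(a, b) - c s(a, x) := by linear_combination (norm := module) h1
  have n1 : ¬ Par (c s(a, b)) (c s(a, y)) := by
    intro h'
    apply hp
    have : c s(a, x) = - c s(a, b) - c s(a, y) := by linear_combination (norm := module) h1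
    rw [this]
    exact (Par.refl _).neg_right.sub_right h'
  have n2 : ¬ Par (c s(a, x)) (c s(a, y)) := by
    intro h'
    apply hp
    have : c s(a, b) = - c s(a, x) - c s(a, y) := by linear_combination (norm := module) h1
    rw [this]
    exact ((Par.refl _).neg_right.sub_right h').symm
  have n3 : ¬ Par (c s(a, x)) (c s(a, b)) := fun h' => hp h'.symm
  have n4 : ¬ Par (c s(a, y)) (c s(a, b)) := fun h' => n1 h'.symm
  have n5 : ¬ Par (c s(a, y)) (c s(a, x)) := fun h' => n2 h'.symm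
  have e1 : c s(b, a) = c s(a, b) := by rw [Sym2.eq_swap]
  have e2 : c s(x, a) = c s(a, x) := by rw [Sym2.eq_swap]
  have e3 : c s(y, a) = c s(a, y) := by rw [Sym2.eq_swap]
  have e4 : c s(x, b) = c s(a, y) := by rw [Sym2.eq_swap, h4]
  have e5 : c s(y, b) = c s(a, x) := by rw [Sym2.eq_swap, h3]
  have e6 : c s(y, x) = c s(a, b) := by rw [Sym2.eq_swap, h2]
  intro r hr s hs t ht hrs hrt hst
  simp only [Finset.mem_insert, Finset.mem_singleton] at hr hs ht
  rcases hr with rfl | rfl | rfl | rfl <;> rcases hs with rfl | rfl | rfl | rfl <;>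
    rcases ht with rfl | rfl | rfl | rfl <;>
    first
      | exact absurd rfl hrs
      | exact absurd rfl hrt
      | exact absurd rfl hst
      | (simp only [e1, e2, e3, e4, e5, e6, h2, h3, h4]; assumption)
      | assumption

/-- in the conic type all vectors lie in a plane -/
theorem Rel.mem_span {a b x y : V} (h : Rel N {a, b, x, y} c)
    (ha : a ∈ N) (hb : b ∈ N) (hx : x ∈ N) (hy : y ∈ N) (hab : a ≠ b) (hax : a ≠ x) (hay : a ≠ y)
    (hbx : b ≠ x) (hby : b ≠ y) (hxy : x ≠ y) :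
    ∀ e ∈ KK N, c e ∈ Submodule.span ℝ {c s(a, b), c s(a, x)} := by
  obtain ⟨h1, h2, h3, h4⟩ := h.lab ha hb hx hy hab hax hay hbx hby hxy
  have m1 : c s(a, b) ∈ Submodule.span ℝ {c s(a, b), c s(a, x)} :=
    Submodule.subset_span (by simp)
  have m2 : c s(a, x) ∈ Submodule.span ℝ {c s(a, b), c s(a, x)} :=
    Submodule.subset_span (by simp)
  have m3 : c s(a, y) ∈ Submodule.span ℝ {c s(a, b), c s(a, x)} := by
    have h5 : c s(a, y) = - c s(a, b) - c s(a, x) := by linear_combination (norm := module) h1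
    rw [h5]
    exact Submodule.sub_mem _ (Submodule.neg_mem _ m1) m2
  have e1 : c s(b, a) = c s(a, b) := by rw [Sym2.eq_swap]
  have e2 : c s(x, a) = c s(a, x) := by rw [Sym2.eq_swap]
  have e3 : c s(y, a) = c s(a, y) := by rw [Sym2.eq_swap]
  have e4 : c s(x, b) = c s(a, y) := by rw [Sym2.eq_swap, h4]
  have e5 : c s(y, b) = c s(a, x) := by rw [Sym2.eq_swap, h3]
  have e6 : c s(y, x) = c s(a, b) := by rw [Sym2.eq_swap, h2]
  intro e he
  induction e using Sym2.ind with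
  | _ r s =>
    rw [mk_mem_KK] at he
    obtain ⟨hr, hs, hrs⟩ := he
    by_cases hT : r ∈ ({a, b, x, y} : Finset V) ∧ s ∈ ({a, b, x, y} : Finset V)
    · obtain ⟨hr', hs'⟩ := hT
      simp only [Finset.mem_insert, Finset.mem_singleton] at hr' hs'
      rcases hr' with rfl | rfl | rfl | rfl <;> rcases hs' with rfl | rfl | rfl | rfl <;>
        first
          | exact absurd rfl hrs
          | assumption
          | (simp only [e1, e2, e3, e4, e5, e6, h2, h3, h4]; assumption)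
    · rw [h.out r hr s hs hrs hT]
      exact Submodule.zero_mem _

end Pool.Agent.Lib.MP_9087e4_co
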