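import Mathlib

set_option autoImplicit false

namespace Pool.Agent.Lib.MP_9087e4_co

variable {V : Type*} {R : Type*} [CommRing R]

/-- The row of the rigidity matrix of the points `p v ∈ R^d` for the edge `ij`: it has `p i - p j`
in the `d` columns of `i`, `p j - p i` in the `d` columns of `j`, and zeros elsewhere. -/
def rigRow [DecidableEq V] {d : ℕ} (p : V → Fin d → R) : Sym2 V → V × Fin d → R :=
  Sym2.lift ⟨fun i j c =>
      (if c.1 = i then p i c.2 - p j c.2 else 0) + (if c.1 = j then p j c.2 - p i c.2 else 0),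
    fun _ _ => funext fun _ => add_comm _ _⟩

/-- The vector `D i j = ((x_i - x_j)^k, (x_i - x_j)^(k-1) (y_i - y_j), ..., (y_i - y_j)^k)` for
plane points `q v = (x_v, y_v) = (q v 0, q v 1)`. -/
def cofVec (k : ℕ) (q : V → Fin 2 → R) (i j : V) : Fin (k + 1) → R :=
  fun s => (q i 0 - q j 0) ^ (k - s) * (q i 1 - q j 1) ^ (s : ℕ)

/-- The row of the `C^(k-1)_k`-cofactor matrix for the ordered pair `(i, j)`: it has `D i j` in
the `k + 1` columns of `i`, `- D i j` in the `k + 1` columns of `j`, and zeros elsewhere. -/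
def cofRowOrd [DecidableEq V] (k : ℕ) (q : V → Fin 2 → R) (i j : V) : V × Fin (k + 1) → R :=
  fun c => (if c.1 = i then cofVec k q i j c.2 else 0) - (if c.1 = j then cofVec k q i j c.2 else 0)

/-- The row of the `C^(k-1)_k`-cofactor matrix for the edge `e = ij`, written with `i < j`. -/
def cofRow [LinearOrder V] (k : ℕ) (q : V → Fin 2 → R) (e : Sym2 V) : V × Fin (k + 1) → R :=
  cofRowOrd k q e.inf e.sup

/-- Points `p v ∈ ℝ^d` are generic if all their coordinates are algebraically independent
over `ℚ`. -/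
def Generic {d : ℕ} (p : V → Fin d → ℝ) : Prop :=
  AlgebraicIndependent ℚ fun c : V × Fin d => p c.1 c.2

end Pool.Agent.Lib.MP_9087e4_co
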