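import Mathlib
import Pool.Agent.Lib.MP_9087e4_co.Par

set_option autoImplicit false

namespace Pool.Agent.Lib.MP_9087e4_co

variable {V : Type*} [DecidableEq V]

/-- the determinant of two plane vectors -/
def det2 (u w : Fin 2 → ℝ) : ℝ := u 0 * w 1 - u 1 * w 0

/-- the weights `ω` annihilate all binary forms of degree `k` at the vectors `z a` -/
def Kills (N : Finset V) (z : V → Fin 2 → ℝ) (ω : V → ℝ) (k : ℕ) : Prop :=
  ∀ i j, i + j = k → ∑ a ∈ N, ω a * (z a 0 ^ i * z a 1 ^ j) = 0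

variable {N : Finset V} {z : V → Fin 2 → ℝ} {ω : V → ℝ} {k : ℕ}

omit [DecidableEq V] in
theorem Kills.mul_lin (h : Kills N z ω (k + 1)) (α β : ℝ) :
    Kills N z (fun a => ω a * (α * z a 0 + β * z a 1)) k := by
  intro i j hij
  have h1 := h (i + 1) j (by omega)
  have h2 := h i (j + 1) (by omega)
  have : ∑ a ∈ N, ω a * (α * z a 0 + β * z a 1) * (z a 0 ^ i * z a 1 ^ j) =
      α * ∑ a ∈ N, ω a * (z a 0 ^ (i + 1) * z a 1 ^ j) +
        β * ∑ a ∈ N, ω a * (z a 0 ^ i * z a 1 ^ (j + 1)) := by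
    rw [Finset.mul_sum, Finset.mul_sum, ← Finset.sum_add_distrib]
    exact Finset.sum_congr rfl fun a _ => by ring
  rw [this, h1, h2]; ring

theorem Kills.mul_prod (S : Finset V) {m : ℕ} (h : Kills N z ω (S.card + m)) :
    Kills N z (fun a => ω a * ∏ l ∈ S, det2 (z a) (z l)) m := by
  induction S using Finset.induction_on generalizing ω with
  | empty => simpa using h
  | insert b S hb ih =>
    rw [Finset.card_insert_of_notMem hb, Nat.add_right_comm] at h
    have := ih (h.mul_lin (z b 1) (- z b 0))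
    convert this using 2 with a
    rw [Finset.prod_insert hb, det2]
    ring

omit [DecidableEq V] in
theorem Kills.mul_pow (h : Kills N z ω k) (α β : ℝ) :
    ∑ a ∈ N, ω a * (α * z a 0 + β * z a 1) ^ k = 0 := by
  induction k generalizing ω with
  | zero => simpa using h 0 0 rfl
  | succ k ih =>
    have := ih (h.mul_lin α β)
    rw [← this]
    exact Finset.sum_congr rfl fun a _ => by ring

theorem Kills.eq_zero (h : Kills N z ω k) (hN : N.card ≤ k + 1)
    (hz : ∀ a ∈ N, ∀ b ∈ N, a ≠ b → det2 (z a) (z b) ≠ 0) (hz0 : ∀ a ∈ N, z a 0 ≠ 0) :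
    ∀ a ∈ N, ω a = 0 := by
  intro a ha
  have hc := Finset.card_erase_of_mem ha
  have hpos : 0 < N.card := Finset.card_pos.2 ⟨a, ha⟩
  obtain ⟨m, hm⟩ : ∃ m, k = (N.erase a).card + m := ⟨k - (N.erase a).card, by omega⟩
  have h1 := (Kills.mul_prod (N.erase a) (hm ▸ h)).mul_pow 1 0
  rw [Finset.sum_eq_single_of_mem a ha] at h1
  · have h2 : ∏ l ∈ N.erase a, det2 (z a) (z l) ≠ 0 :=
      Finset.prod_ne_zero_iff.2 fun l hl => by
        rw [Finset.mem_erase] at hl
        exact hz a ha l hl.2 hl.1.symm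
    simpa [h2, hz0 a ha] using h1
  · intro b hb hba
    rw [Finset.prod_eq_zero (i := b) (Finset.mem_erase.2 ⟨hba, hb⟩) (by simp [det2, mul_comm])]
    simp

theorem kills_lagrange (hN : N.card = k + 2)
    (hz : ∀ a ∈ N, ∀ b ∈ N, a ≠ b → det2 (z a) (z b) ≠ 0) :
    Kills N z (fun a => (∏ l ∈ N.erase a, det2 (z a) (z l))⁻¹) k := by
  let v : V → Fin (k + 1) → ℝ := fun a s => z a 0 ^ (k - s) * z a 1 ^ (s : ℕ)
  have hdep : ¬ Ind v N := by
    intro h
    have := LinearIndependent.fintype_card_le_finrank h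
    simp at this
    omega
  rw [ind_iff] at hdep
  push Not at hdep
  obtain ⟨ω, hω, a₀, ha₀, h0⟩ := hdep
  have hK : Kills N z ω k := by
    intro i j hij
    have := congrFun hω ⟨j, by omega⟩
    simpa [v, Finset.sum_apply, show k - j = i by omega] using this
  have hP : ∀ a ∈ N, ∏ l ∈ N.erase a, det2 (z a) (z l) ≠ 0 := fun a ha =>
    Finset.prod_ne_zero_iff.2 fun l hl => by
      rw [Finset.mem_erase] at hl
      exact hz a ha l hl.2 hl.1.symm
  have key : ∀ a ∈ N, ω a * ∏ l ∈ N.erase a, det2 (z a) (z l) =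
      ω a₀ * ∏ l ∈ N.erase a₀, det2 (z a₀) (z l) := by
    intro a ha
    by_cases haa : a = a₀
    · rw [haa]
    have hc : ((N.erase a).erase a₀).card + 0 = k := by
      rw [Finset.card_erase_of_mem (by simp [ha₀, Ne.symm haa]), Finset.card_erase_of_mem ha]
      omega
    have h1 := Kills.mul_prod ((N.erase a).erase a₀) (hc ▸ hK) 0 0 rfl
    rw [← Finset.add_sum_erase _ _ ha,
      ← Finset.add_sum_erase _ _ (Finset.mem_erase.2 ⟨Ne.symm haa, ha₀⟩),
      Finset.sum_eq_zero] at h1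
    · rw [← Finset.mul_prod_erase _ _ (Finset.mem_erase.2 ⟨Ne.symm haa, ha₀⟩),
        ← Finset.mul_prod_erase (N.erase a₀) _ (Finset.mem_erase.2 ⟨haa, ha⟩),
        Finset.erase_right_comm (a := a₀)]
      have h2 : det2 (z a₀) (z a) = - det2 (z a) (z a₀) := by simp [det2]; ring
      rw [h2]
      linear_combination det2 (z a) (z a₀) * h1
    · intro b hb
      have : ∏ l ∈ (N.erase a).erase a₀, det2 (z b) (z l) = 0 :=
        Finset.prod_eq_zero (i := b) hb (by simp [det2, mul_comm])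
      simp [this]
  intro i j hij
  have h1 := hK i j hij
  have hc : ω a₀ * ∏ l ∈ N.erase a₀, det2 (z a₀) (z l) ≠ 0 := mul_ne_zero h0 (hP a₀ ha₀)
  apply mul_left_cancel₀ hc
  rw [Finset.mul_sum, mul_zero, ← h1]
  refine Finset.sum_congr rfl fun a ha => ?_
  rw [← key a ha]
  have := hP a ha
  field_simp

end Pool.Agent.Lib.MP_9087e4_co
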