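import Mathlib
import Pool.Agent.Lib.MP_9087e4_co.Defs
import Pool.Agent.Lib.MP_9087e4_co.Forms
import Pool.Agent.Lib.MP_9087e4_co.Tricho

set_option autoImplicit false

namespace Pool.Agent.Lib.MP_9087e4_co

section Ring

variable {R : Type*} [CommRing R]

/-- homogeneous coordinates of the line through two plane points -/
def coef (a b : Fin 2 → R) : Fin 3 → R := ![a 1 - b 1, b 0 - a 0, a 0 * b 1 - a 1 * b 0]

/-- twice the signed area of a triangle -/
def tri (c a b : Fin 2 → R) : R := coef a b 0 * c 0 + coef a b 1 * c 1 + coef a b 2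

/-- a three by three determinant -/
def det3 (u v w : Fin 3 → R) : R :=
  u 0 * (v 1 * w 2 - v 2 * w 1) + u 1 * (v 2 * w 0 - v 0 * w 2) + u 2 * (v 0 * w 1 - v 1 * w 0)

end Ring

/-- the linear form of the line through two plane points -/
noncomputable def lin (a b : Fin 2 → ℝ) : (Fin 3 → ℝ) →L[ℝ] ℝ :=
  coef a b 0 • ContinuousLinearMap.proj 0 + coef a b 1 • ContinuousLinearMap.proj 1 +
    coef a b 2 • ContinuousLinearMap.proj 2

theorem lin_apply (a b : Fin 2 → ℝ) (Z : Fin 3 → ℝ) :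
    lin a b Z = coef a b 0 * Z 0 + coef a b 1 * Z 1 + coef a b 2 * Z 2 := by
  simp [lin]

/-- homogeneous coordinates of a plane point -/
def hom (a : Fin 2 → ℝ) : Fin 3 → ℝ := ![a 0, a 1, 1]

theorem lin_hom (a b c : Fin 2 → ℝ) : lin a b (hom c) = tri c a b := by
  simp [lin_apply, hom, tri]

theorem lin_swap (a b : Fin 2 → ℝ) : lin b a = - lin a b := by
  ext Z
  simp [lin_apply, coef]
  ring

variable {V : Type*} [LinearOrder V]

/-- the linear form of the line spanned by an edge -/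
noncomputable def ll (q : V → Fin 2 → ℝ) (e : Sym2 V) : (Fin 3 → ℝ) →L[ℝ] ℝ :=
  lin (q e.inf) (q e.sup)

/-- homogeneous coordinates of the vertices -/
def QQ (q : V → Fin 2 → ℝ) (v : V) : Fin 3 → ℝ := hom (q v)

/-- general position of a plane configuration -/
structure GP (q : V → Fin 2 → ℝ) : Prop where
  ne : ∀ i j, i ≠ j → q i 0 - q j 0 ≠ 0
  tri : ∀ a i j, i ≠ j → a ≠ i → a ≠ j → tri (q a) (q i) (q j) ≠ 0
  conc : ∀ a b c d x y, a ≠ b → c ≠ d → x ≠ y → a ≠ c → a ≠ d → b ≠ c → b ≠ d →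
    s(x, y) ≠ s(a, b) → s(x, y) ≠ s(c, d) →
    det3 (coef (q x) (q y)) (coef (q a) (q b)) (coef (q c) (q d)) ≠ 0

theorem mk_inf_sup (e : Sym2 V) : s(e.inf, e.sup) = e := by
  induction e using Sym2.ind with
  | _ a b => rcases le_total a b with h | h <;> simp [h]

theorem mem_iff_inf_sup {e : Sym2 V} {a : V} : a ∈ e ↔ a = e.inf ∨ a = e.sup := by
  conv_lhs => rw [← mk_inf_sup e]
  exact Sym2.mem_iff

theorem inf_mem (e : Sym2 V) : e.inf ∈ e := mem_iff_inf_sup.2 (Or.inl rfl)

theorem sup_mem (e : Sym2 V) : e.sup ∈ e := mem_iff_inf_sup.2 (Or.inr rfl)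

theorem inf_ne_sup {e : Sym2 V} (h : ¬ e.IsDiag) : e.inf ≠ e.sup := by
  rw [← mk_inf_sup e] at h
  simpa using h

variable {q : V → Fin 2 → ℝ} {k : ℕ}

theorem GP.genPos (h : GP q) : GenPos (ll q) (QQ q) where
  pt e he a := by
    rw [ll, QQ, lin_hom, mem_iff_inf_sup]
    constructor
    · intro h0
      by_contra hc
      push Not at hc
      exact h.tri a _ _ (inf_ne_sup he) hc.1 hc.2 h0
    · rintro (rfl | rfl) <;> simp [Pool.Agent.Lib.MP_9087e4_co.tri, coef] <;> ring
  meet e f he hf hef := by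
    let u := coef (q e.inf) (q e.sup)
    let w := coef (q f.inf) (q f.sup)
    let Z : Fin 3 → ℝ := ![u 1 * w 2 - u 2 * w 1, u 2 * w 0 - u 0 * w 2, u 0 * w 1 - u 1 * w 0]
    have key : ∀ g : Sym2 V, ll q g Z = det3 (coef (q g.inf) (q g.sup)) u w := by
      intro g
      simp [ll, lin_apply, det3, Z]
    refine ⟨Z, ?_, ?_, fun g hg hge hgf => ?_⟩
    · rw [key]; simp only [det3, u]; ring
    · rw [key]; simp only [det3, w]; ring
    · rw [key]
      refine h.conc _ _ _ _ _ _ (inf_ne_sup he) (inf_ne_sup hf) (inf_ne_sup hg) ?_ ?_ ?_ ?_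
        (by simpa [mk_inf_sup] using hge) (by simpa [mk_inf_sup] using hgf)
      · exact fun h' => hef _ (inf_mem e) (h' ▸ inf_mem f)
      · exact fun h' => hef _ (inf_mem e) (h' ▸ sup_mem f)
      · exact fun h' => hef _ (sup_mem e) (h' ▸ inf_mem f)
      · exact fun h' => hef _ (sup_mem e) (h' ▸ sup_mem f)

/-- the orientation sign of an ordered pair -/
def sg (i j : V) : ℝ := if i ≤ j then 1 else -1

theorem sg_ne (i j : V) : sg i j ≠ 0 := by unfold sg; split_ifs <;> norm_num

theorem ll_mk (i j : V) : ll q s(i, j) = sg i j • lin (q i) (q j) := by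
  unfold ll sg
  split_ifs with h
  · simp [h]
  · have h' := (not_le.1 h).le
    ext Z
    simp [h', lin_swap (q i)]

theorem cofVec_swap (i j : V) (s : Fin (k + 1)) :
    cofVec k q j i s = (-1) ^ k * cofVec k q i j s := by
  unfold cofVec
  have hs : (-1 : ℝ) ^ k = (-1) ^ (k - s) * (-1) ^ (s : ℕ) := by
    rw [← pow_add]; congr 1; have := s.2; omega
  rw [← neg_sub (q i 0), ← neg_sub (q i 1), neg_pow, neg_pow (q i 1 - q j 1), hs]
  ring

theorem cofRow_mk (i j : V) :
    cofRow k q s(i, j) = sg i j ^ (k + 1) • cofRowOrd k q i j := by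
  unfold cofRow sg
  split_ifs with h
  · simp [h]
  · have h' := (not_le.1 h).le
    simp only [Sym2.inf_mk, Sym2.sup_mk, inf_of_le_right h', sup_of_le_left h']
    funext c
    simp only [cofRowOrd, cofVec_swap i j, Pi.smul_apply, smul_eq_mul]
    split_ifs <;> ring

theorem cofRow_notMem {e : Sym2 V} {v : V} (hv : v ∉ e) (s : Fin (k + 1)) :
    cofRow k q e (v, s) = 0 := by
  rw [mem_iff_inf_sup] at hv
  push Not at hv
  simp [cofRow, cofRowOrd, hv.1, hv.2]

theorem cofRow_star {v a : V} (hva : v ≠ a) (s : Fin (k + 1)) :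
    cofRow k q s(v, a) (v, s) = sg v a ^ (k + 1) * cofVec k q v a s := by
  simp [cofRow_mk, cofRowOrd, hva]

theorem cofRow_congr {q' : V → Fin 2 → ℝ} {e : Sym2 V} (h : ∀ a ∈ e, q a = q' a) :
    cofRow k q e = cofRow k q' e := by
  funext c
  simp [cofRow, cofRowOrd, cofVec, h _ (inf_mem e), h _ (sup_mem e)]

theorem ll_congr {q' : V → Fin 2 → ℝ} {e : Sym2 V} (h : ∀ a ∈ e, q a = q' a) :
    ll q e = ll q' e := by
  simp [ll, h _ (inf_mem e), h _ (sup_mem e)]

theorem sum_cofRow [Fintype V] (e : Sym2 V) (s : Fin (k + 1)) :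
    ∑ v, cofRow k q e (v, s) = 0 := by
  simp [cofRow, cofRowOrd, Finset.sum_sub_distrib]

theorem tri_eq_det2 (v a l : V) :
    tri (q l) (q v) (q a) = det2 (q v - q a) (q v - q l) := by
  simp [tri, coef, det2]; ring

theorem GP.det2_ne (h : GP q) {v a l : V} (hva : v ≠ a) (hlv : l ≠ v) (hla : l ≠ a) :
    det2 (q v - q a) (q v - q l) ≠ 0 := by
  rw [← tri_eq_det2]; exact h.tri l v a hva hlv hla

/-- the coefficient of the edge `e` in the stress of the complete graph on `A` -/
noncomputable def wt (q : V → Fin 2 → ℝ) (A : Finset V) (e : Sym2 V) : ℝ :=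
  (∏ l ∈ A.filter (fun l => l ∉ e), ll q e (QQ q l))⁻¹

/-- the normalised row of the edge `e` -/
noncomputable def cc (k : ℕ) (q : V → Fin 2 → ℝ) (A : Finset V) (e : Sym2 V) :
    V × Fin (k + 1) → ℝ :=
  wt q A e • cofRow k q e

theorem GP.wt_ne (h : GP q) (A : Finset V) {e : Sym2 V} (he : ¬ e.IsDiag) : wt q A e ≠ 0 := by
  refine inv_ne_zero (Finset.prod_ne_zero_iff.2 fun l hl => ?_)
  rw [Ne, h.genPos.pt e he]
  exact (Finset.mem_filter.1 hl).2

theorem wt_insert {A : Finset V} {v : V} (hv : v ∉ A) {e : Sym2 V} (he : v ∉ e) :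
    wt q (insert v A) e = (ll q e (QQ q v))⁻¹ * wt q A e := by
  unfold wt
  rw [Finset.filter_insert, if_pos he, Finset.prod_insert (by simp [hv]), mul_inv]

theorem wt_congr {q' : V → Fin 2 → ℝ} {A : Finset V} {e : Sym2 V} (he : ∀ a ∈ e, q a = q' a)
    (h : ∀ a ∈ A, q a = q' a) : wt q A e = wt q' A e := by
  unfold wt
  congr 1
  refine Finset.prod_congr rfl fun l hl => ?_
  rw [ll_congr he, QQ, QQ, h l (Finset.mem_filter.1 hl).1]

theorem cc_congr {q' : V → Fin 2 → ℝ} {A : Finset V} {e : Sym2 V} (he : e ∈ KK A)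
    (h : ∀ a ∈ A, q a = q' a) : cc k q A e = cc k q' A e := by
  have he' : ∀ a ∈ e, q a = q' a := fun a ha => h a ((mem_KK.1 he).2 a ha)
  rw [cc, cc, wt_congr he' h, cofRow_congr he']

theorem kills_iff {N : Finset V} {v : V} {ω : V → ℝ} :
    Kills N (fun a => q v - q a) ω k ↔ ∀ s, ∑ a ∈ N, ω a * cofVec k q v a s = 0 := by
  constructor
  · intro h s
    simpa [cofVec] using h (k - s) s (by have := s.2; omega)
  · intro h i j hij
    simpa [cofVec, show k - j = i by omega] using h ⟨j, by omega⟩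

/-- the stress of the complete graph on `k + 3` vertices -/
theorem GP.stress (h : GP q) {A : Finset V} (hA : A.card = k + 3) :
    ∑ e ∈ KK A, cc k q A e = 0 := by
  funext ⟨v, s⟩
  rw [Finset.sum_apply]
  by_cases hv : v ∈ A
  · rw [sum_KK_split hv, Finset.sum_eq_zero (s := KK (A.erase v)), add_zero]
    · have hc : (A.erase v).card = k + 2 := by rw [Finset.card_erase_of_mem hv]; omega
      have := kills_iff.1 (kills_lagrange (z := fun a => q v - q a) hc fun a ha b hb hab =>
        h.det2_ne (Finset.ne_of_mem_erase ha).symm (Finset.ne_of_mem_erase hb) hab.symm) s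
      rw [Pi.zero_apply, ← this]
      refine Finset.sum_congr rfl fun a ha => ?_
      have hva : v ≠ a := (Finset.ne_of_mem_erase ha).symm
      have hf : A.filter (fun l => l ∉ s(v, a)) = (A.erase v).erase a := by
        ext l; simp; tauto
      have hc' : ((A.erase v).erase a).card = k + 1 := by
        rw [Finset.card_erase_of_mem ha]; omega
      simp only [cc, wt, Pi.smul_apply, smul_eq_mul, cofRow_star hva, hf, ll_mk, QQ,
        ContinuousLinearMap.smul_apply, lin_hom, tri_eq_det2, Finset.prod_mul_distrib,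
        Finset.prod_const, hc']
      have := sg_ne v a
      field_simp
    · intro e he
      rw [KK_erase, Finset.mem_filter] at he
      simp [cc, cofRow_notMem he.2]
  · refine Finset.sum_eq_zero fun e he => ?_
    have : v ∉ e := fun h' => hv ((mem_KK.1 he).2 v h')
    simp [cc, cofRow_notMem this]

theorem GP.equil_zero (h : GP q) {N : Finset V} {v : V} (hv : v ∉ N) (hN : N.card ≤ k + 1)
    {ω : V → ℝ} (hω : ∀ s, (∑ a ∈ N, ω a • cofRow k q s(v, a)) (v, s) = 0) :
    ∀ a ∈ N, ω a = 0 := by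
  have hne : ∀ a ∈ N, v ≠ a := fun a ha h' => hv (h' ▸ ha)
  have hK : Kills N (fun a => q v - q a) (fun a => ω a * sg v a ^ (k + 1)) k := by
    rw [kills_iff]
    intro s
    rw [← hω s, Finset.sum_apply]
    refine Finset.sum_congr rfl fun a ha => ?_
    simp [cofRow_star (hne a ha), mul_assoc]
  intro a ha
  have := hK.eq_zero hN (fun a ha b hb hab => h.det2_ne (hne a ha) (hne b hb).symm hab.symm)
    (fun a ha => h.ne v a (hne a ha)) a ha
  exact (mul_eq_zero.1 this).resolve_right (pow_ne_zero _ (sg_ne v a))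

theorem GP.ind_star (h : GP q) {N : Finset V} {v : V} (hv : v ∉ N) :
    Ind (cofRow k q) (star v N) := by
  rw [ind_iff]
  intro ω hω e he
  obtain ⟨a, ha, rfl⟩ := mem_star.1 he
  have hva : v ≠ a := fun h' => hv (h' ▸ ha)
  have := congrFun hω (a, 0)
  rw [Finset.sum_apply, Finset.sum_eq_single_of_mem _ he] at this
  · rw [Sym2.eq_swap, Pi.smul_apply, cofRow_star hva.symm] at this
    rw [Sym2.eq_swap]
    simpa [sg_ne, cofVec, h.ne a v hva.symm] using this
  · intro f hf hfe
    obtain ⟨b, hb, rfl⟩ := mem_star.1 hf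
    rw [Pi.smul_apply, cofRow_notMem, smul_zero]
    simp only [Sym2.mem_iff, not_or]
    exact ⟨hva.symm, fun h' => hfe (by rw [h'])⟩

end Pool.Agent.Lib.MP_9087e4_co
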