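import Mathlib
import Pool.Agent.Lib.MP_9087e4_co.Cof

set_option autoImplicit false

namespace Pool.Agent.Lib.MP_9087e4_co

variable {V : Type*} [LinearOrder V] {q : V → Fin 2 → ℝ} {k : ℕ}

/-- the constraint imposed on `N` by a new vertex placed at `Z` and joined to `N` -/
noncomputable def psi (k : ℕ) (q : V → Fin 2 → ℝ) (N : Finset V) (Z : Fin 3 → ℝ) :
    V × Fin (k + 1) → ℝ :=
  Fr (ll q) (KK N) (cc k q N) Z

/-- the vector vanishes in the columns of `v` -/
def Blk (v : V) (w : V × Fin (k + 1) → ℝ) : Prop := ∀ s, w (v, s) = 0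

theorem Blk.of_mem_sp {F : Finset (Sym2 V)} {v : V} (hF : ∀ e ∈ F, v ∉ e)
    {w : V × Fin (k + 1) → ℝ} (hw : w ∈ sp (cofRow k q) F) : Blk v w := by
  obtain ⟨a, rfl⟩ := mem_sp_iff.1 hw
  intro s
  rw [Finset.sum_apply]
  exact Finset.sum_eq_zero fun e he => by simp [cofRow_notMem (hF e he)]

theorem Blk.sub {v : V} {w w' : V × Fin (k + 1) → ℝ} (h : Blk v w) (h' : Blk v w') :
    Blk v (w - w') := fun s => by simp [h s, h' s]

theorem Blk.smul {v : V} {w : V × Fin (k + 1) → ℝ} (h : Blk v w) (t : ℝ) :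
    Blk v (t • w) := fun s => by simp [h s]

theorem Blk.add {v : V} {w w' : V × Fin (k + 1) → ℝ} (h : Blk v w) (h' : Blk v w') :
    Blk v (w + w') := fun s => by simp [h s, h' s]

theorem notMem_of_mem_KK {N : Finset V} {v : V} (hv : v ∉ N) : ∀ e ∈ KK N, v ∉ e :=
  fun _ he h => hv ((mem_KK.1 he).2 v h)

theorem cc_mem_sp {A : Finset V} {F : Finset (Sym2 V)} {e : Sym2 V} (he : e ∈ F) :
    cc k q A e ∈ sp (cofRow k q) F :=
  Submodule.smul_mem _ _ (mem_sp he)

theorem psi_mem_KK (N : Finset V) (Z : Fin 3 → ℝ) : psi k q N Z ∈ sp (cofRow k q) (KK N) :=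
  Submodule.sum_mem _ fun _ he => Submodule.smul_mem _ _ (cc_mem_sp he)

theorem blk_psi {N : Finset V} {v : V} (hv : v ∉ N) (Z : Fin 3 → ℝ) : Blk v (psi k q N Z) :=
  Blk.of_mem_sp (notMem_of_mem_KK hv) (psi_mem_KK N Z)

theorem psi_congr {q' : V → Fin 2 → ℝ} {N : Finset V} (h : ∀ a ∈ N, q a = q' a)
    (Z : Fin 3 → ℝ) : psi k q N Z = psi k q' N Z := by
  refine Finset.sum_congr rfl fun e he => ?_
  rw [cc_congr he h, ll_congr fun a ha => h a ((mem_KK.1 he).2 a ha)]

theorem psi_smul (N : Finset V) (Z : Fin 3 → ℝ) (t : ℝ) :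
    psi k q N (t • Z) = t⁻¹ • psi k q N Z := by
  unfold psi Fr
  rw [Finset.smul_sum]
  refine Finset.sum_congr rfl fun e _ => ?_
  rw [map_smul, smul_eq_mul, mul_inv, mul_smul]

theorem GP.psi_eq (h : GP q) {N : Finset V} {v : V} (hv : v ∉ N) (hN : N.card = k + 2) :
    psi k q N (QQ q v) = ∑ a ∈ N, (- wt q (insert v N) s(v, a)) • cofRow k q s(v, a) := by
  have h1 := h.stress (k := k) (A := insert v N) (by rw [Finset.card_insert_of_notMem hv, hN])
  rw [sum_KK_split (Finset.mem_insert_self v N), Finset.erase_insert hv] at h1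
  have h2 : ∑ e ∈ KK N, cc k q (insert v N) e = psi k q N (QQ q v) := by
    refine Finset.sum_congr rfl fun e he => ?_
    rw [cc, cc, wt_insert hv (notMem_of_mem_KK hv e he), mul_smul]
  rw [h2] at h1
  rw [eq_neg_of_add_eq_zero_right h1, ← Finset.sum_neg_distrib]
  exact Finset.sum_congr rfl fun a _ => by rw [cc, neg_smul]

theorem mem_sp_star {X : Type*} [AddCommGroup X] [Module ℝ X] {r : Sym2 V → X} {N : Finset V}
    {v : V} {w : X} : w ∈ sp r (star v N) ↔ ∃ ω : V → ℝ, w = ∑ a ∈ N, ω a • r s(v, a) := by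
  constructor
  · intro h
    obtain ⟨a, rfl⟩ := mem_sp_iff.1 h
    exact ⟨fun x => a s(v, x), sum_star _ _ _⟩
  · rintro ⟨ω, rfl⟩
    exact Submodule.sum_mem _ fun a ha =>
      Submodule.smul_mem _ _ (mem_sp (mem_star.2 ⟨a, ha, rfl⟩))

theorem star_mono {v : V} {N N' : Finset V} (h : N ⊆ N') : star v N ⊆ star v N' :=
  Finset.image_subset_image h

theorem GP.psi_mem_star (h : GP q) {N : Finset V} {v : V} (hv : v ∉ N) (hN : N.card = k + 2) :
    psi k q N (QQ q v) ∈ sp (cofRow k q) (star v N) :=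
  mem_sp_star.2 ⟨_, h.psi_eq hv hN⟩

theorem GP.star_zero (h : GP q) {N : Finset V} {v : V} (hv : v ∉ N) (hN : N.card ≤ k + 1)
    {w : V × Fin (k + 1) → ℝ} (hw : w ∈ sp (cofRow k q) (star v N)) (hb : Blk v w) : w = 0 := by
  obtain ⟨ω, rfl⟩ := mem_sp_star.1 hw
  exact Finset.sum_eq_zero fun a ha => by rw [h.equil_zero hv hN hb a ha, zero_smul]

/-- subtracting a multiple of `psi` removes one edge of the star -/
theorem GP.star_reduce (h : GP q) {N N' : Finset V} {v y : V} (hv : v ∉ N) (hN' : N' ⊆ N)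
    (hc : N'.card = k + 2) (hy : y ∈ N') {w : V × Fin (k + 1) → ℝ}
    (hw : w ∈ sp (cofRow k q) (star v N)) :
    ∃ t : ℝ, w - t • psi k q N' (QQ q v) ∈ sp (cofRow k q) (star v (N.erase y)) := by
  obtain ⟨ω, rfl⟩ := mem_sp_star.1 hw
  have hv' : v ∉ N' := fun h' => hv (hN' h')
  have hvy : v ≠ y := fun h' => hv' (h' ▸ hy)
  have hm : wt q (insert v N') s(v, y) ≠ 0 := h.wt_ne _ (by simpa using hvy)
  refine ⟨- ω y / wt q (insert v N') s(v, y), ?_⟩
  rw [h.psi_eq hv' hc, ← Finset.add_sum_erase _ _ (hN' hy), ← Finset.add_sum_erase _ _ hy,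
    smul_add, smul_smul,
    show - ω y / wt q (insert v N') s(v, y) * - wt q (insert v N') s(v, y) = ω y by field_simp,
    add_sub_add_left_eq_sub]
  refine Submodule.sub_mem _ (mem_sp_star.2 ⟨_, rfl⟩) (Submodule.smul_mem _ _ ?_)
  exact sp_mono (star_mono (Finset.erase_subset_erase y hN')) (mem_sp_star.2 ⟨_, rfl⟩)

theorem GP.star_one (h : GP q) {N : Finset V} {v : V} (hv : v ∉ N) (hN : N.card = k + 2)
    {w : V × Fin (k + 1) → ℝ} (hw : w ∈ sp (cofRow k q) (star v N)) (hb : Blk v w) :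
    w ∈ Submodule.span ℝ {psi k q N (QQ q v)} := by
  obtain ⟨y, hy⟩ : N.Nonempty := Finset.card_pos.1 (by omega)
  obtain ⟨t, ht⟩ := h.star_reduce hv subset_rfl hN hy hw
  have := h.star_zero (by simp [hv]) (by rw [Finset.card_erase_of_mem hy]; omega) ht
    (hb.sub ((blk_psi hv _).smul t))
  exact Submodule.mem_span_singleton.2 ⟨t, (sub_eq_zero.1 this).symm⟩

theorem GP.star_two (h : GP q) {N : Finset V} {v x y : V} (hv : v ∉ N) (hN : N.card = k + 3)
    (hx : x ∈ N) (hy : y ∈ N) (hxy : x ≠ y)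
    {w : V × Fin (k + 1) → ℝ} (hw : w ∈ sp (cofRow k q) (star v N)) (hb : Blk v w) :
    w ∈ Submodule.span ℝ {psi k q (N.erase x) (QQ q v), psi k q (N.erase y) (QQ q v)} := by
  obtain ⟨t, ht⟩ := h.star_reduce hv (Finset.erase_subset x N)
    (by rw [Finset.card_erase_of_mem hx]; omega) (Finset.mem_erase.2 ⟨hxy.symm, hy⟩) hw
  have := h.star_one (by simp [hv]) (by rw [Finset.card_erase_of_mem hy]; omega) ht
    (hb.sub ((blk_psi (by simp [hv]) _).smul t))
  obtain ⟨t', ht'⟩ := Submodule.mem_span_singleton.1 this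
  exact Submodule.mem_span_pair.2 ⟨t, t', by rw [ht']; abel⟩

theorem GP.psi_ne (h : GP q) {N : Finset V} {v : V} (hv : v ∉ N) (hN : N.card = k + 2) :
    psi k q N (QQ q v) ≠ 0 := by
  obtain ⟨y, hy⟩ : N.Nonempty := Finset.card_pos.1 (by omega)
  intro h0
  obtain ⟨t, ht⟩ := h.star_reduce hv subset_rfl hN hy
    (mem_sp (r := cofRow k q) (mem_star.2 ⟨y, hy, rfl⟩))
  rw [h0, smul_zero, sub_zero] at ht
  have h1 := h.ind_star (k := k) hv
  have h2 : star v N = insert s(v, y) (star v (N.erase y)) := by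
    conv_lhs => rw [← Finset.insert_erase hy]
    simp [star]
  rw [h2, ind_insert] at h1
  · exact h1.2 ht
  · rw [mem_star]
    rintro ⟨a, ha, h3⟩
    exact Finset.ne_of_mem_erase ha (mk_inj v h3)

theorem GP.psi_not_par (h : GP q) {N : Finset V} {v x y : V} (hv : v ∉ N) (hN : N.card = k + 3)
    (hx : x ∈ N) (hy : y ∈ N) (hxy : x ≠ y) :
    ¬ Par (psi k q (N.erase x) (QQ q v)) (psi k q (N.erase y) (QQ q v)) := by
  intro hp
  have hcx : (N.erase x).card = k + 2 := by rw [Finset.card_erase_of_mem hx]; omega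
  have hcy : (N.erase y).card = k + 2 := by rw [Finset.card_erase_of_mem hy]; omega
  obtain ⟨t, ht⟩ := hp.exists_smul (h.psi_ne (by simp [hv]) hcx)
  obtain ⟨t', ht'⟩ := h.star_reduce (N := N.erase y) (y := x) (v := v) (by simp [hv]) subset_rfl hcy
    (Finset.mem_erase.2 ⟨hxy, hx⟩)
    (mem_sp (r := cofRow k q) (mem_star.2 ⟨x, Finset.mem_erase.2 ⟨hxy, hx⟩, rfl⟩))
  have h1 := h.ind_star (k := k) hv
  have h2 : star v N = insert s(v, x) (star v (N.erase x)) := by
    conv_lhs => rw [← Finset.insert_erase hx]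
    simp [star]
  rw [h2, ind_insert] at h1
  · apply h1.2
    have h3 := sp_mono (star_mono (Finset.erase_subset_erase x (Finset.erase_subset y N))) ht'
    have h4 := h.psi_mem_star (N := N.erase x) (v := v) (by simp [hv]) hcx
    have := Submodule.add_mem _ h3 (Submodule.smul_mem _ (t' * t) h4)
    rwa [ht, smul_smul, sub_add_cancel] at this
  · rw [mem_star]
    rintro ⟨a, ha, h3⟩
    exact Finset.ne_of_mem_erase ha (mk_inj v h3)

section Ext

variable {F : Finset (Sym2 V)} {N : Finset V} {v : V}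

theorem disjoint_star (hF : ∀ e ∈ F, v ∉ e) : Disjoint F (star v N) := by
  rw [Finset.disjoint_right]
  intro e he he'
  obtain ⟨a, _, rfl⟩ := mem_star.1 he
  exact hF _ he' (by simp)

theorem split_mem (hF : ∀ e ∈ F, v ∉ e) {w : V × Fin (k + 1) → ℝ}
    (hw : w ∈ sp (cofRow k q) (F ∪ star v N)) (hb : Blk v w) :
    ∃ a ∈ sp (cofRow k q) F, ∃ b ∈ sp (cofRow k q) (star v N), Blk v b ∧ a + b = w := by
  rw [sp_union] at hw
  obtain ⟨a, ha, b, hb', rfl⟩ := Submodule.mem_sup.1 hw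
  refine ⟨a, ha, b, hb', ?_, rfl⟩
  simpa using hb.sub (Blk.of_mem_sp hF ha)

theorem GP.ext_zero (h : GP q) (hv : v ∉ N) (hF : ∀ e ∈ F, v ∉ e) (hN : N.card ≤ k + 1)
    (hI : Ind (cofRow k q) F) : Ind (cofRow k q) (F ∪ star v N) := by
  refine hI.union (h.ind_star hv) (Submodule.disjoint_def.2 fun w h1 h2 => ?_)
  exact h.star_zero hv hN h2 (Blk.of_mem_sp hF h1)

theorem GP.ext_one (h : GP q) (hv : v ∉ N) (hF : ∀ e ∈ F, v ∉ e) (hN : N.card = k + 2)
    (hI : Ind (cofRow k q) F) :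
    Ind (cofRow k q) (F ∪ star v N) ↔ psi k q N (QQ q v) ∉ sp (cofRow k q) F := by
  constructor
  · intro h1 h2
    exact h.psi_ne hv hN (Submodule.disjoint_def.1 (h1.disjoint (disjoint_star hF)) _ h2
      (h.psi_mem_star hv hN))
  · intro h0
    refine hI.union (h.ind_star hv) (Submodule.disjoint_def.2 fun w h1 h2 => ?_)
    obtain ⟨t, rfl⟩ := Submodule.mem_span_singleton.1 (h.star_one hv hN h2 (Blk.of_mem_sp hF h1))
    by_cases ht : t = 0
    · simp [ht]
    · exact absurd ((Submodule.smul_mem_iff _ ht).1 h1) h0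

theorem GP.ext_two (h : GP q) (hv : v ∉ N) (hF : ∀ e ∈ F, v ∉ e) (hN : N.card = k + 3)
    (hI : Ind (cofRow k q) F) {x y : V} (hx : x ∈ N) (hy : y ∈ N) (hxy : x ≠ y) :
    Ind (cofRow k q) (F ∪ star v N) ↔
      ¬ Par ((sp (cofRow k q) F).mkQ (psi k q (N.erase x) (QQ q v)))
        ((sp (cofRow k q) F).mkQ (psi k q (N.erase y) (QQ q v))) := by
  have hcx : (N.erase x).card = k + 2 := by rw [Finset.card_erase_of_mem hx]; omega
  have hcy : (N.erase y).card = k + 2 := by rw [Finset.card_erase_of_mem hy]; omega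
  constructor
  · intro h1 h2
    obtain ⟨a, b, hab, h3⟩ := h2.exists_comb
    rw [← map_smul, ← map_smul, ← map_add, Submodule.mkQ_apply,
      Submodule.Quotient.mk_eq_zero] at h3
    refine h.psi_not_par hv hN hx hy hxy (Par.of_comb hab ?_)
    refine Submodule.disjoint_def.1 (h1.disjoint (disjoint_star hF)) _ h3 ?_
    exact Submodule.add_mem _
      (Submodule.smul_mem _ _ (sp_mono (star_mono (Finset.erase_subset _ _))
        (h.psi_mem_star (by simp [hv]) hcx)))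
      (Submodule.smul_mem _ _ (sp_mono (star_mono (Finset.erase_subset _ _))
        (h.psi_mem_star (by simp [hv]) hcy)))
  · intro h0
    refine hI.union (h.ind_star hv) (Submodule.disjoint_def.2 fun w h1 h2 => ?_)
    obtain ⟨a, b, rfl⟩ :=
      Submodule.mem_span_pair.1 (h.star_two hv hN hx hy hxy h2 (Blk.of_mem_sp hF h1))
    have := Par.comb_eq_zero (a := a) (b := b) h0 (by
      rw [← map_smul, ← map_smul, ← map_add, Submodule.mkQ_apply, Submodule.Quotient.mk_eq_zero]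
      exact h1)
    simp [this.1, this.2]

theorem GP.mem_one (h : GP q) (hv : v ∉ N) (hF : ∀ e ∈ F, v ∉ e) (hN : N.card = k + 2)
    {w : V × Fin (k + 1) → ℝ} (hw : w ∈ sp (cofRow k q) (F ∪ star v N)) (hb : Blk v w) :
    (sp (cofRow k q) F).mkQ w ∈
      Submodule.span ℝ {(sp (cofRow k q) F).mkQ (psi k q N (QQ q v))} := by
  obtain ⟨a, ha, b, hb1, hb2, rfl⟩ := split_mem hF hw hb
  obtain ⟨t, rfl⟩ := Submodule.mem_span_singleton.1 (h.star_one hv hN hb1 hb2)
  refine Submodule.mem_span_singleton.2 ⟨t, ?_⟩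
  have : (sp (cofRow k q) F).mkQ a = 0 := by simpa using ha
  rw [map_add, this, zero_add, map_smul]

theorem GP.mem_two (h : GP q) (hv : v ∉ N) (hF : ∀ e ∈ F, v ∉ e) (hN : N.card = k + 3)
    {x y : V} (hx : x ∈ N) (hy : y ∈ N) (hxy : x ≠ y)
    {w : V × Fin (k + 1) → ℝ} (hw : w ∈ sp (cofRow k q) (F ∪ star v N)) (hb : Blk v w) :
    (sp (cofRow k q) F).mkQ w ∈
      Submodule.span ℝ {(sp (cofRow k q) F).mkQ (psi k q (N.erase x) (QQ q v)),
        (sp (cofRow k q) F).mkQ (psi k q (N.erase y) (QQ q v))} := by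
  obtain ⟨a, ha, b, hb1, hb2, rfl⟩ := split_mem hF hw hb
  obtain ⟨t, t', rfl⟩ := Submodule.mem_span_pair.1 (h.star_two hv hN hx hy hxy hb1 hb2)
  refine Submodule.mem_span_pair.2 ⟨t, t', ?_⟩
  have : (sp (cofRow k q) F).mkQ a = 0 := by simpa using ha
  rw [map_add, this, zero_add, map_add, map_smul, map_smul]

end Ext

theorem GP.phi_eq (h : GP q) {X : Type*} [AddCommGroup X] [Module ℝ X]
    (f : (V × Fin (k + 1) → ℝ) →ₗ[ℝ] X) {N : Finset V} {x : V} (hx : x ∈ N) (Z : Fin 3 → ℝ) :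
    phi (ll q) (QQ q) N (fun e => f (cc k q N e)) x Z = f (psi k q (N.erase x) Z) := by
  unfold phi psi Fr
  rw [map_sum]
  refine Finset.sum_congr rfl fun e he => ?_
  have hxe : x ∉ e := notMem_of_mem_KK (Finset.notMem_erase x N) e he
  have h1 : ll q e (QQ q x) ≠ 0 := by
    rw [Ne, h.genPos.pt e (mem_KK.1 he).1]; exact hxe
  rw [map_smul]
  beta_reduce
  rw [← map_smul f (ll q e (QQ q x))]
  congr 2
  conv_lhs => rw [← Finset.insert_erase hx]
  rw [cc, cc, wt_insert (Finset.notMem_erase x N) hxe, smul_smul, mul_inv_cancel_left₀ h1]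

/-- gluing along a single vertex -/
theorem ind_one_sum [Fintype V] {F₁ F₂ : Finset (Sym2 V)} {K : Finset V} {v : V}
    (h₁ : Ind (cofRow k q) F₁) (h₂ : Ind (cofRow k q) F₂)
    (hF₁ : ∀ e ∈ F₁, ∀ a ∈ e, a ∈ K ∨ a = v) (hF₂ : ∀ e ∈ F₂, ∀ a ∈ e, a ∉ K) :
    Ind (cofRow k q) (F₁ ∪ F₂) := by
  refine h₁.union h₂ (Submodule.disjoint_def.2 fun w h1 h2 => ?_)
  have hb : ∀ a, a ≠ v → Blk a w := by
    intro a hav
    by_cases ha : a ∈ K
    · exact Blk.of_mem_sp (fun e he h' => hF₂ e he a h' ha) h2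
    · exact Blk.of_mem_sp (fun e he h' => by rcases hF₁ e he a h' with h | h <;> contradiction) h1
  have hs : ∀ s, ∑ a, w (a, s) = 0 := by
    intro s
    obtain ⟨c, rfl⟩ := mem_sp_iff.1 h1
    simp only [Finset.sum_apply, Pi.smul_apply, smul_eq_mul]
    rw [Finset.sum_comm]
    refine Finset.sum_eq_zero fun e _ => ?_
    rw [← Finset.mul_sum, sum_cofRow, mul_zero]
  funext ⟨a, s⟩
  by_cases hav : a = v
  · subst hav
    have := hs s
    rwa [Finset.sum_eq_single a (fun b _ hb' => hb b hb' s) (by simp)] at this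
  · exact hb a hav s

end Pool.Agent.Lib.MP_9087e4_co
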