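import Mathlib
import Pool.Agent.Lib.MP_9087e4_co.Vertex

set_option autoImplicit false

namespace Pool.Agent.Lib.MP_9087e4_co

open Filter Topology Matrix

section Gram

theorem li_iff_gram {ι κ : Type*} [Fintype ι] [DecidableEq ι] [Fintype κ] (A : Matrix ι κ ℝ) :
    LinearIndependent ℝ (fun i => A i) ↔ (A * Aᵀ).det ≠ 0 := by
  rw [Ne, ← Matrix.exists_vecMul_eq_zero_iff, Fintype.linearIndependent_iff]
  have hv : ∀ v : ι → ℝ, ∑ i, v i • A i = v ᵥ* A := fun v => by
    funext j; simp [Matrix.vecMul, dotProduct, Finset.sum_apply]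
  constructor
  · rintro h ⟨v, hv0, h1⟩
    apply hv0
    funext i
    refine h v ?_ i
    rw [hv, ← dotProduct_self_eq_zero]
    have : (v ᵥ* A) ⬝ᵥ (v ᵥ* A) = (v ᵥ* (A * Aᵀ)) ⬝ᵥ v := by
      rw [← Matrix.vecMul_vecMul, ← Matrix.dotProduct_mulVec (v ᵥ* A), Matrix.mulVec_transpose]
    rw [this, h1, zero_dotProduct]
  · intro h v h1
    by_contra hc
    apply h
    refine ⟨v, fun h0 => hc fun i => congrFun h0 i, ?_⟩
    rw [← Matrix.vecMul_vecMul, ← hv, h1, Matrix.zero_vecMul]

variable {σ : Type*} {x : σ → ℝ}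

theorem gen_ne (hx : AlgebraicIndependent ℚ x) (y : σ → ℝ) {P : MvPolynomial σ ℚ}
    (h : MvPolynomial.aeval y P ≠ 0) : MvPolynomial.aeval x P ≠ 0 := by
  intro h0
  apply h
  have : P = 0 := hx (by rw [h0, map_zero])
  rw [this, map_zero]

theorem gen_ind (hx : AlgebraicIndependent ℚ x) (y : σ → ℝ) {ι κ : Type*} [Fintype κ]
    (r : ι → κ → MvPolynomial σ ℚ) (F : Finset ι)
    (h : Ind (fun e c => MvPolynomial.aeval y (r e c)) F) :
    Ind (fun e c => MvPolynomial.aeval x (r e c)) F := by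
  classical
  let A : Matrix F κ (MvPolynomial σ ℚ) := fun e c => r e c
  have key : ∀ z : σ → ℝ, Ind (fun e c => MvPolynomial.aeval z (r e c)) F ↔
      MvPolynomial.aeval z (A * Aᵀ).det ≠ 0 := by
    intro z
    have h1 := li_iff_gram (A.map (MvPolynomial.aeval z))
    rw [AlgHom.map_det, AlgHom.mapMatrix_apply, Matrix.map_mul, Matrix.transpose_map]
    exact h1
  exact (key x).2 (gen_ne hx y ((key y).1 h))

end Gram

variable {V : Type*} [LinearOrder V] {k : ℕ}

/-- the universal configuration -/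
noncomputable def XX (V : Type*) (d : ℕ) : V → Fin d → MvPolynomial (V × Fin d) ℚ :=
  fun v j => MvPolynomial.X (v, j)

theorem aeval_cofRow (q : V → Fin 2 → ℝ) (e : Sym2 V) (c : V × Fin (k + 1)) :
    MvPolynomial.aeval (fun c : V × Fin 2 => q c.1 c.2) (cofRow k (XX V 2) e c) =
      cofRow k q e c := by
  simp only [cofRow, cofRowOrd, cofVec, XX]
  split_ifs <;> simp

omit [LinearOrder V] in
theorem aeval_rigRow [DecidableEq V] {d : ℕ} (p : V → Fin d → ℝ) (e : Sym2 V) (c : V × Fin d) :
    MvPolynomial.aeval (fun c : V × Fin d => p c.1 c.2) (rigRow (XX V d) e c) =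
      rigRow p e c := by
  induction e using Sym2.ind with
  | _ i j =>
    simp only [rigRow, Sym2.lift_mk, XX]
    split_ifs <;> simp

theorem Generic.gp {q : V → Fin 2 → ℝ} (hq : Generic q) : GP q where
  ne i j hij := by
    have := gen_ne hq (fun c => if c.1 = i then 1 else 0) (P := XX V 2 i 0 - XX V 2 j 0)
      (by simp [XX, hij.symm])
    simpa [XX] using this
  tri a i j hij hai haj := by
    let t : V → ℝ := fun v => if v = i then 0 else if v = j then 1 else 2
    have := gen_ne hq (fun c => t c.1 ^ (c.2.1 + 1)) (P := tri (XX V 2 a) (XX V 2 i) (XX V 2 j))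
      (by
        simp [XX, tri, coef, t, hij.symm, hai, haj]
        norm_num)
    simpa [XX, tri, coef] using this
  conc a b c d x y hab hcd hxy hac had hbc hbd h1 h2 := by
    let t : V → ℝ := fun v => if v = a then 0 else if v = b then 1 else if v = c then 2 else
      if v = d then 3 else if v = x then 4 else 5
    have ta : t a = 0 := by simp [t]
    have tb : t b = 1 := by simp [t, hab.symm]
    have tc : t c = 2 := by simp [t, hac.symm, hbc.symm]
    have td : t d = 3 := by simp [t, had.symm, hbd.symm, hcd.symm]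
    have key : (t y - t x) * (3 * (t x + t y) - 3 - 2 * t x * t y) ≠ 0 := by
      simp only [Ne, Sym2.eq_iff, not_or, not_and] at h1 h2
      by_cases hxa : x = a <;> by_cases hxb : x = b <;> by_cases hxc : x = c <;>
        by_cases hxd : x = d <;> by_cases hya : y = a <;> by_cases hyb : y = b <;>
        by_cases hyc : y = c <;> by_cases hyd : y = d <;>
        first
          | (exfalso; simp_all; done)
          | (simp [t, *, Ne.symm hxy, hab.symm, hac.symm, hbc.symm, had.symm, hbd.symm, hcd.symm]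
             norm_num)
          | (simp [t, *, Ne.symm hxy, hab.symm, hac.symm, hbc.symm, had.symm, hbd.symm, hcd.symm])
    have := gen_ne hq (fun c => t c.1 ^ (c.2.1 + 1))
      (P := det3 (coef (XX V 2 x) (XX V 2 y)) (coef (XX V 2 a) (XX V 2 b))
        (coef (XX V 2 c) (XX V 2 d)))
      (by
        simp [XX, det3, coef, ta, tb, tc, td]
        intro h
        apply key
        linear_combination (-1 / 2 : ℝ) * h)
    simpa [XX, det3, coef] using this

variable [Fintype V]

/-- independence in the generic cofactor matroid -/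
def GInd (k : ℕ) (F : Finset (Sym2 V)) : Prop := ∃ q : V → Fin 2 → ℝ, Ind (cofRow k q) F

/-- regular configurations -/
structure Reg (k : ℕ) (q : V → Fin 2 → ℝ) : Prop where
  gp : GP q
  ind : ∀ F, GInd k F → Ind (cofRow k q) F

theorem Generic.reg {q : V → Fin 2 → ℝ} (hq : Generic q) : Reg k q := by
  refine ⟨hq.gp, ?_⟩
  rintro F ⟨y, hy⟩
  have := gen_ind hq (fun c => y c.1 c.2) (cofRow k (XX V 2)) F
    (by simpa only [aeval_cofRow] using hy)
  simpa only [aeval_cofRow] using this

omit [Fintype V] in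
theorem GInd.mono {F F' : Finset (Sym2 V)} (h : GInd k F') (hF : F ⊆ F') : GInd k F :=
  h.imp fun _ h => h.mono hF

theorem GP.eventually {q : V → Fin 2 → ℝ} (h : GP q) : ∀ᶠ q' in 𝓝 q, GP q' := by
  have h1 : ∀ᶠ q' in 𝓝 q, ∀ i j, i ≠ j → q' i 0 - q' j 0 ≠ 0 := by
    simp only [eventually_all]
    intro i j hij
    exact ContinuousAt.eventually_ne (by fun_prop) (h.ne i j hij)
  have h2 : ∀ᶠ q' in 𝓝 q, ∀ a i j, i ≠ j → a ≠ i → a ≠ j →
      Pool.Agent.Lib.MP_9087e4_co.tri (q' a) (q' i) (q' j) ≠ 0 := by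
    simp only [eventually_all]
    intro a i j h1 h2 h3
    refine ContinuousAt.eventually_ne ?_ (h.tri a i j h1 h2 h3)
    simp only [Pool.Agent.Lib.MP_9087e4_co.tri, coef, Matrix.cons_val]
    fun_prop
  have h3 : ∀ᶠ q' in 𝓝 q, ∀ a b c d x y, a ≠ b → c ≠ d → x ≠ y → a ≠ c → a ≠ d → b ≠ c →
      b ≠ d → s(x, y) ≠ s(a, b) → s(x, y) ≠ s(c, d) →
      det3 (coef (q' x) (q' y)) (coef (q' a) (q' b)) (coef (q' c) (q' d)) ≠ 0 := by
    simp only [eventually_all]
    intro a b c d x y h1 h2 h3 h4 h5 h6 h7 h8 h9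
    refine ContinuousAt.eventually_ne ?_ (h.conc a b c d x y h1 h2 h3 h4 h5 h6 h7 h8 h9)
    simp only [det3, coef, Matrix.cons_val]
    fun_prop
  filter_upwards [h1, h2, h3] with q' h1 h2 h3 using ⟨h1, h2, h3⟩

theorem Reg.eventually {q : V → Fin 2 → ℝ} (h : Reg k q) : ∀ᶠ q' in 𝓝 q, Reg k q' := by
  have h2 : ∀ᶠ q' in 𝓝 q, ∀ F, GInd k F → Ind (cofRow k q') F := by
    simp only [eventually_all]
    intro F hF
    have hc : Continuous fun q' : V → Fin 2 → ℝ => fun e : (F : Set (Sym2 V)) => cofRow k q' e := by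
      refine continuous_pi fun e => continuous_pi fun c => ?_
      simp only [cofRow, cofRowOrd, cofVec]
      split_ifs <;> fun_prop
    exact hc.continuousAt.eventually (LinearIndependent.eventually (h.ind F hF))
  filter_upwards [h.gp.eventually, h2] with q' h1 h2 using ⟨h1, h2⟩

/-- affine coordinates -/
noncomputable def aff (Z : Fin 3 → ℝ) : Fin 2 → ℝ := ![Z 0 / Z 2, Z 1 / Z 2]

theorem hom_aff {Z : Fin 3 → ℝ} (h : Z 2 ≠ 0) : hom (aff Z) = (Z 2)⁻¹ • Z := by
  funext i
  fin_cases i <;> simp [hom, aff, h, div_eq_inv_mul]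

theorem aff_hom (z : Fin 2 → ℝ) : aff (hom z) = z := by
  funext i
  fin_cases i <;> simp [hom, aff]

/-- moving one vertex a little keeps the configuration regular -/
theorem Reg.move {q : V → Fin 2 → ℝ} (h : Reg k q) (v : V) :
    ∀ᶠ Z in 𝓝 (QQ q v), ∃ q' : V → Fin 2 → ℝ, ∃ t : ℝ, t ≠ 0 ∧ Reg k q' ∧ QQ q' v = t • Z ∧
      ∀ a, a ≠ v → q a = q' a := by
  have h2 : QQ q v 2 ≠ 0 := by simp [QQ, hom]
  have hc : ContinuousAt aff (QQ q v) := by
    refine continuousAt_pi.2 fun i => ?_
    fin_cases i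
    · exact ContinuousAt.div (f := fun Z : Fin 3 → ℝ => Z 0) (g := fun Z : Fin 3 → ℝ => Z 2)
        (continuous_apply _).continuousAt (continuous_apply _).continuousAt h2
    · exact ContinuousAt.div (f := fun Z : Fin 3 → ℝ => Z 1) (g := fun Z : Fin 3 → ℝ => Z 2)
        (continuous_apply _).continuousAt (continuous_apply _).continuousAt h2
  have hc2 : ContinuousAt (fun Z => Function.update q v (aff Z)) (QQ q v) :=
    (continuous_const.update v continuous_id).continuousAt.comp hc
  have h3 : Function.update q v (aff (QQ q v)) = q := by simp [QQ, aff_hom]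
  have h4 := hc2.eventually (p := Reg k) (by beta_reduce; rw [h3]; exact h.eventually)
  have h5 : ∀ᶠ Z in 𝓝 (QQ q v), Z 2 ≠ 0 :=
    ContinuousAt.eventually_ne (g := fun Z : Fin 3 → ℝ => Z 2) (continuous_apply _).continuousAt h2
  filter_upwards [h4, h5] with Z h4 h5
  exact ⟨_, (Z 2)⁻¹, inv_ne_zero h5, h4, by simp [QQ, hom_aff h5],
    fun a ha => by simp [Function.update_of_ne ha]⟩

end Pool.Agent.Lib.MP_9087e4_co
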