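import Mathlib
import Pool.Agent.Lib.MP_9087e4_co.Reg
import Pool.Agent.Lib.MP_9087e4_co.Classify

set_option autoImplicit false

namespace Pool.Agent.Lib.MP_9087e4_co

open Filter Topology

theorem Par.mono {X : Type*} [AddCommGroup X] [Module ℝ X] {R R' : Submodule ℝ X} (h : R ≤ R')
    {a b : X} (hp : Par (R.mkQ a) (R.mkQ b)) : Par (R'.mkQ a) (R'.mkQ b) := by
  simpa using hp.map (Submodule.factor h)

theorem mkQ_eq_zero {X : Type*} [AddCommGroup X] [Module ℝ X] {R : Submodule ℝ X} {a : X} :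
    R.mkQ a = 0 ↔ a ∈ R := by simp

theorem map_Fr {ι E X Y : Type*} [NormedAddCommGroup E] [NormedSpace ℝ E] [AddCommGroup X]
    [Module ℝ X] [AddCommGroup Y] [Module ℝ Y] (f : X →ₗ[ℝ] Y) (l : ι → E →L[ℝ] ℝ) (I : Finset ι)
    (u : ι → X) (Z : E) : f (Fr l I u Z) = Fr l I (fun e => f (u e)) Z := by
  simp [Fr, map_sum]

variable {V : Type*} [LinearOrder V] {q : V → Fin 2 → ℝ} {k : ℕ}
variable {F : Finset (Sym2 V)} {N T : Finset V} {v : V}

theorem GP.ll_ne (h : GP q) (hv : v ∉ N) : ∀ e ∈ KK N, ll q e (QQ q v) ≠ 0 := fun e he => by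
  rw [Ne, h.genPos.pt e (mem_KK.1 he).1]
  exact notMem_of_mem_KK hv e he

theorem GP.loc (h : GP q) (hv : v ∉ N) (hN : N.card = k + 3)
    (R : Submodule ℝ (V × Fin (k + 1) → ℝ))
    (hb : ∀ x ∈ N, ∀ y ∈ N, x ≠ y → ∀ᶠ Z in 𝓝 (QQ q v),
      Par (R.mkQ (psi k q (N.erase x) Z)) (R.mkQ (psi k q (N.erase y) Z))) :
    Loc N fun e => R.mkQ (cc k q N e) := by
  have := local_conditions h.genPos (N := N) (by omega) (c := fun e => R.mkQ (cc k q N e))
    (by rw [← map_sum, h.stress hN, map_zero]) (h.ll_ne hv) (fun x hx y hy hxy => by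
      simpa only [h.phi_eq R.mkQ hx, h.phi_eq R.mkQ hy] using hb x hx y hy hxy)
  exact ⟨this.1, this.2⟩

theorem sp_move {q' : V → Fin 2 → ℝ} (hF : ∀ e ∈ F, v ∉ e) (h : ∀ a, a ≠ v → q a = q' a) :
    sp (cofRow k q') F = sp (cofRow k q) F :=
  sp_congr fun e he => (cofRow_congr fun a ha => h a fun h' => hF e he (h' ▸ ha)).symm

theorem psi_move {q' : V → Fin 2 → ℝ} (hv : v ∉ N) (h : ∀ a, a ≠ v → q a = q' a) {t : ℝ}
    {Z : Fin 3 → ℝ} (hZ : QQ q' v = t • Z) : psi k q' N (QQ q' v) = t⁻¹ • psi k q N Z := by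
  rw [hZ, psi_smul, psi_congr (q := q) (q' := q') fun a ha => h a fun h' => hv (h' ▸ ha)]

variable [Fintype V]

theorem Reg.loc (h : Reg k q) (hv : v ∉ N) (hF : ∀ e ∈ F, v ∉ e) (hN : N.card = k + 3)
    (hI : GInd k F) (hD : ¬ GInd k (F ∪ star v N)) :
    Loc N fun e => (sp (cofRow k q) F).mkQ (cc k q N e) := by
  refine h.gp.loc hv hN _ fun x hx y hy hxy => ?_
  filter_upwards [h.move v] with Z ⟨q', t, ht, hq', hZ, hqq⟩
  have h1 : ¬ Ind (cofRow k q') (F ∪ star v N) := fun h' => hD ⟨q', h'⟩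
  rw [hq'.gp.ext_two hv hF hN (hq'.ind F hI) hx hy hxy, not_not, sp_move hF hqq,
    psi_move (by simp [hv]) hqq hZ, psi_move (by simp [hv]) hqq hZ, map_smul, map_smul] at h1
  exact (h1.of_smul_left (inv_ne_zero ht)).of_smul_right (inv_ne_zero ht)

omit [Fintype V] in
theorem Reg.ext_zero (h : Reg k q) (hv : v ∉ N) (hF : ∀ e ∈ F, v ∉ e) (hN : N.card ≤ k + 1)
    (hI : GInd k F) : GInd k (F ∪ star v N) :=
  ⟨q, h.gp.ext_zero hv hF hN (h.ind F hI)⟩

/-- the one-extension -/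
theorem Reg.ext_one (h : Reg k q) (hk : 1 ≤ k) (hv : v ∉ N) (hF : ∀ e ∈ F, v ∉ e)
    (hN : N.card = k + 2) {e : Sym2 V} (he : e ∈ KK N) (heF : e ∉ F) (hI : GInd k (insert e F)) :
    GInd k (F ∪ star v N) := by
  by_contra hD
  have hI' : GInd k F := hI.mono (Finset.subset_insert _ _)
  have h1 : ∀ᶠ Z in 𝓝 (QQ q v),
      Fr (ll q) (KK N) (fun e => (sp (cofRow k q) F).mkQ (cc k q N e)) Z = 0 := by
    filter_upwards [h.move v] with Z ⟨q', t, ht, hq', hZ, hqq⟩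
    have h1 : ¬ Ind (cofRow k q') (F ∪ star v N) := fun h' => hD ⟨q', h'⟩
    rw [hq'.gp.ext_one hv hF hN (hq'.ind F hI'), not_not, sp_move hF hqq, psi_move hv hqq hZ,
      Submodule.smul_mem_iff _ (inv_ne_zero ht), ← mkQ_eq_zero, psi, map_Fr] at h1
    exact h1
  obtain ⟨x, hx⟩ : ((N.erase e.inf).erase e.sup).Nonempty := by
    rw [← Finset.card_pos]
    have h1 := Finset.pred_card_le_card_erase (s := N) (a := e.inf)
    have h2 := Finset.pred_card_le_card_erase (s := N.erase e.inf) (a := e.sup)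
    omega
  simp only [Finset.mem_erase] at hx
  have hxe : x ∉ e := by rw [mem_iff_inf_sup]; tauto
  have hvx : v ≠ x := fun h' => hv (h' ▸ hx.2.2)
  obtain ⟨Z, h2, -, h3⟩ := h.gp.genPos.meet e s(v, x) (mem_KK.1 he).1 (by simpa using hvx) (by
    intro a ha
    simp only [Sym2.mem_iff, not_or]
    exact ⟨fun h' => notMem_of_mem_KK hv e he (h' ▸ ha), fun h' => hxe (h' ▸ ha)⟩)
  have h4 := res_one (h.gp.ll_ne hv) h1 he h2 fun g hg => by
    rw [Finset.mem_erase] at hg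
    refine h3 g (mem_KK.1 hg.2).1 hg.1 ?_
    rintro rfl
    exact notMem_of_mem_KK hv _ hg.2 (by simp)
  rw [mkQ_eq_zero, cc, Submodule.smul_mem_iff _ (h.gp.wt_ne N (mem_KK.1 he).1)] at h4
  exact ((ind_insert heF).1 (h.ind _ hI)).2 h4

/-- the combinatorial shadow of the conic type -/
structure Con (k : ℕ) (F : Finset (Sym2 V)) (N T : Finset V) : Prop where
  sub : T ⊆ N
  card : T.card = 4
  ind : ∀ a ∈ T, ∀ b ∈ T, ∀ c ∈ T, a ≠ b → a ≠ c → b ≠ c →
    s(a, b) ∉ F ∧ s(a, c) ∉ F ∧ GInd k (insert s(a, b) (insert s(a, c) F))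

omit [Fintype V] in
theorem Con.not_par (hC : Con k F N T) (h : Reg k q) {a b c : V} (ha : a ∈ T) (hb : b ∈ T)
    (hc : c ∈ T) (hab : a ≠ b) (hac : a ≠ c) (hbc : b ≠ c) :
    ¬ Par ((sp (cofRow k q) F).mkQ (cofRow k q s(a, b)))
      ((sp (cofRow k q) F).mkQ (cofRow k q s(a, c))) := by
  obtain ⟨h1, h2, h3⟩ := hC.ind a ha b hb c hc hab hac hbc
  exact (h.ind _ h3).not_par h1 h2 fun h' => hbc (mk_inj a h')

omit [Fintype V] in
theorem GP.par_cc (h : GP q) {R : Submodule ℝ (V × Fin (k + 1) → ℝ)} {A B : Finset V}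
    {e f : Sym2 V} (he : ¬ e.IsDiag) (hf : ¬ f.IsDiag) :
    Par (R.mkQ (cc k q A e)) (R.mkQ (cc k q B f)) ↔
      Par (R.mkQ (cofRow k q e)) (R.mkQ (cofRow k q f)) := by
  rw [cc, cc, map_smul, map_smul]
  exact ⟨fun h' => (h'.of_smul_left (h.wt_ne A he)).of_smul_right (h.wt_ne B hf),
    fun h' => (h'.smul_left _).smul_right _⟩

omit [Fintype V] in
theorem GP.cc_zero (h : GP q) {R : Submodule ℝ (V × Fin (k + 1) → ℝ)} {A : Finset V}
    {e : Sym2 V} (he : ¬ e.IsDiag) : R.mkQ (cc k q A e) = 0 ↔ R.mkQ (cofRow k q e) = 0 := by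
  rw [cc, map_smul, smul_eq_zero_iff_right (h.wt_ne A he)]

omit [Fintype V] in
theorem card_four (hT : T.card = 4) {a : V} (ha : a ∈ T) :
    ∃ b x y, a ≠ b ∧ a ≠ x ∧ a ≠ y ∧ b ≠ x ∧ b ≠ y ∧ x ≠ y ∧ T = {a, b, x, y} := by
  obtain ⟨b, x, y, h1, h2, h3, h4⟩ := Finset.card_eq_three.1
    (show (T.erase a).card = 3 by rw [Finset.card_erase_of_mem ha]; omega)
  have hb : b ∈ T.erase a := by simp [h4]
  have hx : x ∈ T.erase a := by simp [h4]
  have hy : y ∈ T.erase a := by simp [h4]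
  exact ⟨b, x, y, (Finset.ne_of_mem_erase hb).symm, (Finset.ne_of_mem_erase hx).symm,
    (Finset.ne_of_mem_erase hy).symm, h1, h2, h3, by rw [← h4, Finset.insert_erase ha]⟩

omit [Fintype V] in
theorem card_quad {a b x y : V} (hab : a ≠ b) (hax : a ≠ x) (hay : a ≠ y) (hbx : b ≠ x)
    (hby : b ≠ y) (hxy : x ≠ y) : ({a, b, x, y} : Finset V).card = 4 := by
  rw [Finset.card_insert_of_notMem (by simp [*]), Finset.card_insert_of_notMem (by simp [*]),
    Finset.card_pair hxy]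

/-- the three ways in which a vertex of degree `k + 3` can be dependent -/
theorem Reg.tricho (h : Reg k q) (hv : v ∉ N) (hF : ∀ e ∈ F, v ∉ e) (hN : N.card = k + 3)
    (hI : GInd k F) (hD : ¬ GInd k (F ∪ star v N)) :
    (∀ e ∈ KK N, ∀ f ∈ KK N, e ∉ F → f ∉ F → e ≠ f → ¬ GInd k (insert e (insert f F))) ∨
    (∃ x, ∀ e ∈ KK (N.erase x), e ∉ F → ¬ GInd k (insert e F)) ∨ ∃ T, Con k F N T := by
  rcases (h.loc hv hF hN hI hD).classify with h1 | ⟨x, h1⟩ |
    ⟨a, ha, b, hb, x, hx, y, hy, hab, hax, hay, hbx, hby, hxy, h1, h2⟩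
  · left
    intro e he f hf heF hfF hef h2
    refine (h.ind _ h2).not_par heF hfF hef ?_
    rw [← h.gp.par_cc (A := N) (B := N) (mem_KK.1 he).1 (mem_KK.1 hf).1]
    induction e using Sym2.ind with
    | _ a b =>
      induction f using Sym2.ind with
      | _ x y =>
        rw [mk_mem_KK] at he hf
        exact h1 a he.1 b he.2.1 x hf.1 y hf.2.1 he.2.2 hf.2.2
  · right; left
    refine ⟨x, fun e he heF h2 => ((ind_insert heF).1 (h.ind _ h2)).2 ?_⟩
    rw [← mkQ_eq_zero, ← h.gp.cc_zero (A := N) (mem_KK.1 he).1]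
    induction e using Sym2.ind with
    | _ a b =>
      simp only [mk_mem_KK, Finset.mem_erase] at he
      exact h1 a he.1.2 b he.2.1.2 he.2.2 he.1.1 he.2.1.1
  · right; right
    refine ⟨{a, b, x, y}, ?_, card_quad hab hax hay hbx hby hxy, ?_⟩
    · intro t; simp; rintro (rfl | rfl | rfl | rfl) <;> assumption
    · intro r hr s hs t ht hrs hrt hst
      have h3 := h1.not_par ha hb hx hy hab hax hay hbx hby hxy h2 r hr s hs t ht hrs hrt hst
      rw [h.gp.par_cc (by simpa using hrs) (by simpa using hrt)] at h3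
      obtain ⟨h4, h5, -, h6⟩ := (h.ind _ hI).insert2 h3
      exact ⟨h4, h5, q, h6⟩

theorem Con.rel (hC : Con k F N T) (h : Reg k q) (hv : v ∉ N) (hF : ∀ e ∈ F, v ∉ e)
    (hN : N.card = k + 3) (hI : GInd k F) (hD : ¬ GInd k (F ∪ star v N)) :
    Rel N T fun e => (sp (cofRow k q) F).mkQ (cc k q N e) := by
  obtain ⟨r, hr⟩ : T.Nonempty := Finset.card_pos.1 (by rw [hC.card]; omega)
  obtain ⟨s, t, u, hrs, hrt, hru, hst, hsu, htu, hT⟩ := card_four hC.card hr
  have hs : s ∈ T := by simp [hT]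
  have ht : t ∈ T := by simp [hT]
  have hu : u ∈ T := by simp [hT]
  have n1 := hC.not_par h hr hs ht hrs hrt hst
  have n2 := hC.not_par h ht hu hr htu hrt.symm hru.symm
  rw [← h.gp.par_cc (A := N) (B := N) (by simpa using hrs) (by simpa using hrt)] at n1
  rw [← h.gp.par_cc (A := N) (B := N) (by simpa using htu) (by simpa using hrt.symm)] at n2
  have z1 := Par.ne_zero_left n1
  have z2 := Par.ne_zero_left n2
  rcases (h.loc hv hF hN hI hD).classify with h1 | ⟨x, h1⟩ |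
    ⟨a, ha, b, hb, x, hx, y, hy, hab, hax, hay, hbx, hby, hxy, h1, h2⟩
  · exact absurd (h1 r (hC.sub hr) s (hC.sub hs) r (hC.sub hr) t (hC.sub ht) hrs hrt) n1
  · exfalso
    by_cases hx : r = x ∨ s = x
    · refine z2 (h1 t (hC.sub ht) u (hC.sub hu) htu ?_ ?_) <;>
        rcases hx with rfl | rfl <;> (apply Ne.symm; assumption)
    · push Not at hx
      exact z1 (h1 r (hC.sub hr) s (hC.sub hs) hrs hx.1 hx.2)
  · have m1 : r ∈ ({a, b, x, y} : Finset V) ∧ s ∈ ({a, b, x, y} : Finset V) := by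
      by_contra hc
      exact z1 (h1.out r (hC.sub hr) s (hC.sub hs) hrs hc)
    have m2 : t ∈ ({a, b, x, y} : Finset V) ∧ u ∈ ({a, b, x, y} : Finset V) := by
      by_contra hc
      exact z2 (h1.out t (hC.sub ht) u (hC.sub hu) htu hc)
    have : T = {a, b, x, y} := by
      refine Finset.eq_of_subset_of_card_le ?_ (by rw [card_quad hab hax hay hbx hby hxy, hC.card])
      rw [hT]
      intro z hz
      simp only [Finset.mem_insert, Finset.mem_singleton] at hz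
      rcases hz with rfl | rfl | rfl | rfl
      exacts [m1.1, m1.2, m2.1, m2.2]
    rw [this]
    exact h1

end Pool.Agent.Lib.MP_9087e4_co
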