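import Mathlib
import Pool.Agent.Lib.MP_9087e4_co.Conic

set_option autoImplicit false

namespace Pool.Agent.Lib.MP_9087e4_co

open Filter Topology

variable {V : Type*} [LinearOrder V] {q : V → Fin 2 → ℝ} {k : ℕ}
variable {F : Finset (Sym2 V)} {N M T : Finset V} {u v w : V}

theorem cc_move {q' : V → Fin 2 → ℝ} (hu : u ∈ N) (h : ∀ a, a ≠ u → q a = q' a) {t : ℝ}
    {Z : Fin 3 → ℝ} (hZ : QQ q' u = t • Z) {e : Sym2 V} (he : u ∉ e) :
    cc k q' N e = t⁻¹ • (ll q e Z)⁻¹ • cc k q (N.erase u) e := by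
  have h1 : ∀ a ∈ e, q a = q' a := fun a ha => h a fun h' => he (h' ▸ ha)
  conv_lhs => rw [← Finset.insert_erase hu]
  rw [cc, wt_insert (Finset.notMem_erase u N) he, hZ, ← ll_congr h1, map_smul, smul_eq_mul,
    mul_inv, cc, ← cofRow_congr h1,
    ← wt_congr h1 fun a ha => h a (Finset.ne_of_mem_erase ha), mul_smul, mul_smul]

theorem blk_cc {A : Finset V} {e : Sym2 V} (he : u ∉ e) : Blk u (cc k q A e) := fun s => by
  simp [cc, cofRow_notMem he]

theorem notMem_union_star' (hF : ∀ e ∈ F, v ∉ e) (hvu : v ≠ u) (hv : v ∉ M) :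
    ∀ e ∈ F ∪ star u M, v ∉ e := by
  intro e he
  rcases Finset.mem_union.1 he with he | he
  · exact hF e he
  · obtain ⟨a, ha, rfl⟩ := mem_star.1 he
    simp only [Sym2.mem_iff, not_or]
    exact ⟨hvu, fun h => hv (h ▸ ha)⟩

variable [Fintype V]

/-- a vertex of the four-set cannot have degree `k + 2` -/
theorem excl_low (h : Reg k q) (hv : v ∉ N) (hN : N.card = k + 3) (hFu : ∀ e ∈ F, u ∉ e)
    (hFv : ∀ e ∈ F ∪ star u M, v ∉ e) (hu : u ∉ M) (hM : M.card = k + 2)
    (hI : GInd k (F ∪ star u M)) (hD : ¬ GInd k (F ∪ star u M ∪ star v N))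
    (hC : Con k (F ∪ star u M) N T) (huT : u ∈ T) : False := by
  obtain ⟨b, x, y, hub, hux, huy, hbx, hby, hxy, hT⟩ := card_four hC.card huT
  have hb : b ∈ T := by simp [hT]
  have hx : x ∈ T := by simp [hT]
  have hy : y ∈ T := by simp [hT]
  have hM' : ∀ a ∈ T, u ≠ a → a ∉ M := by
    intro a ha hua haM
    obtain ⟨c, hc⟩ : ((T.erase u).erase a).Nonempty := by
      rw [← Finset.card_pos, Finset.card_erase_of_mem (by simp [ha, hua.symm]),
        Finset.card_erase_of_mem huT, hC.card]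
      omega
    simp only [Finset.mem_erase] at hc
    exact (hC.ind u huT a ha c hc.2.2 hua hc.2.1.symm hc.1.symm).1
      (Finset.mem_union_right _ (mem_star.2 ⟨a, haM, rfl⟩))
  let J : Finset (Sym2 V) := {s(b, x), s(b, y), s(x, y)}
  let R := sp (cofRow k q) F
  have hJ : ∀ f ∈ J, ¬ f.IsDiag ∧ ∀ a ∈ f, a ∈ T ∧ u ≠ a := by
    intro f hf
    simp only [J, Finset.mem_insert, Finset.mem_singleton] at hf
    rcases hf with rfl | rfl | rfl <;> simp [*]
  have hev : ∀ᶠ Z in 𝓝 (QQ q u), Par (Fr (ll q) (KK M) (fun e => R.mkQ (cc k q M e)) Z)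
      (Fr (ll q) J (fun e => R.mkQ (cc k q (N.erase u) e)) Z) := by
    filter_upwards [h.move u] with Z ⟨q', t, ht, hq', hZ, hqq⟩
    have h1 := hC.rel hq' hv hFv hN hI hD
    rw [hT] at h1
    obtain ⟨h2, h3, h4, h5⟩ := h1.lab (hC.sub huT) (hC.sub hb) (hC.sub hx) (hC.sub hy)
      hub hux huy hbx hby hxy
    have h6 : cc k q' N s(b, x) + cc k q' N s(b, y) + cc k q' N s(x, y) ∈
        sp (cofRow k q') (F ∪ star u M) := by
      rw [← mkQ_eq_zero, map_add, map_add]
      linear_combination (norm := module) h2 + h3 + h4 + h5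
    have h7 := hq'.gp.mem_one hu hFu hM h6
      (((blk_cc (by simp [*])).add (blk_cc (by simp [*]))).add (blk_cc (by simp [*])))
    rw [sp_move hFu hqq, psi_move hu hqq hZ, cc_move (hC.sub huT) hqq hZ (by simp [*]),
      cc_move (hC.sub huT) hqq hZ (by simp [*]), cc_move (hC.sub huT) hqq hZ (by simp [*]),
      ← smul_add, ← smul_add, map_smul, map_smul] at h7
    have h8 := ((Par.of_mem_span (Submodule.mem_span_singleton_self _) h7).of_smul_left
      (inv_ne_zero ht)).of_smul_right (inv_ne_zero ht)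
    rw [psi, map_Fr] at h8
    convert h8 using 1
    rw [← map_Fr, Fr, Finset.sum_insert (by simp [*]), Finset.sum_insert (by simp [*]),
      Finset.sum_singleton, add_assoc]
  have hJ0 : ∀ f ∈ J, ll q f (QQ q u) ≠ 0 := fun f hf => by
    rw [Ne, h.gp.genPos.pt f (hJ f hf).1]
    exact fun h' => ((hJ f hf).2 u h').2 rfl
  have key : ∀ e ∈ KK M, ∀ f ∈ J, Par (R.mkQ (cofRow k q e)) (R.mkQ (cofRow k q f)) := by
    intro e he f hf
    have hd : ∀ g ∈ KK M, ∀ f ∈ J, ∀ a ∈ g, a ∉ f := fun g hg f hf a ha ha' =>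
      hM' a ((hJ f hf).2 a ha').1 ((hJ f hf).2 a ha').2 ((mem_KK.1 hg).2 a ha)
    obtain ⟨Z, h1, h2, h3⟩ := h.gp.genPos.meet e f (mem_KK.1 he).1 (hJ f hf).1 (hd e he f hf)
    rw [← h.gp.par_cc (A := M) (B := N.erase u) (mem_KK.1 he).1 (hJ f hf).1]
    refine res_two (h.gp.ll_ne hu) hJ0 hev he hf h1 h2 (fun g hg => ?_) fun g hg => ?_
    · rw [Finset.mem_erase] at hg
      refine h3 g (mem_KK.1 hg.2).1 hg.1 ?_
      rintro rfl
      exact hd g hg.2 g hf _ (inf_mem g) (inf_mem g)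
    · rw [Finset.mem_erase] at hg
      refine h3 g (hJ g hg.2).1 ?_ hg.1
      rintro rfl
      exact hd g he g hg.2 _ (inf_mem g) (inf_mem g)
  have hn : ¬ Par (R.mkQ (cofRow k q s(b, x))) (R.mkQ (cofRow k q s(b, y))) := fun h' =>
    hC.not_par h hb hx hy hbx hby hxy (h'.mono (sp_mono Finset.subset_union_left))
  refine (h.gp.ext_one hu hFu hM (h.ind _ (hI.mono Finset.subset_union_left))).1 (h.ind _ hI) ?_
  refine sp_le (fun e he => ?_) (psi_mem_KK M _)
  exact mkQ_eq_zero.1 (Par.eq_zero hn (key e he _ (by simp [J])).symm (key e he _ (by simp [J])))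

omit [LinearOrder V] [Fintype V] in
theorem six_zero {a b x y : Fin 2 → ℝ} (hA : tri x a b ≠ 0) (hB : tri y a b ≠ 0)
    (hC : tri y a x ≠ 0) (hD : tri y b x ≠ 0) {c1 c2 c3 c4 c5 c6 : ℝ}
    (h1 : ∀ Z, c1 * lin a b Z + c2 * lin x y Z - c5 * lin a y Z - c6 * lin b x Z = 0)
    (h2 : ∀ Z, c3 * lin a x Z + c4 * lin b y Z - c5 * lin a y Z - c6 * lin b x Z = 0) :
    c1 = 0 ∧ c2 = 0 ∧ c3 = 0 ∧ c4 = 0 ∧ c5 = 0 ∧ c6 = 0 := by
  have e1 := h1 (hom a)
  have e2 := h2 (hom a)
  have e3 := h1 (hom b)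
  have e4 := h2 (hom b)
  have e5 := h1 (hom x)
  have e7 := h1 (hom y)
  have e8 := h2 (hom y)
  simp only [lin_hom] at e1 e2 e3 e4 e5 e7 e8
  set A := tri x a b with hA'
  set B := tri y a b with hB'
  set C := tri y a x with hC'
  set D := tri y b x with hD'
  have f1 : c2 * C - c6 * A = 0 := by
    rw [← e1]; simp only [A, C, tri, coef, Matrix.cons_val]; ring
  have f2 : c4 * B - c6 * A = 0 := by
    rw [← e2]; simp only [A, B, tri, coef, Matrix.cons_val]; ring
  have f3 : c2 * D + c5 * B = 0 := by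
    rw [← e3]; simp only [B, D, tri, coef, Matrix.cons_val]; ring
  have f4 : - c3 * A + c5 * B = 0 := by
    rw [← e4]; simp only [A, B, tri, coef, Matrix.cons_val]; ring
  have f7 : c1 * B - c6 * D = 0 := by
    rw [← e7]; simp only [B, D, tri, coef, Matrix.cons_val]; ring
  have f8 : c3 * C - c6 * D = 0 := by
    rw [← e8]; simp only [C, D, tri, coef, Matrix.cons_val]; ring
  have g6 : c6 = 0 := by
    have : 2 * A * D * c6 = 0 := by
      linear_combination (- D) * f1 + C * f3 - C * f4 - A * f8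
    simpa [hA, hD] using this
  subst g6
  have g2 : c2 = 0 := by simpa [hC] using f1
  have g4 : c4 = 0 := by simpa [hB] using f2
  have g1 : c1 = 0 := by simpa [hB] using f7
  have g3 : c3 = 0 := by simpa [hC] using f8
  subst g2
  exact ⟨g1, rfl, g3, g4, by simpa [hB] using f3, rfl⟩

/-- a vertex of `N` outside the four-set cannot have degree at most `k + 3` -/
theorem excl_mid (h : Reg k q) (hv : v ∉ N) (hN : N.card = k + 3) (hFu : ∀ e ∈ F, u ∉ e)
    (hFv : ∀ e ∈ F ∪ star u M, v ∉ e) (hu : u ∉ M) (hM : M.card ≤ k + 3)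
    (hI : GInd k (F ∪ star u M)) (hD : ¬ GInd k (F ∪ star u M ∪ star v N))
    (hC : Con k (F ∪ star u M) N T) (huN : u ∈ N) (huT : u ∉ T) : False := by
  obtain ⟨a, ha⟩ : T.Nonempty := Finset.card_pos.1 (by rw [hC.card]; omega)
  obtain ⟨b, x, y, hab, hax, hay, hbx, hby, hxy, hT⟩ := card_four hC.card ha
  have hb : b ∈ T := by simp [hT]
  have hx : x ∈ T := by simp [hT]
  have hy : y ∈ T := by simp [hT]
  have hua : u ≠ a := fun h' => huT (h' ▸ ha)
  have hub : u ≠ b := fun h' => huT (h' ▸ hb)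
  have hux : u ≠ x := fun h' => huT (h' ▸ hx)
  have huy : u ≠ y := fun h' => huT (h' ▸ hy)
  obtain ⟨M', hMM, hM'u, hM'⟩ := Finset.exists_subsuperset_card_eq (s := M)
    (t := Finset.univ.erase u) (n := k + 3)
    (fun z hz => Finset.mem_erase.2 ⟨fun h' => hu (h' ▸ hz), Finset.mem_univ _⟩) hM (by
      have := Finset.card_le_univ (insert v N)
      rw [Finset.card_insert_of_notMem hv] at this
      rw [Finset.card_erase_of_mem (Finset.mem_univ _), Finset.card_univ]
      omega)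
  have hu' : u ∉ M' := fun h' => by simpa using hM'u h'
  obtain ⟨x₁, hx₁, y₁, hy₁, hxy₁⟩ := Finset.one_lt_card.1 (show 1 < M'.card by omega)
  let R := sp (cofRow k q) F
  let c := cc k q (N.erase u)
  let g : Fin 6 → _ := fun i => R.mkQ
    (c (![s(a, b), s(x, y), s(a, x), s(b, y), s(a, y), s(b, x)] i))
  let g' : Fin 4 → _ := ![R.mkQ (cc k q N s(a, b)), R.mkQ (cc k q N s(a, x)),
    R.mkQ (psi k q (M'.erase x₁) (QQ q u)), R.mkQ (psi k q (M'.erase y₁) (QQ q u))]
  have hrel := hC.rel h hv hFv hN hI hD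
  rw [hT] at hrel
  have hg : ∀ e ∈ KK N, u ∉ e → R.mkQ (c e) ∈ Submodule.span ℝ (Set.range g') := by
    intro e he hue
    obtain ⟨s, t, hst⟩ := Submodule.mem_span_pair.1 (hrel.mem_span (hC.sub ha) (hC.sub hb)
      (hC.sub hx) (hC.sub hy) hab hax hay hbx hby hxy e he)
    have h1 : cc k q N e - s • cc k q N s(a, b) - t • cc k q N s(a, x) ∈
        sp (cofRow k q) (F ∪ star u M') := by
      apply sp_mono (Finset.union_subset_union_right (star_mono hMM))
      rw [← mkQ_eq_zero, map_sub, map_sub, map_smul, map_smul]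
      linear_combination (norm := module) - hst
    obtain ⟨s', t', h2⟩ := Submodule.mem_span_pair.1 (h.gp.mem_two hu' hFu hM' hx₁ hy₁ hxy₁ h1
      (((blk_cc hue).sub ((blk_cc (by simp [*])).smul _)).sub ((blk_cc (by simp [*])).smul _)))
    have h3 : R.mkQ (cc k q N e) ∈ Submodule.span ℝ (Set.range g') := by
      rw [Submodule.mem_span_range_iff_exists_fun]
      refine ⟨![s, t, s', t'], ?_⟩
      rw [map_sub, map_sub, map_smul, map_smul] at h2
      simp only [Fin.sum_univ_four, g', Matrix.cons_val]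
      linear_combination (norm := module) h2
    have h4 : ll q e (QQ q u) ≠ 0 := by
      rw [Ne, h.gp.genPos.pt e (mem_KK.1 he).1]; exact hue
    rwa [cc_move (q := q) (t := 1) (Z := QQ q u) huN (fun _ _ => rfl) (by simp) hue, inv_one,
      one_smul, map_smul, Submodule.smul_mem_iff _ (inv_ne_zero h4)] at h3
  have hdep : ¬ LinearIndependent ℝ g := by
    intro hi
    classical
    have h1 := linearIndependent_le_span_aux' g hi (Set.range g') (by
      rintro _ ⟨i, rfl⟩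
      have := hC.sub ha; have := hC.sub hb; have := hC.sub hx; have := hC.sub hy
      fin_cases i <;> exact hg _ (mk_mem_KK.2 (by simp [*])) (by simp [*]))
    have h2 := Fintype.card_range_le g'
    simp only [Fintype.card_fin] at h1 h2
    omega
  rw [Fintype.not_linearIndependent_iff] at hdep
  obtain ⟨α, hα, i₀, hi₀⟩ := hdep
  have hα' : α 0 • c s(a, b) + α 1 • c s(x, y) + α 2 • c s(a, x) + α 3 • c s(b, y) +
      α 4 • c s(a, y) + α 5 • c s(b, x) ∈ R := by
    rw [← mkQ_eq_zero]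
    simpa only [Fin.sum_univ_six, g, Matrix.cons_val, map_add, map_smul] using hα
  have hev : ∀ᶠ Z in 𝓝 (QQ q u),
      α 0 * ll q s(a, b) Z + α 1 * ll q s(x, y) Z - α 4 * ll q s(a, y) Z -
        α 5 * ll q s(b, x) Z = 0 ∧
      α 2 * ll q s(a, x) Z + α 3 * ll q s(b, y) Z - α 4 * ll q s(a, y) Z -
        α 5 * ll q s(b, x) Z = 0 := by
    have h0 : ∀ e ∈ KK (N.erase u), ll q e (QQ q u) ≠ 0 := h.gp.ll_ne (Finset.notMem_erase u N)
    filter_upwards [h.move u, eventually_ne h0] with Z ⟨q', t, ht, hq', hZ, hqq⟩ hZ0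
    have h1 := hC.rel hq' hv hFv hN hI hD
    rw [hT] at h1
    obtain ⟨h2, h3, h4, h5⟩ := h1.lab (hC.sub ha) (hC.sub hb) (hC.sub hx) (hC.sub hy)
      hab hax hay hbx hby hxy
    have hn := hC.not_par hq' ha hb hx hab hax hbx
    rw [← hq'.gp.par_cc (A := N) (B := N) (by simpa using hab) (by simpa using hax)] at hn
    have h6 : ∀ i ∈ T, ∀ j ∈ T, i ≠ j → c s(i, j) = (t * ll q s(i, j) Z) • cc k q' N s(i, j) := by
      intro i hi j hj hij
      have hui : u ≠ i := fun h' => huT (h' ▸ hi)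
      have huj : u ≠ j := fun h' => huT (h' ▸ hj)
      have := hZ0 s(i, j) (mk_mem_KK.2 (by simp [hC.sub hi, hC.sub hj, hij, hui.symm, huj.symm]))
      rw [cc_move huN hqq hZ (by simp [*]), smul_smul, smul_smul,
        show t * ll q s(i, j) Z * t⁻¹ * (ll q s(i, j) Z)⁻¹ = 1 by field_simp, one_smul]
    have h7 := sp_mono (Finset.subset_union_left (s₂ := star u M)) ((sp_move hFu hqq).ge hα')
    rw [← mkQ_eq_zero, h6 a ha b hb hab, h6 x hx y hy hxy, h6 a ha x hx hax, h6 b hb y hy hby,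
      h6 a ha y hy hay, h6 b hb x hx hbx] at h7
    simp only [map_add, map_smul] at h7
    have h8 := Par.comb_eq_zero hn
      (a := t * (α 0 * ll q s(a, b) Z + α 1 * ll q s(x, y) Z - α 4 * ll q s(a, y) Z -
        α 5 * ll q s(b, x) Z))
      (b := t * (α 2 * ll q s(a, x) Z + α 3 * ll q s(b, y) Z - α 4 * ll q s(a, y) Z -
        α 5 * ll q s(b, x) Z)) (by
        rw [h3, h4, h5] at h7
        linear_combination (norm := module) h7 -
          (t * (α 4 * ll q s(a, y) Z + α 5 * ll q s(b, x) Z)) • h2)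
    exact ⟨(mul_eq_zero.1 h8.1).resolve_left ht, (mul_eq_zero.1 h8.2).resolve_left ht⟩
  have han : ∀ (e₁ e₂ e₃ e₄ : Sym2 V) (c₁ c₂ c₃ c₄ : ℝ) (Z : Fin 3 → ℝ), AnalyticAt ℝ
      (fun Z => c₁ * ll q e₁ Z + c₂ * ll q e₂ Z - c₃ * ll q e₃ Z - c₄ * ll q e₄ Z) Z := by
    intro e₁ e₂ e₃ e₄ c₁ c₂ c₃ c₄ Z
    exact (((analyticAt_const.mul ((ll q e₁).analyticAt Z)).add
      (analyticAt_const.mul ((ll q e₂).analyticAt Z))).sub
      (analyticAt_const.mul ((ll q e₃).analyticAt Z))).sub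
      (analyticAt_const.mul ((ll q e₄).analyticAt Z))
  have k1 := eq_zero_of_eventually (han _ _ _ _ _ _ _ _) (hev.mono fun Z hZ => hZ.1)
  have k2 := eq_zero_of_eventually (han _ _ _ _ _ _ _ _) (hev.mono fun Z hZ => hZ.2)
  simp only [ll_mk, ContinuousLinearMap.smul_apply, smul_eq_mul, ← mul_assoc] at k1 k2
  obtain ⟨z0, z1, z2, z3, z4, z5⟩ := six_zero (h.gp.tri x a b hab hax.symm hbx.symm)
    (h.gp.tri y a b hab hay.symm hby.symm) (h.gp.tri y a x hax hay.symm hxy.symm)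
    (h.gp.tri y b x hbx hby.symm hxy.symm) k1 k2
  simp only [mul_eq_zero, sg_ne, or_false] at z0 z1 z2 z3 z4 z5
  apply hi₀
  fin_cases i₀ <;> assumption

end Pool.Agent.Lib.MP_9087e4_co
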