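import Mathlib
import Pool.Agent.Lib.MP_9087e4_co.Excl

set_option autoImplicit false

namespace Pool.Agent.Lib.MP_9087e4_co

open Filter Topology

theorem mem_of_mkQ_pair {X : Type*} [AddCommGroup X] [Module ℝ X] {R S : Submodule ℝ X}
    (hRS : R ≤ S) {a b z : X} (ha : a ∈ S) (hb : b ∈ S)
    (h : R.mkQ z ∈ Submodule.span ℝ {R.mkQ a, R.mkQ b}) : z ∈ S := by
  obtain ⟨s, t, hst⟩ := Submodule.mem_span_pair.1 h
  have : z - (s • a + t • b) ∈ R := by
    rw [← mkQ_eq_zero, map_sub, map_add, map_smul, map_smul, hst, sub_self]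
  simpa using S.add_mem (hRS this) (S.add_mem (S.smul_mem s ha) (S.smul_mem t hb))

theorem map_mem_of_KK {V : Type*} [LinearOrder V] {q : V → Fin 2 → ℝ} {k : ℕ} (h : GP q)
    {X : Type*} [AddCommGroup X] [Module ℝ X] (f : (V × Fin (k + 1) → ℝ) →ₗ[ℝ] X)
    {N : Finset V} {S : Submodule ℝ X} (hS : ∀ e ∈ KK N, f (cc k q N e) ∈ S)
    {z : V × Fin (k + 1) → ℝ} (hz : z ∈ sp (cofRow k q) (KK N)) : f z ∈ S := by
  refine (sp_le (S := S.comap f) fun e he => ?_) hz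
  have := hS e he
  rwa [cc, map_smul, Submodule.smul_mem_iff _ (h.wt_ne N (mem_KK.1 he).1)] at this

variable {V : Type*} [LinearOrder V] {q : V → Fin 2 → ℝ} {k : ℕ}
variable {F : Finset (Sym2 V)} {N M T T' : Finset V} {u v w : V} [Fintype V]

/-- two vertices of conic type cannot have almost the same neighbourhood -/
theorem excl_two (h : Reg k q) (hvw : v ≠ w) (hvN : v ∉ N) (hwN : w ∉ N) (hvM : v ∉ M)
    (hwM : w ∉ M) (hN : N.card = k + 3) (hM : M.card = k + 3) (hFv : ∀ e ∈ F, v ∉ e)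
    (hFw : ∀ e ∈ F, w ∉ e) (hI : GInd k (F ∪ star w M)) (hI' : GInd k (F ∪ star v N))
    (hD : ¬ GInd k (F ∪ star w M ∪ star v N)) (hC : Con k (F ∪ star w M) N T)
    (hC' : Con k (F ∪ star v N) M T') (hT : 3 ≤ (T ∩ M).card) (hT' : 2 ≤ (T' ∩ N).card) :
    False := by
  have hIF : Ind (cofRow k q) F := h.ind _ (hI.mono Finset.subset_union_left)
  have hFv' := notMem_union_star' hFv hvw hvM
  let R := sp (cofRow k q) F
  by_cases hR : Rel N T fun e => R.mkQ (cc k q N e)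
  · obtain ⟨a, ha⟩ : T.Nonempty := Finset.card_pos.1 (by rw [hC.card]; omega)
    obtain ⟨b, x, y, hab, hax, hay, hbx, hby, hxy, hTe⟩ := card_four hC.card ha
    have hb : b ∈ N := hC.sub (by simp [hTe])
    have hx : x ∈ N := hC.sub (by simp [hTe])
    have hy : y ∈ N := hC.sub (by simp [hTe])
    have ha := hC.sub ha
    rw [hTe] at hR
    have h1 := hR.mem_span ha hb hx hy hab hax hay hbx hby hxy
    have h2 := (h.gp.ext_two hvN hFv hN hIF ha hb hab).1 (h.ind _ hI')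
    have h3 := Par.span_le h2
      (map_mem_of_KK h.gp R.mkQ h1 (sp_mono (KK_mono (Finset.erase_subset _ _)) (psi_mem_KK _ _)))
      (map_mem_of_KK h.gp R.mkQ h1 (sp_mono (KK_mono (Finset.erase_subset _ _)) (psi_mem_KK _ _)))
    obtain ⟨a', ha', b', hb', hab'⟩ := Finset.one_lt_card.1 (show 1 < (T' ∩ N).card by omega)
    rw [Finset.mem_inter] at ha' hb'
    obtain ⟨c', hc'⟩ : ((T'.erase a').erase b').Nonempty := by
      rw [← Finset.card_pos, Finset.card_erase_of_mem (by simp [hb'.1, hab'.symm]),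
        Finset.card_erase_of_mem ha'.1, hC'.card]
      omega
    simp only [Finset.mem_erase] at hc'
    refine Par.ne_zero_left (hC'.not_par h ha'.1 hb'.1 hc'.2.2 hab' hc'.2.1.symm hc'.1.symm) ?_
    have hm : ∀ z ∈ N, psi k q (N.erase z) (QQ q v) ∈ sp (cofRow k q) (F ∪ star v N) :=
      fun z hz => sp_mono (Finset.subset_union_right.trans' (star_mono (Finset.erase_subset _ _)))
        (h.gp.psi_mem_star (by simp [hvN]) (by rw [Finset.card_erase_of_mem hz]; omega))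
    rw [← h.gp.cc_zero (A := N) (by simpa using hab'), mkQ_eq_zero]
    exact mem_of_mkQ_pair (sp_mono Finset.subset_union_left) (hm a ha) (hm b hb)
      (h3 (h1 _ (mk_mem_KK.2 ⟨ha'.2, hb'.2, hab'⟩)))
  obtain ⟨ψ, hψ0, hψb, hψ⟩ : ∃ ψ : V × Fin (k + 1) → ℝ, R.mkQ ψ ≠ 0 ∧ Blk w ψ ∧
      ∀ q' : V → Fin 2 → ℝ, Reg k q' → (∀ a, a ≠ w → q a = q' a) →
        ψ ∈ sp (cofRow k q') (F ∪ star w M) := by
    have hcc : ∀ q' : V → Fin 2 → ℝ, (∀ a, a ≠ w → q a = q' a) → ∀ e ∈ KK N,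
        cc k q N e = cc k q' N e := fun q' hq e he =>
      cc_congr he fun a ha => hq a fun h' => hwN (h' ▸ ha)
    by_cases h1 : ∀ x ∈ N, ∀ y ∈ N, x ≠ y → ¬ (x ∈ T ∧ y ∈ T) → R.mkQ (cc k q N s(x, y)) = 0
    · have h2 : ¬ ∀ x ∈ N, ∑ b ∈ N.erase x, R.mkQ (cc k q N s(x, b)) = 0 := fun h2 => hR ⟨h1, h2⟩
      push Not at h2
      obtain ⟨x, hx, h2⟩ := h2
      have hm : ∀ b ∈ N.erase x, s(x, b) ∈ KK N := fun b hb =>
        mk_mem_KK.2 ⟨hx, Finset.mem_of_mem_erase hb, (Finset.ne_of_mem_erase hb).symm⟩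
      refine ⟨∑ b ∈ N.erase x, cc k q N s(x, b), by rwa [map_sum], ?_, fun q' hq' hqq => ?_⟩
      · exact Blk.of_mem_sp (q := q) (notMem_of_mem_KK hwN)
          (Submodule.sum_mem _ fun b hb => cc_mem_sp (hm b hb))
      · rw [← mkQ_eq_zero, map_sum, ← (hC.rel hq' hvN hFv' hN hI hD).vert x hx]
        exact Finset.sum_congr rfl fun b hb => by rw [hcc q' hqq _ (hm b hb)]
    · push Not at h1
      obtain ⟨x, hx, y, hy, hxy, h1, h2⟩ := h1
      have hm : s(x, y) ∈ KK N := mk_mem_KK.2 ⟨hx, hy, hxy⟩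
      refine ⟨cc k q N s(x, y), h2, blk_cc (notMem_of_mem_KK hwN _ hm), fun q' hq' hqq => ?_⟩
      rw [← mkQ_eq_zero, hcc q' hqq _ hm]
      exact (hC.rel hq' hvN hFv' hN hI hD).out x hx y hy hxy fun h' => h1 h'.1 h'.2
  let R₁ := R ⊔ Submodule.span ℝ {ψ}
  have hψ1 : ψ ∈ R₁ := Submodule.mem_sup_right (Submodule.mem_span_singleton_self _)
  have hL : Loc M fun e => R₁.mkQ (cc k q M e) := by
    refine h.gp.loc hwM hM _ fun x hx y hy hxy => ?_
    filter_upwards [h.move w] with Z ⟨q', t, ht, hq', hZ, hqq⟩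
    have h1 := hq'.gp.mem_two hwM hFw hM hx hy hxy (hψ q' hq' hqq) hψb
    rw [sp_move hFw hqq, psi_move (by simp [hwM]) hqq hZ, psi_move (by simp [hwM]) hqq hZ] at h1
    obtain ⟨α, β, h2⟩ := Submodule.mem_span_pair.1 h1
    refine Par.of_comb (a := α * t⁻¹) (b := β * t⁻¹) ?_ ?_
    · by_contra hc
      push Not at hc
      simp only [mul_eq_zero, inv_eq_zero, ht, or_false] at hc
      apply hψ0
      rw [← h2, hc.1, hc.2, zero_smul, zero_smul, add_zero]
    · have h3 := congrArg (Submodule.factor (le_sup_left : R ≤ R₁)) h2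
      simp only [map_add, map_smul, smul_smul] at h3
      exact h3.trans (mkQ_eq_zero.2 hψ1)
  have hR₁ : R₁ ≤ sp (cofRow k q) (F ∪ star w M) :=
    sup_le (sp_mono Finset.subset_union_left)
      ((Submodule.span_singleton_le_iff_mem _ _).2 (hψ q h fun _ _ => rfl))
  obtain ⟨T₀, hT₀, hT₀c⟩ := Finset.exists_subset_card_eq hT
  obtain ⟨a, b, c, hab, hac, hbc, rfl⟩ := Finset.card_eq_three.1 hT₀c
  have ha := Finset.mem_inter.1 (hT₀ (show a ∈ _ by simp))
  have hb := Finset.mem_inter.1 (hT₀ (show b ∈ _ by simp))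
  have hc := Finset.mem_inter.1 (hT₀ (show c ∈ _ by simp))
  have n1 := hC.not_par h ha.1 hb.1 hc.1 hab hac hbc
  have n2 := hC.not_par h hb.1 hc.1 ha.1 hbc hab.symm hac.symm
  rw [← h.gp.par_cc (A := M) (B := M) (by simpa using hab) (by simpa using hac)] at n1
  rw [← h.gp.par_cc (A := M) (B := M) (by simpa using hbc) (by simpa using hab.symm)] at n2
  have n1' : ¬ Par (R₁.mkQ (cc k q M s(a, b))) (R₁.mkQ (cc k q M s(a, c))) :=
    fun h' => n1 (h'.mono hR₁)
  have n2' : ¬ Par (R₁.mkQ (cc k q M s(b, c))) (R₁.mkQ (cc k q M s(b, a))) :=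
    fun h' => n2 (h'.mono hR₁)
  rcases hL.classify with h1 | ⟨x, h1⟩ |
    ⟨a', ha', b', hb', x', hx', y', hy', hab', hax', hay', hbx', hby', hxy', h1, -⟩
  · exact n1' (h1 a ha.2 b hb.2 a ha.2 c hc.2 hab hac)
  · by_cases hax : a = x
    · exact Par.ne_zero_left n2' (h1 b hb.2 c hc.2 hbc (hax ▸ hab.symm) (hax ▸ hac.symm))
    by_cases hbx : b = x
    · exact Par.ne_zero_right n1' (h1 a ha.2 c hc.2 hac hax (hbx ▸ hbc.symm))
    · exact Par.ne_zero_left n1' (h1 a ha.2 b hb.2 hab hax hbx)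
  · have h2 := h1.mem_span ha' hb' hx' hy' hab' hax' hay' hbx' hby' hxy'
    have h3 := Par.span_le n1' (h2 _ (mk_mem_KK.2 ⟨ha.2, hb.2, hab⟩))
      (h2 _ (mk_mem_KK.2 ⟨ha.2, hc.2, hac⟩))
    have h4 : ∀ z ∈ M, R.mkQ (psi k q (M.erase z) (QQ q w)) ∈ Submodule.span ℝ {R.mkQ ψ} := by
      intro z hz
      have h5 := h3 (map_mem_of_KK h.gp R₁.mkQ h2
        (sp_mono (KK_mono (Finset.erase_subset z _)) (psi_mem_KK (M.erase z) (QQ q w))))
      obtain ⟨α, β, h6⟩ := Submodule.mem_span_pair.1 h5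
      have h7 : psi k q (M.erase z) (QQ q w) ∈ sp (cofRow k q) (F ∪ star w M) :=
        sp_mono (Finset.subset_union_right.trans' (star_mono (Finset.erase_subset _ _)))
          (h.gp.psi_mem_star (by simp [hwM]) (by rw [Finset.card_erase_of_mem hz]; omega))
      have h8 := congrArg (Submodule.factor hR₁) h6
      simp only [map_add, map_smul, Submodule.factor_mk] at h8
      rw [mkQ_eq_zero.2 h7] at h8
      obtain ⟨rfl, rfl⟩ := Par.comb_eq_zero n1 h8
      rw [zero_smul, zero_smul, add_zero, eq_comm, mkQ_eq_zero] at h6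
      obtain ⟨r, hr, s, hs, h9⟩ := Submodule.mem_sup.1 h6
      obtain ⟨t, rfl⟩ := Submodule.mem_span_singleton.1 hs
      rw [← h9, map_add, mkQ_eq_zero.2 hr, zero_add, map_smul]
      exact Submodule.mem_span_singleton.2 ⟨t, rfl⟩
    exact (h.gp.ext_two hwM hFw hM hIF ha.2 hb.2 hab).1 (h.ind _ hI)
      (Par.of_mem_span (h4 a ha.2) (h4 b hb.2))

end Pool.Agent.Lib.MP_9087e4_co
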