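import Mathlib
import Pool.Agent.Lib.MP_9087e4_co.Reg

set_option autoImplicit false

namespace Pool.Agent.Lib.MP_9087e4_co

variable {V : Type*} [LinearOrder V] {X : Type*} [AddCommGroup X] [Module ℝ X]

/-- every edge of a complete graph on `d + 2` vertices is spanned by the other edges -/
def KCirc (d : ℕ) (ρ : Sym2 V → X) : Prop :=
  ∀ A : Finset V, A.card = d + 2 → ∀ e ∈ KK A, ρ e ∈ sp ρ ((KK A).erase e)

section Rig

variable [Fintype V] {d : ℕ} {p : V → Fin d → ℝ}

/-- homogeneous coordinates -/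
def homd {R : Type*} [CommRing R] (p : V → Fin d → R) (a : V) : Fin (d + 1) → R :=
  Fin.cons 1 (p a)

theorem Generic.ind_homd (hp : Generic p) {B : Finset V} (hB : B.card ≤ d + 1) :
    Ind (homd p) B := by
  let t : V → ℝ := fun a => (Fintype.equivFin V a : ℕ)
  have ht : Function.Injective t := fun a b h =>
    (Fintype.equivFin V).injective (Fin.ext (Nat.cast_injective (R := ℝ) h))
  have key : ∀ (y : V → Fin d → ℝ) (a : V) (s : Fin (d + 1)),
      MvPolynomial.aeval (fun c : V × Fin d => y c.1 c.2) (homd (XX V d) a s) = homd y a s := by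
    intro y a s
    refine Fin.cases ?_ (fun i => ?_) s <;> simp [homd, XX]
  have := gen_ind hp (fun c => t c.1 ^ (c.2.1 + 1)) (homd (XX V d)) B (by
    simp only [key fun a i => t a ^ (i.1 + 1)]
    rw [ind_iff]
    intro ω hω
    refine Kills.eq_zero (z := fun a => ![1, t a]) (k := d) ?_ hB ?_ (by simp)
    · intro i j hij
      have := congrFun hω ⟨j, by omega⟩
      rw [Finset.sum_apply] at this
      rw [← show (0 : Fin (d + 1) → ℝ) ⟨j, by omega⟩ = 0 from rfl, ← this]
      refine Finset.sum_congr rfl fun a _ => ?_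
      cases j with
      | zero => simp [homd]
      | succ j =>
        have : (⟨j + 1, by omega⟩ : Fin (d + 1)) = Fin.succ ⟨j, by omega⟩ := rfl
        rw [this, Pi.smul_apply, homd, Fin.cons_succ]
        simp
    · intro a _ b _ hab
      simpa [det2, sub_eq_zero] using fun h => hab (ht h.symm))
  simpa only [key] using this

theorem Generic.kcirc (hp : Generic p) : KCirc d (rigRow p) := by
  intro A hA e he
  have hdep : ¬ Ind (homd p) A := by
    intro h
    have := LinearIndependent.fintype_card_le_finrank h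
    simp at this
    omega
  rw [ind_iff] at hdep
  push Not at hdep
  obtain ⟨μ, hμ, a₀, ha₀, h0⟩ := hdep
  have hne : ∀ a ∈ A, μ a ≠ 0 := by
    intro a ha h1
    have haa : a₀ ≠ a := fun h => h0 (h ▸ h1)
    refine h0 (ind_iff.1 (hp.ind_homd (B := A.erase a) ?_) μ ?_ a₀ (by simp [haa, ha₀]))
    · rw [Finset.card_erase_of_mem ha]; omega
    · rw [← hμ, ← Finset.add_sum_erase _ _ ha, h1, zero_smul, zero_add]
  have h1 : ∑ a ∈ A, μ a = 0 := by
    simpa [Finset.sum_apply, homd] using congrFun hμ 0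
  have h2 : ∀ s, ∑ a ∈ A, μ a * p a s = 0 := fun s => by
    simpa [Finset.sum_apply, homd] using congrFun hμ s.succ
  let ω : Sym2 V → ℝ := Sym2.lift ⟨fun i j => μ i * μ j, fun _ _ => mul_comm _ _⟩
  have hblk : ∀ (f : Sym2 V) (v : V) (s : Fin d), v ∉ f → rigRow p f (v, s) = 0 := by
    intro f v s hv
    induction f using Sym2.ind with
    | _ i j =>
      simp only [Sym2.mem_iff, not_or] at hv
      simp [rigRow, hv.1, hv.2]
  have hs : ∑ f ∈ KK A, ω f • rigRow p f = 0 := by
    funext ⟨v, s⟩
    rw [Finset.sum_apply]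
    by_cases hv : v ∈ A
    · rw [sum_KK_split hv, Finset.sum_eq_zero (s := KK (A.erase v)), add_zero]
      · have : ∑ a ∈ A, μ v * μ a * (p v s - p a s) = 0 := by
          have : ∑ a ∈ A, μ v * μ a * (p v s - p a s) =
              μ v * p v s * ∑ a ∈ A, μ a - μ v * ∑ a ∈ A, μ a * p a s := by
            rw [Finset.mul_sum, Finset.mul_sum, ← Finset.sum_sub_distrib]
            exact Finset.sum_congr rfl fun a _ => by ring
          rw [this, h1, h2]; ring
        rw [← Finset.add_sum_erase _ _ hv, sub_self, mul_zero, zero_add] at this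
        rw [Pi.zero_apply, ← this]
        refine Finset.sum_congr rfl fun a ha => ?_
        simp [ω, rigRow, (Finset.ne_of_mem_erase ha).symm]
      · intro f hf
        rw [KK_erase, Finset.mem_filter] at hf
        simp [hblk f v s hf.2]
    · refine Finset.sum_eq_zero fun f hf => ?_
      simp [hblk f v s fun h' => hv ((mem_KK.1 hf).2 v h')]
  have hω : ω e ≠ 0 := by
    induction e using Sym2.ind with
    | _ i j =>
      rw [mk_mem_KK] at he
      exact mul_ne_zero (hne i he.1) (hne j he.2.1)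
  rw [← Finset.add_sum_erase _ _ he] at hs
  rw [← Submodule.smul_mem_iff _ hω, eq_neg_of_add_eq_zero_left hs]
  exact Submodule.neg_mem _ (mem_sp_iff.2 ⟨ω, rfl⟩)

end Rig

variable {d : ℕ} {ρ : Sym2 V → X} {F : Finset (Sym2 V)} {N : Finset V} {v : V}

theorem KCirc.star_mem (h : KCirc d ρ) (hv : v ∉ N) (hN : N.card = d + 1) {a : V} (ha : a ∈ N) :
    ρ s(v, a) ∈ sp ρ (KK N ∪ star v (N.erase a)) := by
  have hva : v ≠ a := fun h' => hv (h' ▸ ha)
  refine sp_mono ?_ (h (insert v N) (by rw [Finset.card_insert_of_notMem hv, hN]) s(v, a)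
    (mk_mem_KK.2 (by simp [ha, hva])))
  intro e he
  rw [Finset.mem_erase] at he
  by_cases hve : v ∈ e
  · obtain ⟨b, rfl⟩ := Sym2.mem_iff_exists.1 hve
    have := mk_mem_KK.1 he.2
    refine Finset.mem_union_right _ (mem_star.2 ⟨b, Finset.mem_erase.2 ⟨?_, ?_⟩, rfl⟩)
    · rintro rfl; exact he.1 rfl
    · simpa [this.2.2.symm] using this.2.1
  · refine Finset.mem_union_left _ (mem_KK.2 ⟨(mem_KK.1 he.2).1, fun b hb => ?_⟩)
    have := (mem_KK.1 he.2).2 b hb
    rw [Finset.mem_insert] at this
    exact this.resolve_left fun h' => hve (h' ▸ hb)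

theorem star_eq_insert {a : V} (ha : a ∈ N) : star v N = insert s(v, a) (star v (N.erase a)) := by
  conv_lhs => rw [← Finset.insert_erase ha]
  simp [star]

theorem notMem_union_star (hF : ∀ e ∈ F, v ∉ e) {a : V} (ha : a ∉ N) :
    s(v, a) ∉ F ∪ star v N := by
  rw [Finset.mem_union, not_or, mem_star]
  refine ⟨fun h => hF _ h (by simp), ?_⟩
  rintro ⟨b, hb, h⟩
  exact ha (mk_inj v h ▸ hb)

theorem KCirc.exists_one (h : KCirc d ρ) (hv : v ∉ N) (hF : ∀ e ∈ F, v ∉ e) (hN : N.card = d + 1)
    (hI : Ind ρ (F ∪ star v N)) : ∃ e ∈ KK N, e ∉ F ∧ Ind ρ (insert e F) := by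
  obtain ⟨a, ha⟩ : N.Nonempty := Finset.card_pos.1 (by omega)
  by_contra hc
  push Not at hc
  have h1 : ∀ e ∈ KK N, ρ e ∈ sp ρ F := by
    intro e he
    by_contra h2
    obtain ⟨h3, h4⟩ := (hI.mono Finset.subset_union_left).insert' h2
    exact hc e he h3 h4
  rw [star_eq_insert ha, Finset.union_insert,
    ind_insert (notMem_union_star hF (Finset.notMem_erase a N))] at hI
  apply hI.2
  have := h.star_mem hv hN ha
  rw [sp_union] at this ⊢
  exact sup_le_sup_right (sp_le h1) _ this

theorem KCirc.exists_two (h : KCirc d ρ) (hv : v ∉ N) (hF : ∀ e ∈ F, v ∉ e) (hN : N.card = d + 2)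
    (hI : Ind ρ (F ∪ star v N)) :
    ∃ e ∈ KK N, ∃ f ∈ KK N, e ∉ F ∧ f ∉ F ∧ e ≠ f ∧ Ind ρ (insert e (insert f F)) := by
  obtain ⟨x, hx, y, hy, hxy⟩ := Finset.one_lt_card.1 (show 1 < N.card by omega)
  have hcx : (N.erase x).card = d + 1 := by rw [Finset.card_erase_of_mem hx]; omega
  have hcy : (N.erase y).card = d + 1 := by rw [Finset.card_erase_of_mem hy]; omega
  obtain ⟨f, hf, hfF, hfI⟩ := h.exists_one (N := N.erase x) (by simp [hv]) hF hcx
    (hI.mono (Finset.union_subset_union_right (star_mono (Finset.erase_subset _ _))))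
  by_contra hc
  push Not at hc
  have hf' := KK_mono (Finset.erase_subset _ _) hf
  have h1 : ∀ e ∈ KK N, ρ e ∈ sp ρ (insert f F) := by
    intro e he
    by_contra h2
    obtain ⟨h3, h4⟩ := hfI.insert' h2
    rw [Finset.mem_insert, not_or] at h3
    exact hc e he f hf' h3.2 hfF h3.1 h4
  have hy' : y ∈ N.erase x := Finset.mem_erase.2 ⟨hxy.symm, hy⟩
  rw [star_eq_insert hx, star_eq_insert hy', Finset.union_insert, Finset.union_insert] at hI
  refine hI.not_par (notMem_union_star hF (by simp)) (notMem_union_star hF (by simp))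
    (fun h' => hxy (mk_inj v h')) ?_
  have key : ∀ w ∈ sp ρ (KK N ∪ star v ((N.erase x).erase y)),
      (sp ρ (F ∪ star v ((N.erase x).erase y))).mkQ w ∈
        Submodule.span ℝ {(sp ρ (F ∪ star v ((N.erase x).erase y))).mkQ (ρ f)} := by
    intro w hw
    have h2 : w ∈ sp ρ (insert f (F ∪ star v ((N.erase x).erase y))) := by
      refine sp_le (fun e he => ?_) hw
      rcases Finset.mem_union.1 he with he | he
      · exact sp_mono (Finset.insert_subset_insert _ Finset.subset_union_left) (h1 e he)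
      · exact mem_sp (by simp [he])
    rw [sp_insert] at h2
    obtain ⟨a, ha, b, hb, rfl⟩ := Submodule.mem_sup.1 h2
    obtain ⟨t, rfl⟩ := Submodule.mem_span_singleton.1 ha
    have : (sp ρ (F ∪ star v ((N.erase x).erase y))).mkQ b = 0 := by simpa using hb
    rw [map_add, this, add_zero, map_smul]
    exact Submodule.mem_span_singleton.2 ⟨t, rfl⟩
  refine Par.of_mem_span (key _ ?_) (key _ ?_)
  · have := h.star_mem (N := N.erase y) (v := v) (by simp [hv]) hcy
      (Finset.mem_erase.2 ⟨hxy, hx⟩)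
    rw [Finset.erase_right_comm] at this
    exact sp_mono (Finset.union_subset_union_left (KK_mono (Finset.erase_subset _ _))) this
  · exact sp_mono (Finset.union_subset_union_left (KK_mono (Finset.erase_subset _ _)))
      (h.star_mem (N := N.erase x) (v := v) (by simp [hv]) hcx hy')

end Pool.Agent.Lib.MP_9087e4_co
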