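import Mathlib
import Pool.Agent.Lib.MP_9087e4_co.Excl2
import Pool.Agent.Lib.MP_9087e4_co.Rigid

set_option autoImplicit false

namespace Pool.Agent.Lib.MP_9087e4_co

variable {V : Type*} [LinearOrder V] [Fintype V] {q : V → Fin 2 → ℝ} {k : ℕ}
variable {X : Type*} [AddCommGroup X] [Module ℝ X] {ρ : Sym2 V → X}
variable {F : Finset (Sym2 V)} {N : Finset V} {v : V}

theorem leaf (h : Reg k q) (hk : 1 ≤ k) (hρ : KCirc (k + 1) ρ) (hv : v ∉ N)
    (hF : ∀ e ∈ F, v ∉ e) (hN : N.card ≤ k + 3) (hI : Ind ρ (F ∪ star v N))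
    (ih : ∀ E ⊆ KK N, (E = ∅ ∨ E.card + k + 1 ≤ N.card) → Ind ρ (E ∪ F) → GInd k (E ∪ F))
    (hD : ¬ GInd k (F ∪ star v N)) : N.card = k + 3 ∧ ∃ T, Con k F N T := by
  have h0 : GInd k F := by
    simpa using ih ∅ (by simp) (Or.inl rfl) (by simpa using hI.mono Finset.subset_union_left)
  have h1 : k + 2 ≤ N.card → ∀ e ∈ KK N, Ind ρ (insert e F) → GInd k (insert e F) :=
    fun hc e he h' => ih {e} (by simpa using he) (Or.inr (by simpa using by omega)) h'
  by_cases hc : N.card ≤ k + 1
  · exact absurd (h.ext_zero hv hF hc h0) hD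
  by_cases hc' : N.card = k + 2
  · obtain ⟨e, he, heF, h2⟩ := hρ.exists_one hv hF hc' hI
    exact absurd (h.ext_one hk hv hF hc' he heF (h1 hc'.ge e he h2)) hD
  have hc3 : N.card = k + 3 := by omega
  refine ⟨hc3, ?_⟩
  rcases h.tricho hv hF hc3 h0 hD with h2 | ⟨x, h2⟩ | h2
  · obtain ⟨e, he, f, hf, heF, hfF, hef, h3⟩ := hρ.exists_two hv hF hc3 hI
    refine absurd ?_ (h2 e he f hf heF hfF hef)
    have := ih {e, f} (by intro g; simp; rintro (rfl | rfl) <;> assumption)
      (Or.inr (by rw [Finset.card_pair hef]; omega)) (by simpa using h3)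
    simpa using this
  · obtain ⟨N', hN', hc''⟩ := Finset.exists_subset_card_eq (s := N.erase x) (n := k + 2) (by
      have := Finset.pred_card_le_card_erase (s := N) (a := x)
      omega)
    have hN'' : N' ⊆ N := hN'.trans (Finset.erase_subset _ _)
    obtain ⟨e, he, heF, h3⟩ := hρ.exists_one (N := N') (fun h' => hv (hN'' h')) hF hc''
      (hI.mono (Finset.union_subset_union_right (star_mono hN'')))
    exact absurd (h1 (by omega) e (KK_mono hN'' he) h3) (h2 e (KK_mono hN' he) heF)
  · exact h2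

/-- the neighbours of `v` -/
def nb (F : Finset (Sym2 V)) (v : V) : Finset V := Finset.univ.filter fun a => s(v, a) ∈ F

/-- the edges not containing `v` -/
def del (F : Finset (Sym2 V)) (v : V) : Finset (Sym2 V) := F.filter fun e => v ∉ e

theorem mem_nb {a : V} : a ∈ nb F v ↔ s(v, a) ∈ F := by simp [nb]

theorem mem_nb_comm {a : V} : a ∈ nb F v ↔ v ∈ nb F a := by
  rw [mem_nb, mem_nb, Sym2.eq_swap]

omit [Fintype V] in
theorem mem_del {e : Sym2 V} : e ∈ del F v ↔ e ∈ F ∧ v ∉ e := by simp [del]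

omit [Fintype V] in
theorem del_subset : del F v ⊆ F := Finset.filter_subset _ _

omit [Fintype V] in
theorem del_notMem : ∀ e ∈ del F v, v ∉ e := fun _ he => (mem_del.1 he).2

theorem del_union_star (F : Finset (Sym2 V)) (v : V) : del F v ∪ star v (nb F v) = F := by
  ext e
  rw [Finset.mem_union, mem_del, mem_star]
  constructor
  · rintro (h | ⟨a, ha, rfl⟩)
    exacts [h.1, mem_nb.1 ha]
  · intro he
    by_cases hv : v ∈ e
    · obtain ⟨a, rfl⟩ := Sym2.mem_iff_exists.1 hv
      exact Or.inr ⟨a, mem_nb.2 he, rfl⟩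
    · exact Or.inl ⟨he, hv⟩

theorem notMem_nb (hF : ∀ e ∈ F, ¬ e.IsDiag) : v ∉ nb F v := fun h =>
  hF _ (mem_nb.1 h) (by simp)

omit [Fintype V] in
theorem card_star (v : V) (N : Finset V) : (star v N).card = N.card :=
  Finset.card_image_of_injective _ (mk_inj v)

theorem card_del (F : Finset (Sym2 V)) (v : V) : (del F v).card + (nb F v).card = F.card := by
  rw [← card_star v, ← Finset.card_union_of_disjoint (disjoint_star del_notMem), del_union_star]

theorem nb_mono {F' : Finset (Sym2 V)} (h : F ⊆ F') (v : V) : nb F v ⊆ nb F' v :=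
  fun _ ha => mem_nb.2 (h (mem_nb.1 ha))

theorem nb_del {u : V} (h : u ≠ v) : nb (del F v) u = (nb F u).erase v := by
  ext a
  simp only [mem_nb, mem_del, Finset.mem_erase, Sym2.mem_iff, not_or]
  tauto

theorem star_nb_subset : star v (nb F v) ⊆ F := by
  conv_rhs => rw [← del_union_star F v]
  exact Finset.subset_union_right

theorem card_nb_le : (nb F v).card ≤ F.card := by
  have := card_del F v; omega

theorem card_lt_of_leaf {E : Finset (Sym2 V)} (h1 : 1 ≤ (nb F v).card)
    (h : E = ∅ ∨ E.card + k + 1 ≤ (nb F v).card) : (E ∪ del F v).card < F.card := by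
  have h2 := Finset.card_union_le E (del F v)
  have h3 := card_del F v
  rcases h with rfl | h
  · simp at h2 ⊢; omega
  · omega

theorem exists_nb (h : F.Nonempty) : ∃ v, 1 ≤ (nb F v).card := by
  obtain ⟨e, he⟩ := h
  induction e using Sym2.ind with
  | _ a b => exact ⟨a, Finset.card_pos.2 ⟨b, mem_nb.2 he⟩⟩

end Pool.Agent.Lib.MP_9087e4_co
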