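import Mathlib
import Pool.Agent.Lib.MP_9087e4_co.Leaf

set_option autoImplicit false

namespace Pool.Agent.Lib.MP_9087e4_co

variable {V : Type*} [LinearOrder V] [Fintype V] {q : V → Fin 2 → ℝ} {k : ℕ}
variable {X : Type*} [AddCommGroup X] [Module ℝ X] {ρ : Sym2 V → X}

/-- a perfect elimination ordering in which every vertex has at most `w` later neighbours -/
structure PEO (H : SimpleGraph V) (ord : V → ℕ) (w : ℕ) : Prop where
  inj : Function.Injective ord
  clique : ∀ v a b, H.Adj v a → H.Adj v b → ord v < ord a → ord v < ord b → a ≠ b → H.Adj a b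
  card : ∀ v (S : Finset V), (∀ a ∈ S, H.Adj v a ∧ ord v < ord a) → S.card ≤ w

theorem gind_of_peo (hq : Reg k q) (hk : 1 ≤ k) (hρ : KCirc (k + 1) ρ) {H : SimpleGraph V}
    {ord : V → ℕ} (hH : PEO H ord (k + 3)) (F : Finset (Sym2 V)) :
    (∀ e ∈ F, e ∈ H.edgeSet) → Ind ρ F → GInd k F := by
  induction hn : F.card using Nat.strong_induction_on generalizing F with
  | _ n ih =>
  subst hn
  intro hFH hI
  by_contra hD
  have hF : ∀ e ∈ F, ¬ e.IsDiag := fun e he => H.not_isDiag_of_mem_edgeSet (hFH e he)
  have hadj : ∀ {v a}, a ∈ nb F v → H.Adj v a := fun h => hFH _ (mem_nb.1 h)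
  have hsub : ∀ F' ⊂ F, GInd k F' := fun F' hF' =>
    ih _ (Finset.card_lt_card hF') F' rfl (fun e he => hFH e (hF'.1 he)) (hI.mono hF'.1)
  have hdel : ∀ v, 1 ≤ (nb F v).card → del F v ⊂ F := fun v hv =>
    Finset.ssubset_iff_subset_ne.2 ⟨del_subset, fun h => by
      have := card_del F v
      rw [h] at this
      omega⟩
  have hlow : ∀ v, 1 ≤ (nb F v).card → k + 2 ≤ (nb F v).card := by
    intro v h1
    by_contra h2
    apply hD
    rw [← del_union_star F v]
    exact hq.ext_zero (notMem_nb hF) del_notMem (by omega) (hsub _ (hdel v h1))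
  obtain ⟨u, hu, hmin⟩ := Finset.exists_min_image
    (Finset.univ.filter fun u => ∃ x ∈ nb F u, ord x < ord u) ord (by
      obtain ⟨v, hv⟩ := exists_nb (F := F) (Finset.nonempty_iff_ne_empty.2 (by
        rintro rfl
        exact hD ⟨q, ind_empty⟩))
      obtain ⟨a, ha⟩ := Finset.card_pos.1 hv
      rcases lt_or_gt_of_ne (hH.inj.ne (hadj ha).ne) with h | h
      · exact ⟨a, Finset.mem_filter.2 ⟨Finset.mem_univ _, v, mem_nb_comm.1 ha, h⟩⟩
      · exact ⟨v, Finset.mem_filter.2 ⟨Finset.mem_univ _, a, ha, h⟩⟩)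
  obtain ⟨-, v, hvu, hvu'⟩ := Finset.mem_filter.1 hu
  have hmin' : ∀ y x, x ∈ nb F y → ord x < ord y → ord u ≤ ord y := fun y x h1 h2 =>
    hmin y (Finset.mem_filter.2 ⟨Finset.mem_univ _, x, h1, h2⟩)
  classical
  let B : Finset V := Finset.univ.filter fun a => H.Adj u a ∧ ord u < ord a
  have hB : B.card ≤ k + 3 := hH.card u B fun a ha => (Finset.mem_filter.1 ha).2
  have hB' : (insert u B).card ≤ k + 4 := (Finset.card_insert_le _ _).trans (by omega)
  have hlater : ∀ x, ord x < ord u → ∀ a ∈ nb F x, ord x < ord a ∧ ord u ≤ ord a := by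
    intro x hx a ha
    have h1 : ord x < ord a := by
      rcases lt_or_gt_of_ne (hH.inj.ne (hadj ha).ne) with h | h
      · exact h
      · have := hmin' x a ha h; omega
    exact ⟨h1, hmin' a x (mem_nb_comm.1 ha) h1⟩
  have hleaf : ∀ x ∈ nb F u, ord x < ord u → nb F x ⊆ insert u B ∧ (nb F x).card = k + 3 ∧
      ∃ T, Con k (del F x) (nb F x) T := by
    intro x hx hxu
    have hux := mem_nb_comm.1 hx
    have h1 : 1 ≤ (nb F x).card := Finset.card_pos.2 ⟨u, hux⟩
    refine ⟨fun a ha => ?_, leaf hq hk hρ (notMem_nb hF) del_notMem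
      (hH.card x _ fun a ha => ⟨hadj ha, (hlater x hxu a ha).1⟩) (by rwa [del_union_star])
      (fun E hE hc hI' => ih _ (card_lt_of_leaf h1 hc) _ rfl ?_ hI') (by rwa [del_union_star])⟩
    · by_cases hau : a = u
      · simp [hau]
      · obtain ⟨h2, h3⟩ := hlater x hxu a ha
        refine Finset.mem_insert_of_mem (Finset.mem_filter.2 ⟨Finset.mem_univ _, ?_, ?_⟩)
        · exact hH.clique x u a (hadj hux) (hadj ha) hxu h2 (Ne.symm hau)
        · exact lt_of_le_of_ne h3 fun h => hau (hH.inj h).symm
    · intro e he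
      rcases Finset.mem_union.1 he with he | he
      · have := hE he
        induction e using Sym2.ind with
        | _ a b =>
          rw [mk_mem_KK] at this
          exact hH.clique x a b (hadj this.1) (hadj this.2.1) (hlater x hxu a this.1).1
            (hlater x hxu b this.2.1).1 this.2.2
      · exact hFH e (del_subset he)
  obtain ⟨hv1, hv2, T, hT⟩ := hleaf v hvu hvu'
  have huN := mem_nb_comm.1 hvu
  have huv : u ≠ v := fun h => notMem_nb hF (h ▸ hvu)
  have hIv : GInd k (del F v) := hsub _ (hdel v (by omega))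
  by_cases h2 : ∃ w ∈ nb F u, ord w < ord u ∧ w ≠ v
  · obtain ⟨w, hwu, hwu', hwv⟩ := h2
    obtain ⟨hw1, hw2, T', hT'⟩ := hleaf w hwu hwu'
    have hIw : GInd k (del F w) := hsub _ (hdel w (by omega))
    have hwN : w ∉ nb F v := fun h => by have := (hlater v hvu' w h).2; omega
    have hvM : v ∉ nb F w := fun h => hwN (mem_nb_comm.1 h)
    have e1 : del (del F v) w ∪ star w (nb F w) = del F v := by
      have := del_union_star (del F v) w
      rwa [nb_del hwv, Finset.erase_eq_of_notMem hvM] at this
    have e2 : del (del F v) w ∪ star v (nb F v) = del F w := by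
      have := del_union_star (del F w) v
      rwa [nb_del hwv.symm, Finset.erase_eq_of_notMem hwN, show del (del F w) v = del (del F v) w
        from Finset.filter_comm _ _ _] at this
    have hint : ∀ S M : Finset V, S ⊆ insert u B → M ⊆ insert u B → S.card = 4 →
        M.card = k + 3 → 3 ≤ (S ∩ M).card := by
      intro S M h1 h2 h3 h4
      have h5 := Finset.card_union_add_card_inter S M
      have h6 := Finset.card_le_card (Finset.union_subset h1 h2)
      omega
    refine excl_two hq (F := del (del F v) w) (T := T) (T' := T') hwv.symm (notMem_nb hF) hwN hvM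
      (notMem_nb hF) hv2 hw2 (fun e he => del_notMem e (del_subset he)) del_notMem
      (by rwa [e1]) (by rwa [e2]) (by rwa [e1, del_union_star]) (by rwa [e1]) (by rwa [e2])
      (hint _ _ (hT.sub.trans hv1) hw1 hT.card hw2) ?_
    exact le_trans (by norm_num) (hint _ _ (hT'.sub.trans hw1) hv1 hT'.card hv2)
  push Not at h2
  have hM : nb (del F v) u ⊆ B := by
    intro a ha
    rw [nb_del huv, Finset.mem_erase] at ha
    refine Finset.mem_filter.2 ⟨Finset.mem_univ _, hadj ha.2, ?_⟩
    rcases lt_or_gt_of_ne (hH.inj.ne (hadj ha.2).ne) with h | h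
    · exact h
    · exact absurd (h2 a ha.2 h) ha.1
  by_cases huT : u ∈ T
  · obtain ⟨b, x, y, hub, hux, huy, hbx, hby, hxy, hTe⟩ := card_four hT.card huT
    have hb : b ∈ T := by simp [hTe]
    have hx : x ∈ T := by simp [hTe]
    have hy : y ∈ T := by simp [hTe]
    have hd : Disjoint (nb (del F v) u) {b, x, y} := by
      rw [Finset.disjoint_right]
      intro z hz
      simp only [Finset.mem_insert, Finset.mem_singleton] at hz
      rw [mem_nb]
      rcases hz with rfl | rfl | rfl
      · exact (hT.ind u huT z hb x hx hub hux hbx).1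
      · exact (hT.ind u huT b hb z hx hub hux hbx).2.1
      · exact (hT.ind u huT b hb z hy hub huy hby).2.1
    have h3 : ({b, x, y} : Finset V) ⊆ B := by
      intro z hz
      have hz' : z ∈ T ∧ u ≠ z := by
        simp only [Finset.mem_insert, Finset.mem_singleton] at hz
        rcases hz with rfl | rfl | rfl <;> constructor <;> assumption
      exact (Finset.mem_insert.1 (hv1 (hT.sub hz'.1))).resolve_left hz'.2.symm
    have h4 := Finset.card_le_card (Finset.union_subset hM h3)
    rw [Finset.card_union_of_disjoint hd, Finset.card_eq_three.2 ⟨b, x, y, hbx, hby, hxy, rfl⟩,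
      nb_del huv, Finset.card_erase_of_mem hvu] at h4
    have := hlow u (Finset.card_pos.2 ⟨v, hvu⟩)
    omega
  · refine excl_mid hq (notMem_nb hF) hv2 (F := del (del F v) u) (u := u) (M := nb (del F v) u)
      (T := T) del_notMem ?_ (notMem_nb fun e he => hF e (del_subset he))
      ((Finset.card_le_card hM).trans hB) ?_ ?_ ?_ huN huT
    all_goals rw [del_union_star]
    exacts [del_notMem, hIv, by rwa [del_union_star], hT]

end Pool.Agent.Lib.MP_9087e4_co
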