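import Pool.Agent.Lib.MP_9087e4_co.Reg

set_option autoImplicit false

/-! Independence of products of generic linear factors (Lovett), and stresses of bipartite graphs
with one relation on one side and a Vandermonde system on the other. -/

namespace Pool.Agent.Lib.MP_9087e4_co

open Finset Polynomial

variable {σ ι : Type*}

/-- The polynomial `t ^ m` times the product of the `t - a x` over `x ∈ S`. -/
noncomputable def lovP (a : σ → ℝ) (S : Finset σ) (m : ℕ) : ℝ[X] := X ^ m * ∏ x ∈ S, (X - C (a x))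

/-- The multiples of degree less than `d i` of the `lovP a (S i) (m i)` are independent. -/
def LovInd (a : σ → ℝ) (I : Finset ι) (S : ι → Finset σ) (m d : ι → ℕ) : Prop :=
  ∀ q : ι → ℝ[X], (∀ i ∈ I, (q i).degree < d i) → ∑ i ∈ I, q i * lovP a (S i) (m i) = 0 →
    ∀ i ∈ I, q i = 0

/-- The counting condition. -/
def LovCnt (k : ℕ) (I : Finset ι) (S : ι → Finset σ) (m d : ι → ℕ) : Prop :=
  (∀ i ∈ I, 0 < d i ∧ d i + (S i).card + m i = k) ∧
    ∀ J ⊆ I, J.Nonempty → ∀ (T : Finset σ) (μ : ℕ), (∀ i ∈ J, T ⊆ S i ∧ μ ≤ m i) →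
      ∑ i ∈ J, d i + T.card + μ ≤ k

theorem lovP_monic (a : σ → ℝ) (S : Finset σ) (m : ℕ) : (lovP a S m).Monic :=
  (monic_X_pow m).mul (monic_prod_of_monic _ _ fun _ _ => monic_X_sub_C _)

theorem lovP_natDegree (a : σ → ℝ) (S : Finset σ) (m : ℕ) :
    (lovP a S m).natDegree = S.card + m := by
  rw [lovP, (monic_X_pow m).natDegree_mul (monic_prod_of_monic _ _ fun _ _ => monic_X_sub_C _),
    natDegree_X_pow, natDegree_prod_of_monic _ _ fun _ _ => monic_X_sub_C _]
  simp [add_comm]

theorem lovP_deg (a : σ → ℝ) (S : Finset σ) (m : ℕ) {q : ℝ[X]} {d : ℕ} (h : q.degree < d) :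
    (q * lovP a S m).degree < (d + S.card + m : ℕ) := by
  by_cases hq : q = 0
  · rw [hq, zero_mul, degree_zero]
    exact WithBot.bot_lt_coe _
  · have h1 := (natDegree_lt_iff_degree_lt hq).2 h
    rw [← natDegree_lt_iff_degree_lt (mul_ne_zero hq (lovP_monic a S m).ne_zero),
      natDegree_mul hq (lovP_monic a S m).ne_zero, lovP_natDegree]
    omega

theorem lovP_eval (a : σ → ℝ) (S : Finset σ) (m : ℕ) (t : ℝ) :
    (lovP a S m).eval t = t ^ m * ∏ x ∈ S, (t - a x) := by
  simp [lovP, eval_prod]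

theorem lovP_split [DecidableEq σ] (a : σ → ℝ) {S T : Finset σ} {m μ : ℕ} (h : T ⊆ S)
    (h' : μ ≤ m) : lovP a S m = lovP a (S \ T) (m - μ) * lovP a T μ := by
  obtain ⟨n, rfl⟩ := Nat.exists_eq_add_of_le h'
  rw [lovP, lovP, lovP, ← prod_sdiff h, Nat.add_sub_cancel_left]
  ring

theorem lov_iff (a : σ → ℝ) {k : ℕ} {I : Finset ι} {S : ι → Finset σ} {m d : ι → ℕ}
    (hk : ∀ i ∈ I, d i + (S i).card + m i = k) :
    LovInd a I S m d ↔ Ind (fun (e : Σ _ : ι, ℕ) (c : Fin k) =>
      ((c : ℕ) : ℝ) ^ e.2 * (lovP a (S e.1) (m e.1)).eval ((c : ℕ) : ℝ))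
      (I.sigma fun i => range (d i)) := by
  classical
  rw [Ind, linearIndepOn_finset_iff]
  constructor
  · intro h g hg e he
    have hd : ∀ i, (∑ j ∈ range (d i), C (g ⟨i, j⟩) * X ^ j : ℝ[X]).degree < d i := fun i =>
      (degree_sum_le _ _).trans_lt ((Finset.sup_lt_iff (WithBot.bot_lt_coe _)).2 fun j hj =>
        (degree_C_mul_X_pow_le j _).trans_lt (by exact_mod_cast mem_range.1 hj))
    have h0 := h (fun i => ∑ j ∈ range (d i), C (g ⟨i, j⟩) * X ^ j) (fun i _ => hd i) (by
      refine eq_zero_of_degree_lt_of_eval_index_eq_zero (v := fun c : Fin k => ((c : ℕ) : ℝ)) univ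
        (fun c _ c' _ hc => Fin.ext (Nat.cast_injective (R := ℝ) hc)) ?_ fun c _ => ?_
      · rw [card_univ, Fintype.card_fin]
        refine (degree_sum_le _ _).trans_lt ((Finset.sup_lt_iff (WithBot.bot_lt_coe _)).2
          fun i hi => ?_)
        rw [← hk i hi]
        exact lovP_deg a _ _ (hd i)
      · have := congrFun hg c
        rw [Finset.sum_apply, sum_sigma] at this
        rw [eval_finsetSum]
        refine Eq.trans (sum_congr rfl fun i _ => ?_) this
        rw [eval_mul, eval_finsetSum, sum_mul]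
        refine sum_congr rfl fun j _ => ?_
        simp [mul_assoc]) e.1 (mem_sigma.1 he).1
    have h1 := congrArg (fun p : ℝ[X] => p.coeff e.2) h0
    simp only [finsetSum_coeff, coeff_C_mul_X_pow, coeff_zero] at h1
    rw [sum_ite_eq, if_pos (mem_sigma.1 he).2] at h1
    exact h1
  · intro h q hq h0 i hi
    have h1 := h (fun e => (q e.1).coeff e.2) (by
      funext c
      have := congrArg (eval ((c : ℕ) : ℝ)) h0
      rw [eval_finsetSum, eval_zero] at this
      rw [Finset.sum_apply, sum_sigma]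
      refine Eq.trans (sum_congr rfl fun i hi => ?_) this
      by_cases hz : q i = 0
      · simp [hz]
      · rw [eval_mul, eval_eq_sum_range' ((natDegree_lt_iff_degree_lt hz).2 (hq i hi)), sum_mul]
        refine sum_congr rfl fun j _ => ?_
        simp [mul_assoc])
    ext j
    by_cases hj : j < d i
    · exact h1 ⟨i, j⟩ (mem_sigma.2 ⟨hi, mem_range.2 hj⟩)
    · exact coeff_eq_zero_of_degree_lt ((hq i hi).trans_le (by exact_mod_cast not_lt.1 hj))

theorem lov_gen {a : σ → ℝ} (ha : AlgebraicIndependent ℚ a) (y : σ → ℝ) {k : ℕ} {I : Finset ι}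
    {S : ι → Finset σ} {m d : ι → ℕ} (hk : ∀ i ∈ I, d i + (S i).card + m i = k)
    (h : LovInd y I S m d) : LovInd a I S m d := by
  have e : ∀ z : σ → ℝ, (fun (e : Σ _ : ι, ℕ) (c : Fin k) =>
      ((c : ℕ) : ℝ) ^ e.2 * (lovP z (S e.1) (m e.1)).eval ((c : ℕ) : ℝ)) =
      fun (e : Σ _ : ι, ℕ) (c : Fin k) =>
      MvPolynomial.aeval z (((c : ℕ) : MvPolynomial σ ℚ) ^ e.2 *
        (((c : ℕ) : MvPolynomial σ ℚ) ^ m e.1 *
          ∏ x ∈ S e.1, (((c : ℕ) : MvPolynomial σ ℚ) - MvPolynomial.X x))) := fun z => by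
    funext e c
    simp [lovP_eval]
  rw [lov_iff _ hk, e] at h ⊢
  exact gen_ind ha y _ _ h

/-- Reduction along a tight subfamily. -/
theorem lov_tight [DecidableEq σ] [DecidableEq ι] {a : σ → ℝ} {k : ℕ} {I J : Finset ι}
    {S : ι → Finset σ} {m d : ι → ℕ} (h : LovCnt k I S m d) (hJ : J ⊆ I) {j : ι} (hj : j ∈ J)
    {T : Finset σ} {μ : ℕ} (hT : ∀ i ∈ J, T ⊆ S i ∧ μ ≤ m i)
    (ht : ∑ i ∈ J, d i + T.card + μ = k) (h1 : LovInd a J S m d)
    (h2 : LovInd a (insert j (I \ J)) (Function.update S j T) (Function.update m j μ)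
      (Function.update d j (∑ i ∈ J, d i))) : LovInd a I S m d := by
  intro q hq h0
  have hn : j ∉ I \ J := fun hh => (mem_sdiff.1 hh).2 hj
  have hne : ∀ i ∈ I \ J, i ≠ j := fun i hi hh => hn (hh ▸ hi)
  have e1 : ∑ i ∈ J, q i * lovP a (S i) (m i) =
      (∑ i ∈ J, q i * lovP a (S i \ T) (m i - μ)) * lovP a T μ := by
    rw [sum_mul]
    exact sum_congr rfl fun i hi => by rw [lovP_split a (hT i hi).1 (hT i hi).2, mul_assoc]
  have h3 := h2 (Function.update q j (∑ i ∈ J, q i * lovP a (S i \ T) (m i - μ))) (by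
    intro i hi
    rcases mem_insert.1 hi with rfl | hi
    · simp only [Function.update_self]
      refine (degree_sum_le _ _).trans_lt ((Finset.sup_lt_iff (WithBot.bot_lt_coe _)).2
        fun l hl => (lovP_deg a _ _ (hq l (hJ hl))).trans_le ?_)
      have k1 := (h.1 l (hJ hl)).2
      have k2 := card_sdiff_add_card_eq_card (hT l hl).1
      have k3 := (hT l hl).2
      exact_mod_cast (by omega : d l + (S l \ T).card + (m l - μ) ≤ ∑ i ∈ J, d i)
    · simp only [Function.update_of_ne (hne i hi)]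
      exact hq i (mem_sdiff.1 hi).1) (by
    rw [sum_insert hn]
    simp only [Function.update_self]
    rw [← e1, add_comm, ← h0, ← sum_sdiff hJ]
    congr 1
    exact sum_congr rfl fun i hi => by simp only [Function.update_of_ne (hne i hi)])
  have h4 := h3 j (mem_insert_self _ _)
  rw [Function.update_self] at h4
  have h5 := h1 q (fun i hi => hq i (hJ hi)) (by rw [e1, h4, zero_mul])
  intro i hi
  by_cases hiJ : i ∈ J
  · exact h5 i hiJ
  · have hi' := mem_sdiff.2 ⟨hi, hiJ⟩
    have := h3 i (mem_insert_of_mem hi')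
    rwa [Function.update_of_ne (hne i hi')] at this

theorem LovCnt.mono {k : ℕ} {I J : Finset ι} {S : ι → Finset σ} {m d : ι → ℕ}
    (h : LovCnt k I S m d) (hJ : J ⊆ I) : LovCnt k J S m d :=
  ⟨fun i hi => h.1 i (hJ hi), fun L hL => h.2 L (hL.trans hJ)⟩

theorem LovCnt.tight [DecidableEq ι] {k : ℕ} {I J : Finset ι} {S : ι → Finset σ} {m d : ι → ℕ}
    (h : LovCnt k I S m d) (hJ : J ⊆ I) {j : ι} (hj : j ∈ J) {T : Finset σ} {μ : ℕ}
    (hT : ∀ i ∈ J, T ⊆ S i ∧ μ ≤ m i) (ht : ∑ i ∈ J, d i + T.card + μ = k) :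
    LovCnt k (insert j (I \ J)) (Function.update S j T) (Function.update m j μ)
      (Function.update d j (∑ i ∈ J, d i)) := by
  have hn : j ∉ I \ J := fun hh => (mem_sdiff.1 hh).2 hj
  have hne : ∀ i ∈ I \ J, i ≠ j := fun i hi hh => hn (hh ▸ hi)
  constructor
  · intro i hi
    rcases mem_insert.1 hi with rfl | hi
    · simp only [Function.update_self]
      exact ⟨(h.1 i (hJ hj)).1.trans_le (single_le_sum (fun _ _ => Nat.zero_le _) hj), ht⟩
    · simp only [Function.update_of_ne (hne i hi)]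
      exact h.1 i (mem_sdiff.1 hi).1
  · intro L hL hLn T' μ' hT'
    have hs : L.erase j ⊆ I \ J := fun i hi =>
      (mem_insert.1 (hL (mem_erase.1 hi).2)).resolve_left (mem_erase.1 hi).1
    have e1 : ∑ i ∈ L.erase j, Function.update d j (∑ i ∈ J, d i) i = ∑ i ∈ L.erase j, d i :=
      sum_congr rfl fun i hi => Function.update_of_ne (mem_erase.1 hi).1 _ _
    have e2 : ∀ i ∈ L.erase j, T' ⊆ S i ∧ μ' ≤ m i := fun i hi => by
      have := hT' i (mem_erase.1 hi).2
      rwa [Function.update_of_ne (mem_erase.1 hi).1, Function.update_of_ne (mem_erase.1 hi).1]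
        at this
    by_cases hjL : j ∈ L
    · have k1 := hT' j hjL
      simp only [Function.update_self] at k1
      have k2 := h.2 (L.erase j ∪ J) (union_subset (hs.trans sdiff_subset) hJ)
        ⟨j, mem_union_right _ hj⟩ T' μ' fun i hi => by
          rcases mem_union.1 hi with hi | hi
          · exact e2 i hi
          · exact ⟨k1.1.trans (hT i hi).1, k1.2.trans (hT i hi).2⟩
      rw [sum_union (disjoint_left.2 fun i hi => (mem_sdiff.1 (hs hi)).2)] at k2
      rw [← sum_erase_add _ _ hjL, e1, Function.update_self]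
      exact k2
    · rw [erase_eq_of_notMem hjL] at hs e1 e2
      rw [e1]
      exact h.2 L (hs.trans sdiff_subset) hLn T' μ' e2

/-- Moving the point `a x` to the origin. -/
theorem LovCnt.merge [DecidableEq σ] {k : ℕ} {I : Finset ι} {S : ι → Finset σ} {m d : ι → ℕ}
    (h : LovCnt k I S m d) {j : ι} (hj : m j = 0) {x : σ} (hx : x ∉ S j)
    (hn : ∀ J ⊆ I, j ∉ J → 1 < J.card → ∀ (T : Finset σ) (μ : ℕ), (∀ i ∈ J, T ⊆ S i ∧ μ ≤ m i) →
      ∑ i ∈ J, d i + T.card + μ ≠ k) :
    LovCnt k I (fun i => (S i).erase x) (fun i => m i + if x ∈ S i then 1 else 0) d := by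
  have h1 : ∀ i ∈ I, d i + ((S i).erase x).card + (m i + if x ∈ S i then 1 else 0) = k := by
    intro i hi
    have k1 := (h.1 i hi).2
    by_cases hxi : x ∈ S i
    · have := card_erase_add_one hxi
      rw [if_pos hxi]
      omega
    · rw [if_neg hxi, erase_eq_of_notMem hxi]
      omega
  refine ⟨fun i hi => ⟨(h.1 i hi).1, h1 i hi⟩, fun J hJ hJn T μ hT => ?_⟩
  have k0 : ∀ i ∈ J, T ⊆ S i ∧ μ - 1 ≤ m i := fun i hi => ⟨(hT i hi).1.trans (erase_subset _ _), by
    have := (hT i hi).2
    simp only at this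
    split_ifs at this <;> omega⟩
  have k1 := h.2 J hJ hJn T (μ - 1) k0
  by_cases hjJ : j ∈ J
  · have := (hT j hjJ).2
    simp only [if_neg hx] at this
    omega
  · by_cases hc : 1 < J.card
    · have := hn J hJ hjJ hc T (μ - 1) k0
      omega
    · obtain ⟨i, rfl⟩ := card_eq_one.1 (le_antisymm (not_lt.1 hc) hJn.card_pos)
      have k2 := hT i (mem_singleton_self i)
      have k3 := h1 i (hJ (mem_singleton_self i))
      have k4 := card_le_card k2.1
      have k5 := k2.2
      rw [sum_singleton]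
      simp only at k4 k5
      omega

theorem lovP_merge [DecidableEq σ] (a : σ → ℝ) (S : Finset σ) (m : ℕ) (x : σ) :
    lovP (Function.update a x 0) S m = lovP a (S.erase x) (m + if x ∈ S then 1 else 0) := by
  have e : ∏ y ∈ S.erase x, (X - C (Function.update a x 0 y)) = ∏ y ∈ S.erase x, (X - C (a y)) :=
    prod_congr rfl fun y hy => by rw [Function.update_of_ne (mem_erase.1 hy).1]
  unfold lovP
  by_cases hx : x ∈ S
  · rw [if_pos hx, ← mul_prod_erase _ _ hx, e]
    simp only [Function.update_self, map_zero, sub_zero]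
    ring
  · rw [if_neg hx, ← e, erase_eq_of_notMem hx, add_zero]

theorem lovP_succ (a : σ → ℝ) (S : Finset σ) (m : ℕ) : lovP a S (m + 1) = X * lovP a S m := by
  unfold lovP
  ring

/-- Division by `t`. -/
theorem lov_div {a : σ → ℝ} {I : Finset ι} {S : ι → Finset σ} {m d : ι → ℕ}
    (hm : ∀ i ∈ I, 0 < m i) (h : LovInd a I S (fun i => m i - 1) d) : LovInd a I S m d := by
  intro q hq h0
  refine h q hq ((mul_eq_zero.1 (?_ : X * _ = 0)).resolve_left X_ne_zero)
  rw [mul_sum, ← h0]
  refine sum_congr rfl fun i hi => ?_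
  have := hm i hi
  rw [show lovP a (S i) (m i) = lovP a (S i) (m i - 1 + 1) by congr 1; omega, lovP_succ]
  ring

theorem LovCnt.div {k : ℕ} {I : Finset ι} {S : ι → Finset σ} {m d : ι → ℕ}
    (h : LovCnt k I S m d) (hm : ∀ i ∈ I, 0 < m i) : LovCnt (k - 1) I S (fun i => m i - 1) d := by
  refine ⟨fun i hi => ⟨(h.1 i hi).1, ?_⟩, fun J hJ hJn T μ hT => ?_⟩
  · have := (h.1 i hi).2
    have := hm i hi
    simp only
    omega
  · have := h.2 J hJ hJn T (μ + 1) fun i hi => ⟨(hT i hi).1, by
      have := (hT i hi).2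
      have := hm i (hJ hi)
      simp only at *
      omega⟩
    omega

theorem LovCnt.raise [DecidableEq ι] {k : ℕ} {I : Finset ι} {S : ι → Finset σ} {m d : ι → ℕ}
    (h : LovCnt k I S m d) {j : ι} (hj : j ∈ I) (hm : m j = 0) (hd : 1 < d j) :
    LovCnt k I S (Function.update m j 1) (Function.update d j (d j - 1)) := by
  refine ⟨fun i hi => ?_, fun J hJ hJn T μ hT => ?_⟩
  · have := h.1 i hi
    by_cases hij : i = j
    · subst hij
      simp only [Function.update_self]
      omega
    · simpa only [Function.update_of_ne hij] using this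
  · by_cases hjJ : j ∈ J
    · have k1 := h.2 J hJ hJn T 0 fun i hi => ⟨(hT i hi).1, Nat.zero_le _⟩
      have k2 := (hT j hjJ).2
      rw [Function.update_self] at k2
      rw [← add_sum_erase _ _ hjJ] at k1
      rw [sum_update_of_mem hjJ, sdiff_singleton_eq_erase]
      omega
    · rw [sum_update_of_notMem hjJ]
      refine h.2 J hJ hJn T μ fun i hi => ?_
      have := hT i hi
      rwa [Function.update_of_ne (fun hh : i = j => hjJ (hh ▸ hi))] at this

/-- If only one polynomial does not vanish at the origin, its multiplier does. -/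
theorem lov_last [DecidableEq ι] {a : σ → ℝ} (ha : ∀ x, a x ≠ 0) {I : Finset ι}
    {S : ι → Finset σ} {m d : ι → ℕ} {j : ι} (hj : j ∈ I) (hm : m j = 0)
    (ho : ∀ i ∈ I, i ≠ j → 0 < m i) (h1 : d j ≤ 1 → LovInd a (I.erase j) S m d)
    (h2 : 1 < d j → LovInd a I S (Function.update m j 1) (Function.update d j (d j - 1))) :
    LovInd a I S m d := by
  intro q hq h0
  have e0 : (q j).coeff 0 = 0 := by
    have := congrArg (eval 0) h0
    rw [eval_finsetSum, sum_eq_single_of_mem j hj fun i hi hij => by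
      rw [eval_mul, lovP_eval, zero_pow (ho i hi hij).ne', zero_mul, mul_zero], eval_mul, lovP_eval,
      hm, pow_zero, one_mul, eval_zero, ← coeff_zero_eq_eval_zero] at this
    exact (mul_eq_zero.1 this).resolve_right (prod_ne_zero_iff.2 fun x _ => by simpa using ha x)
  obtain ⟨p, hp⟩ := X_dvd_iff.2 e0
  have hdeg : p ≠ 0 → p.natDegree + 1 < d j := fun hz => by
    have := (natDegree_lt_iff_degree_lt (hp ▸ mul_ne_zero X_ne_zero hz)).2 (hq j hj)
    rwa [hp, natDegree_X_mul hz] at this
  by_cases hd : 1 < d j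
  · have h3 := h2 hd (Function.update q j p) (fun i hi => by
      by_cases hij : i = j
      · subst hij
        simp only [Function.update_self]
        by_cases hz : p = 0
        · rw [hz, degree_zero]
          exact WithBot.bot_lt_coe _
        · have := hdeg hz
          exact (natDegree_lt_iff_degree_lt hz).1 (by omega)
      · simpa only [Function.update_of_ne hij] using hq i hi) (by
      rw [← h0]
      refine sum_congr rfl fun i _ => ?_
      by_cases hij : i = j
      · subst hij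
        simp only [Function.update_self]
        rw [hp, hm, lovP_succ a (S i) 0]
        ring
      · simp only [Function.update_of_ne hij])
    intro i hi
    have := h3 i hi
    by_cases hij : i = j
    · subst hij
      rw [Function.update_self] at this
      rw [hp, this, mul_zero]
    · rwa [Function.update_of_ne hij] at this
  · have hz : q j = 0 := by
      by_cases hz : p = 0
      · rw [hp, hz, mul_zero]
      · have := hdeg hz
        omega
    have h3 := h1 (not_lt.1 hd) q (fun i hi => hq i (mem_of_mem_erase hi)) (by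
      rwa [← add_sum_erase _ _ hj, hz, zero_mul, zero_add] at h0)
    intro i hi
    by_cases hij : i = j
    · rw [hij, hz]
    · exact h3 i (mem_erase.2 ⟨hij, hi⟩)

theorem lovett [DecidableEq σ] [DecidableEq ι] {a : σ → ℝ} (ha : AlgebraicIndependent ℚ a) :
    ∀ (n : ℕ) (U : Finset σ) (k : ℕ) (I : Finset ι) (S : ι → Finset σ) (m d : ι → ℕ),
      U.card + k + ∑ i ∈ I, (d i + 1) < n → (∀ i ∈ I, S i ⊆ U) → LovCnt k I S m d →
      LovInd a I S m d := by
  intro n
  induction n with
  | zero => intro U k I S m d hn; omega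
  | succ n ih =>
  intro U k I S m d hn hU h
  by_cases ht : ∃ J ⊆ I, (∃ l ∈ I, l ∉ J) ∧ 1 < J.card ∧ ∃ (T : Finset σ) (μ : ℕ),
      (∀ i ∈ J, T ⊆ S i ∧ μ ≤ m i) ∧ ∑ i ∈ J, d i + T.card + μ = k
  · obtain ⟨J, hJ, ⟨l, hl, hlJ⟩, hc, T, μ, hT, he⟩ := ht
    obtain ⟨j, hj⟩ := card_pos.1 (by omega : 0 < J.card)
    have hnj : j ∉ I \ J := fun hh => (mem_sdiff.1 hh).2 hj
    have e1 := sum_sdiff (f := fun i => d i + 1) hJ
    have e2 : d l + 1 ≤ ∑ i ∈ I \ J, (d i + 1) :=
      single_le_sum (f := fun i => d i + 1) (fun _ _ => Nat.zero_le _) (mem_sdiff.2 ⟨hl, hlJ⟩)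
    refine lov_tight h hJ hj hT he (ih U k J S m d (by omega) (fun i hi => hU i (hJ hi)) (h.mono hJ))
      (ih U k _ _ _ _ ?_ (fun i hi => ?_) (h.tight hJ hj hT he))
    · have e3 : ∑ i ∈ I \ J, (Function.update d j (∑ i ∈ J, d i) i + 1) = ∑ i ∈ I \ J, (d i + 1) :=
        sum_congr rfl fun i hi => by rw [Function.update_of_ne fun hh : i = j => hnj (hh ▸ hi)]
      have e4 : ∑ i ∈ J, (d i + 1) = ∑ i ∈ J, d i + J.card := by simp [sum_add_distrib]
      rw [sum_insert hnj, Function.update_self, e3]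
      omega
    · rcases mem_insert.1 hi with rfl | hi
      · rw [Function.update_self]
        exact (hT i hj).1.trans (hU i (hJ hj))
      · rw [Function.update_of_ne fun hh : i = j => hnj (hh ▸ hi)]
        exact hU i (mem_sdiff.1 hi).1
  by_cases hm : ∀ i ∈ I, 0 < m i
  · rcases I.eq_empty_or_nonempty with rfl | ⟨i, hi⟩
    · exact fun _ _ _ i hi => absurd hi (notMem_empty i)
    · have := h.1 i hi
      exact lov_div hm (ih U (k - 1) I S _ d (by omega) hU (h.div hm))
  by_cases hx : ∃ j ∈ I, m j = 0 ∧ ∃ x ∈ U, x ∉ S j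
  · obtain ⟨j, hj, hmj, x, hxU, hxj⟩ := hx
    have h1 := ih (U.erase x) k I _ _ d (by have := card_erase_add_one hxU; omega)
      (fun i hi => erase_subset_erase x (hU i hi)) (h.merge hmj hxj
        fun J hJ hjJ hc T μ hT he => ht ⟨J, hJ, ⟨j, hj, hjJ⟩, hc, T, μ, hT, he⟩)
    refine lov_gen ha (Function.update a x 0) (fun i hi => (h.1 i hi).2) fun q hq h0 => h1 q hq ?_
    simpa only [lovP_merge] using h0
  have hS : ∀ j ∈ I, m j = 0 → U ⊆ S j := fun j hj hmj x hxU =>
    by_contra fun hxj => hx ⟨j, hj, hmj, x, hxU, hxj⟩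
  push Not at hm
  obtain ⟨j, hj, hmj⟩ := hm
  have hmj : m j = 0 := by omega
  refine lov_last (fun x => ha.ne_zero x) hj hmj (fun i hi hij => ?_) (fun _ => ?_) fun hd => ?_
  · by_contra hmi
    have k1 := h.2 {i, j} (insert_subset hi (singleton_subset_iff.2 hj)) (insert_nonempty _ _)
      (S j) 0 fun l hl => ⟨by
        rcases mem_insert.1 hl with rfl | hl
        · exact (hU j hj).trans (hS l hi (by omega))
        · rw [mem_singleton.1 hl], Nat.zero_le _⟩
    rw [sum_pair hij] at k1
    have k2 := h.1 i hi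
    have k3 := h.1 j hj
    omega
  · have := add_sum_erase _ (fun i => d i + 1) hj
    exact ih U k _ S m d (by omega) (fun i hi => hU i (mem_of_mem_erase hi))
      (h.mono (erase_subset _ _))
  · refine ih U k I S _ _ ?_ hU (h.raise hj hmj hd)
    have e1 := add_sum_erase _ (fun i => d i + 1) hj
    have e2 := add_sum_erase _ (fun i => Function.update d j (d j - 1) i + 1) hj
    have e3 : ∑ i ∈ I.erase j, (Function.update d j (d j - 1) i + 1) = ∑ i ∈ I.erase j, (d i + 1) :=
      sum_congr rfl fun i hi => by rw [Function.update_of_ne (mem_erase.1 hi).1]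
    simp only [Function.update_self] at e1 e2
    omega

/-- The numerator of the sum of the `c x / (t - a x)`. -/
noncomputable def lovQ [DecidableEq σ] (a : σ → ℝ) (N : Finset σ) (c : σ → ℝ) : ℝ[X] :=
  ∑ x ∈ N, C (c x) * lovP a (N.erase x) 0

theorem lovP_erase [DecidableEq σ] (a : σ → ℝ) {N : Finset σ} {x : σ} (hx : x ∈ N) :
    lovP a N 0 = (X - C (a x)) * lovP a (N.erase x) 0 := by
  rw [lovP, lovP, ← mul_prod_erase _ _ hx]
  ring

theorem lovQ_pow [DecidableEq σ] (a : σ → ℝ) (N : Finset σ) (c : σ → ℝ) :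
    ∀ b : ℕ, (∀ j < b, ∑ x ∈ N, c x * a x ^ j = 0) →
      X ^ b * lovQ a N c = lovQ a N fun x => c x * a x ^ b
  | 0, _ => by simp
  | b + 1, h => by
    have e : X * lovQ a N (fun x => c x * a x ^ b) = C (∑ x ∈ N, c x * a x ^ b) * lovP a N 0 +
        lovQ a N fun x => c x * a x ^ (b + 1) := by
      rw [lovQ, lovQ, map_sum, mul_sum, sum_mul, ← sum_add_distrib]
      refine sum_congr rfl fun x hx => ?_
      rw [lovP_erase a hx]
      simp only [map_mul, map_pow]
      ring
    rw [pow_succ', mul_assoc, lovQ_pow a N c b fun j hj => h j (by omega), e, h b (by omega),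
      map_zero, zero_mul, zero_add]

theorem lovQ_deg [DecidableEq σ] (a : σ → ℝ) (N : Finset σ) (c : σ → ℝ) (b : ℕ)
    (h : ∀ j < b, ∑ x ∈ N, c x * a x ^ j = 0) : (lovQ a N c).degree < (N.card - b : ℕ) := by
  by_cases hz : lovQ a N c = 0
  · rw [hz, degree_zero]
    exact WithBot.bot_lt_coe _
  have h1 : (lovQ a N fun x => c x * a x ^ b).degree < N.card :=
    (degree_sum_le _ _).trans_lt ((Finset.sup_lt_iff (WithBot.bot_lt_coe _)).2 fun x hx =>
      (lovP_deg a _ _ (d := 1) (degree_C_le.trans_lt (by norm_num))).trans_le (by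
        have := card_erase_add_one hx
        exact_mod_cast (by omega : 1 + (N.erase x).card + 0 ≤ N.card)))
  rw [← lovQ_pow a N c b h,
    ← natDegree_lt_iff_degree_lt (mul_ne_zero (pow_ne_zero _ X_ne_zero) hz),
    natDegree_X_pow_mul _ hz] at h1
  exact (natDegree_lt_iff_degree_lt hz).1 (by omega)

theorem lovQ_zero [DecidableEq σ] {a : σ → ℝ} (ha : Function.Injective a) {N : Finset σ}
    {c : σ → ℝ} (h : lovQ a N c = 0) {x : σ} (hx : x ∈ N) : c x = 0 := by
  have := congrArg (eval (a x)) h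
  rw [lovQ, eval_finsetSum, sum_eq_single_of_mem x hx fun y _ hyx => by
    rw [lovP_erase a (mem_erase.2 ⟨hyx.symm, hx⟩)]
    simp, eval_mul, eval_C, lovP_eval, pow_zero, one_mul, eval_zero] at this
  exact (mul_eq_zero.1 this).resolve_right (prod_ne_zero_iff.2 fun y hy =>
    sub_ne_zero.2 fun hh => (mem_erase.1 hy).1 (ha hh).symm)

theorem lovQ_mul [Fintype σ] [DecidableEq σ] (a : σ → ℝ) (N : Finset σ) (c : σ → ℝ)
    (hc : ∀ x, x ∉ N → c x = 0) : lovQ a N c * lovP a Nᶜ 0 = lovQ a univ c := by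
  rw [lovQ, lovQ, sum_mul, ← sum_subset (subset_univ N) fun x _ hx => by simp [hc x hx]]
  refine sum_congr rfl fun x hx => ?_
  have h1 : Nᶜ ⊆ univ.erase x := fun y hy =>
    mem_erase.2 ⟨fun hh => (mem_compl.1 hy) (hh ▸ hx), mem_univ _⟩
  have h2 : univ.erase x \ Nᶜ = N.erase x := by
    ext y
    simp
  rw [lovP_split a h1 le_rfl, h2, mul_assoc]

/-- A bipartite graph with one relation at the generic points `a x` and `b` Vandermonde relations
at the vertices `w` has no stress if the count holds. -/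
theorem lov_rs {W : Type*} [Fintype σ] [DecidableEq σ] [Fintype W] [DecidableEq W]
    (N : W → Finset σ) (b : ℕ)
    (hc : ∀ J : Finset W, J.Nonempty → (∀ w ∈ J, b < (N w).card) →
      ∑ w ∈ J, (N w).card + b ≤ (J.biUnion N).card + b * J.card)
    {a : σ → ℝ} (ha : AlgebraicIndependent ℚ a) (om : σ → W → ℝ)
    (hs : ∀ x w, x ∉ N w → om x w = 0) (hx : ∀ x, ∑ w, om x w = 0)
    (hw : ∀ w j, j < b → ∑ x, om x w * a x ^ j = 0) : ∀ x w, om x w = 0 := by
  have hd : ∀ w, (lovQ a (N w) fun x => om x w).degree < ((N w).card - b : ℕ) := fun w =>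
    lovQ_deg a _ _ b fun j hj => by
      rw [← hw w j hj]
      exact sum_subset (subset_univ _) fun x _ hx => by rw [hs x w hx, zero_mul]
  have hz : ∀ w, ¬ b < (N w).card → (lovQ a (N w) fun x => om x w) = 0 := fun w hw => by
    have := hd w
    rwa [show (N w).card - b = 0 by omega, Nat.cast_zero, Nat.WithBot.lt_zero_iff,
      degree_eq_bot] at this
  have h0 := lovett ha _ univ (Fintype.card σ - b) (univ.filter fun w => b < (N w).card)
    (fun w => (N w)ᶜ) (fun _ => 0) (fun w => (N w).card - b) (Nat.lt_succ_self _)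
    (fun _ _ => subset_univ _) ⟨fun w hw => by
      have k1 := (mem_filter.1 hw).2
      have k2 := card_add_card_compl (N w)
      simp only
      omega, fun J hJ hJn T μ hT => by
      have hb : ∀ w ∈ J, b < (N w).card := fun w hw => (mem_filter.1 (hJ hw)).2
      have k1 := hc J hJn hb
      have k2 : ∑ w ∈ J, ((N w).card - b) + b * J.card = ∑ w ∈ J, (N w).card := by
        rw [mul_comm, ← smul_eq_mul, ← sum_const, ← sum_add_distrib]
        exact sum_congr rfl fun w hw => Nat.sub_add_cancel (hb w hw).le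
      have k3 : T ⊆ (J.biUnion N)ᶜ := fun x hx => mem_compl.2 fun hh => by
        obtain ⟨w, hw, hxw⟩ := mem_biUnion.1 hh
        exact mem_compl.1 ((hT w hw).1 hx) hxw
      have k4 := card_le_card k3
      have k5 := card_add_card_compl (J.biUnion N)
      obtain ⟨w, hw⟩ := hJn
      have k6 : μ ≤ 0 := (hT w hw).2
      have k7 := hb w hw
      have k8 := card_le_univ (N w)
      simp only
      omega⟩ (fun w => lovQ a (N w) fun x => om x w) (fun w _ => hd w) (by
      rw [sum_subset (subset_univ _) fun w _ hw => by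
        rw [hz w fun hh => hw (mem_filter.2 ⟨mem_univ _, hh⟩), zero_mul]]
      simp only [fun w => lovQ_mul a (N w) (fun x => om x w) fun x => hs x w]
      unfold lovQ
      rw [sum_comm]
      refine sum_eq_zero fun x _ => ?_
      rw [← sum_mul, ← map_sum, hx, map_zero, zero_mul])
  intro x w
  by_cases hxw : x ∈ N w
  · refine lovQ_zero (c := fun x => om x w) ha.injective ?_ hxw
    by_cases hb : b < (N w).card
    · exact h0 w (mem_filter.2 ⟨mem_univ _, hb⟩)
    · exact hz w hb
  · exact hs x w hxw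

end Pool.Agent.Lib.MP_9087e4_co
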