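import Mathlib
import Pool.Agent.Lib.MP_9087e4_co.Leaf

set_option autoImplicit false

namespace Pool.Agent.Lib.MP_9087e4_co

variable {V : Type*} [LinearOrder V] [Fintype V] {q : V → Fin 2 → ℝ} {k : ℕ}
variable {X : Type*} [AddCommGroup X] [Module ℝ X] {ρ : Sym2 V → X}
variable {F : Finset (Sym2 V)} {v : V}

/-- the class of graphs used in the induction -/
def QC (k : ℕ) (F : Finset (Sym2 V)) : Prop :=
  ∀ h, (nb F h).card ≤ k + 3 ∨ ((nb F h).card = k + 4 ∧ (∀ x, x ≠ h → (nb F x).card ≤ k + 3) ∧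
    ¬ ∃ K : Finset V, h ∈ K ∧ (∀ x ∈ K, nb F x ⊆ K) ∧ ∀ x ∈ K, k + 3 ≤ (nb F x).card)

theorem QC.mono {F' : Finset (Sym2 V)} (hQ : QC k F) (hF : F' ⊆ F) : QC k F' := by
  intro h
  have hle : ∀ x, (nb F' x).card ≤ (nb F x).card := fun x => Finset.card_le_card (nb_mono hF x)
  by_cases h1 : (nb F' h).card ≤ k + 3
  · exact Or.inl h1
  have h2 := hle h
  obtain ⟨h3, h4, h5⟩ := (hQ h).resolve_left (by omega)
  refine Or.inr ⟨by omega, fun x hx => (hle x).trans (h4 x hx), ?_⟩
  rintro ⟨K, hK1, hK2, hK3⟩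
  refine h5 ⟨K, hK1, fun x hx => ?_, fun x hx => (hK3 x hx).trans (hle x)⟩
  rw [← Finset.eq_of_subset_of_card_le (nb_mono hF x) ?_]
  · exact hK2 x hx
  · by_cases hxh : x = h
    · subst hxh; omega
    · exact (h4 x hxh).trans (hK3 x hx)

/-- `v` separates the graph -/
def Cut (F : Finset (Sym2 V)) (v : V) : Prop :=
  ∃ K : Finset V, v ∉ K ∧ (∀ x ∈ K, nb F x ⊆ insert v K) ∧ (∃ x ∈ K, 1 ≤ (nb F x).card) ∧
    ∃ w ∈ nb F v, w ∉ K

theorem Cut.gind (hq : Reg k q) (hC : Cut F v) (ih : ∀ F' ⊂ F, GInd k F') : GInd k F := by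
  obtain ⟨K, hv, hK, ⟨x, hx, hx1⟩, w, hw, hwK⟩ := hC
  obtain ⟨y, hy⟩ := Finset.card_pos.1 hx1
  rw [← Finset.filter_union_filter_not_eq (fun e => ∃ a ∈ e, a ∈ K) F]
  refine ⟨q, ind_one_sum (K := K) (v := v) (hq.ind _ (ih _ ?_)) (hq.ind _ (ih _ ?_)) ?_ ?_⟩
  · exact Finset.filter_ssubset.2 ⟨s(v, w), mem_nb.1 hw, by simp [hv, hwK]⟩
  · exact Finset.filter_ssubset.2 ⟨s(x, y), mem_nb.1 hy, by simp [hx]⟩
  · intro e he a ha
    obtain ⟨he, b, hb, hbK⟩ := Finset.mem_filter.1 he
    by_cases hab : a = b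
    · exact Or.inl (hab ▸ hbK)
    · have := hK b hbK (mem_nb.2 (((Sym2.mem_and_mem_iff (Ne.symm hab)).1 ⟨hb, ha⟩) ▸ he))
      rw [Finset.mem_insert] at this
      exact this.symm
  · intro e he a ha haK
    exact (Finset.mem_filter.1 he).2 ⟨a, ha, haK⟩

theorem QC.red (hQ : QC k F) (hF : ∀ e ∈ F, ¬ e.IsDiag) {E : Finset (Sym2 V)}
    (hE : E ⊆ KK (nb F v))
    (hc : (E.card ≤ 1 ∧ 3 ≤ (nb F v).card) ∨
      (E.card ≤ 2 ∧ 4 ≤ (nb F v).card ∧ ∀ x, (nb F x).card ≤ k + 3))
    (hcut : ¬ Cut F v) : QC k (E ∪ del F v) := by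
  have hv := notMem_nb (v := v) hF
  have hsub : ∀ x, x ≠ v → nb (E ∪ del F v) x ⊆ nb E x ∪ (nb F x).erase v := by
    intro x hx a ha
    rw [← nb_del hx]
    simpa only [Finset.mem_union, mem_nb] using ha
  have hv0 : (nb (E ∪ del F v) v).card = 0 := by
    rw [Finset.card_eq_zero, Finset.eq_empty_iff_forall_notMem]
    intro a ha
    rcases Finset.mem_union.1 (mem_nb.1 ha) with h | h
    · exact hv (mk_mem_KK.1 (hE h)).1
    · exact del_notMem _ h (by simp)
  have hin : ∀ x ∈ nb F v, (nb (E ∪ del F v) x).card + 1 ≤ (nb E x).card + (nb F x).card := by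
    intro x hx
    have h1 := Finset.card_le_card (hsub x fun h => hv (h ▸ hx))
    have h2 := Finset.card_union_le (nb E x) ((nb F x).erase v)
    have h3 := Finset.card_erase_of_mem (mem_nb_comm.1 hx)
    have h4 := Finset.card_pos.2 ⟨v, mem_nb_comm.1 hx⟩
    omega
  have hout : ∀ x, x ∉ nb F v → (nb (E ∪ del F v) x).card ≤ (nb F x).card := by
    intro x hx
    refine Finset.card_le_card fun a ha => ?_
    rcases Finset.mem_union.1 (mem_nb.1 ha) with h | h
    · exact absurd (mk_mem_KK.1 (hE h)).1 hx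
    · exact mem_nb.2 (del_subset h)
  have hle : ∀ x, (nb E x).card ≤ 1 → (nb (E ∪ del F v) x).card ≤ (nb F x).card := by
    intro x hx
    by_cases h : x ∈ nb F v
    · have := hin x h; omega
    · exact hout x h
  have hK : ∀ K U : Finset V, U.card < (nb F v).card → (∀ x ∈ K, nb (E ∪ del F v) x ⊆ K) →
      (∀ x ∈ K, k + 3 ≤ (nb (E ∪ del F v) x).card) → (∃ x ∈ K, 1 ≤ (nb F x).card) →
      (∀ x ∈ K, x ∈ nb F v → x ∈ U) → False := by
    intro K U hU hK1 hK2 hK3 hK4
    refine hcut ⟨K, fun h => by have := hK2 v h; omega, fun x hx a ha => ?_, hK3, ?_⟩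
    · by_cases hav : a = v
      · simp [hav]
      · refine Finset.mem_insert_of_mem (hK1 x hx (mem_nb.2 (Finset.mem_union_right _
          (mem_del.2 ⟨mem_nb.1 ha, ?_⟩))))
        simp only [Sym2.mem_iff, not_or]
        refine ⟨fun h => ?_, Ne.symm hav⟩
        have := hK2 v (h ▸ hx)
        omega
    · obtain ⟨w, hw, hwU⟩ := Finset.exists_mem_notMem_of_card_lt_card hU
      exact ⟨w, hw, fun h => hwU (hK4 w h hw)⟩
  intro h
  by_cases h1 : (nb (E ∪ del F v) h).card ≤ k + 3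
  · exact Or.inl h1
  right
  rcases hc with ⟨hc1, hc2⟩ | ⟨hc1, hc2, hc3⟩
  · have hle' : ∀ x, (nb (E ∪ del F v) x).card ≤ (nb F x).card := fun x =>
      hle x (card_nb_le.trans hc1)
    have h2 := hle' h
    obtain ⟨h3, h4, -⟩ := (hQ h).resolve_left (by omega)
    refine ⟨by omega, fun x hx => (hle' x).trans (h4 x hx), ?_⟩
    rintro ⟨K, hK1, hK2, hK3⟩
    obtain ⟨U, hU, hU'⟩ : ∃ U : Finset V, U.card ≤ 2 ∧ ∀ e ∈ E, ∀ a ∈ e, a ∈ U := by
      haveI : Nonempty (Sym2 V) := ⟨s(v, v)⟩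
      rcases Finset.card_le_one_iff_subset_singleton.1 hc1 with ⟨e, he⟩
      refine ⟨{e.inf, e.sup}, Finset.card_le_two, fun f hf a ha => ?_⟩
      rw [Finset.mem_singleton.1 (he hf), mem_iff_inf_sup] at ha
      simpa using ha
    refine hK K U (by omega) hK2 hK3 ⟨h, hK1, by omega⟩ fun x hx hxv => ?_
    have h5 := hin x hxv
    have h6 := hK3 x hx
    have h7 : 0 < (nb E x).card := by
      by_cases hxh : x = h
      · subst hxh; omega
      · have := h4 x hxh; omega
    obtain ⟨a, ha⟩ := Finset.card_pos.1 h7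
    exact hU' _ (mem_nb.1 ha) x (by simp)
  · have h2 := hc3 h
    have h3 : h ∈ nb F v := by
      by_contra h3
      have := hout h h3; omega
    have h4 := hin h h3
    have h5 : (nb E h).card ≤ E.card := card_nb_le
    have h6 : star h (nb E h) = E :=
      Finset.eq_of_subset_of_card_le star_nb_subset (by rw [card_star]; omega)
    have h7 : ∀ x, x ≠ h → nb E x ⊆ {h} := by
      intro x hx a ha
      rw [mem_nb, ← h6, mem_star] at ha
      obtain ⟨b, -, hb⟩ := ha
      rw [Sym2.eq_iff] at hb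
      rw [Finset.mem_singleton]
      tauto
    refine ⟨by omega, fun x hx => (hle x ((Finset.card_le_card (h7 x hx)).trans (by simp))).trans
      (hc3 x), ?_⟩
    rintro ⟨K, hK1, hK2, hK3⟩
    refine hK K (insert h (nb E h)) ?_ hK2 hK3 ⟨h, hK1, by omega⟩ fun x hx hxv => ?_
    · have := Finset.card_insert_le h (nb E h); omega
    · by_cases hxh : x = h
      · simp [hxh]
      · have h8 := hin x hxv
        have h9 := hK3 x hx
        have h10 := hc3 x
        obtain ⟨a, ha⟩ := Finset.card_pos.1 (show 0 < (nb E x).card by omega)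
        have := Finset.mem_singleton.1 (h7 x hxh ha)
        subst this
        exact Finset.mem_insert_of_mem (mem_nb_comm.1 ha)

theorem gind_of_QC (hq : Reg k q) (hk : 1 ≤ k) (hρ : KCirc (k + 1) ρ) (F : Finset (Sym2 V)) :
    (∀ e ∈ F, ¬ e.IsDiag) → QC k F → Ind ρ F → GInd k F := by
  induction hn : F.card using Nat.strong_induction_on generalizing F with
  | _ n ih =>
  subst hn
  intro hF hQ hI
  by_contra hD
  have hcut : ∀ v, ¬ Cut F v := fun v hC => hD (hC.gind hq fun F' hF' =>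
    ih _ (Finset.card_lt_card hF') F' rfl (fun e he => hF e (hF'.1 he)) (hQ.mono hF'.1)
      (hI.mono hF'.1))
  have hleaf : ∀ v, 1 ≤ (nb F v).card → (nb F v).card ≤ k + 3 →
      ((nb F v).card = k + 3 → ∀ x, (nb F x).card ≤ k + 3) →
      (nb F v).card = k + 3 ∧ ∃ T, Con k (del F v) (nb F v) T := by
    intro v h1 h2 h3
    refine leaf hq hk hρ (notMem_nb hF) del_notMem h2 (by rwa [del_union_star])
      (fun E hE hc hI' => ih _ (card_lt_of_leaf h1 hc) _ rfl ?_ ?_ hI') (by rwa [del_union_star])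
    · intro e he
      rcases Finset.mem_union.1 he with he | he
      exacts [(mem_KK.1 (hE he)).1, hF e (del_subset he)]
    · rcases hc with rfl | hc
      · exact hQ.mono (by simpa using del_subset)
      by_cases hE0 : E = ∅
      · subst hE0
        exact hQ.mono (by simpa using del_subset)
      have := Finset.card_pos.2 (Finset.nonempty_iff_ne_empty.2 hE0)
      refine hQ.red hF hE ?_ (hcut v)
      by_cases h4 : (nb F v).card = k + 3
      · exact Or.inr ⟨by omega, by omega, h3 h4⟩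
      · exact Or.inl ⟨by omega, by omega⟩
  have hlow : ∀ v, 1 ≤ (nb F v).card → k + 3 ≤ (nb F v).card := by
    intro v h1
    by_contra h2
    have := (hleaf v h1 (by omega) (by omega)).1
    omega
  have hall : ∀ x, (nb F x).card ≤ k + 3 := by
    intro x
    refine (hQ x).resolve_right ?_
    rintro ⟨h1, -, h2⟩
    refine h2 ⟨Finset.univ.filter fun y => 1 ≤ (nb F y).card,
      Finset.mem_filter.2 ⟨Finset.mem_univ _, by omega⟩, ?_, ?_⟩
    · intro y _ a ha
      simpa using ⟨y, mem_nb_comm.1 ha⟩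
    · intro y hy
      exact hlow y (Finset.mem_filter.1 hy).2
  obtain ⟨v, hv⟩ := exists_nb (F := F) (Finset.nonempty_iff_ne_empty.2 (by
    rintro rfl
    exact hD ⟨q, ind_empty⟩))
  obtain ⟨h1, T, hT⟩ := hleaf v hv (hall v) fun _ => hall
  obtain ⟨u, hu⟩ : T.Nonempty := Finset.card_pos.1 (by rw [hT.card]; omega)
  have huN := hT.sub hu
  have huv : u ≠ v := fun h => notMem_nb hF (h ▸ huN)
  have hvu := mem_nb_comm.1 huN
  have h2 : (nb (del F v) u).card = k + 2 := by
    have h3 := hlow u (Finset.card_pos.2 ⟨v, hvu⟩)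
    have h4 := hall u
    rw [nb_del huv, Finset.card_erase_of_mem hvu]
    omega
  have h5 : GInd k (del F v) := by
    have := card_del F v
    exact ih _ (by omega) _ rfl (fun e he => hF e (del_subset he)) (hQ.mono del_subset)
      (hI.mono del_subset)
  refine excl_low hq (notMem_nb hF) h1 (F := del (del F v) u) (u := u) (M := nb (del F v) u)
    (T := T) del_notMem ?_ (notMem_nb fun e he => hF e (del_subset he)) h2 ?_ ?_ ?_ hu
  all_goals rw [del_union_star]
  exacts [del_notMem, h5, by rwa [del_union_star], hT]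

end Pool.Agent.Lib.MP_9087e4_co
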