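import Mathlib

set_option autoImplicit false

namespace Pool.Agent.Lib.MP_9087e4_co

/-- `G` has treewidth at most `w`: there are a tree `T` and bags `B t` of at most `w + 1` vertices
of `G` indexed by the nodes `t` of `T` such that both ends of every edge of `G` lie in a common bag
and, for every vertex `v` of `G`, the nodes whose bag contains `v` induce a (nonempty) connected
subgraph of `T`. -/
def TreewidthLE {V : Type*} (G : SimpleGraph V) (w : ℕ) : Prop :=
  ∃ (ι : Type) (T : SimpleGraph ι) (B : ι → Finset V), T.IsTree ∧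
    (∀ u v, G.Adj u v → ∃ t, u ∈ B t ∧ v ∈ B t) ∧
    (∀ v, (T.induce {t | v ∈ B t}).Connected) ∧ ∀ t, (B t).card ≤ w + 1

end Pool.Agent.Lib.MP_9087e4_co
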