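import Mathlib
import Pool.Agent.Lib.MP_9087e4_co.TreeDefs
import Pool.Agent.Lib.MP_9087e4_co.Elim

set_option autoImplicit false

namespace Pool.Agent.Lib.MP_9087e4_co

open SimpleGraph

section Tree

variable {ι : Type*} {T : SimpleGraph ι}

theorem parent_unique (hT : T.IsTree) (r : ι) {t u u' : ι} (h : T.Adj t u) (h' : T.Adj t u')
    (hu : T.dist r u < T.dist r t) (hu' : T.dist r u' < T.dist r t) : u = u' := by
  classical
  obtain ⟨P, hP, -⟩ := hT.connected.exists_path_of_dist r t
  have key : ∀ u, T.Adj t u → T.dist r u < T.dist r t → u = P.penultimate := by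
    intro u h hu
    obtain ⟨p, hp, hp'⟩ := hT.connected.exists_path_of_dist r u
    refine hT.isAcyclic.eq_penultimate_of_adj_end hP h
      (hT.isAcyclic.mem_support_of_ne_mem_support_of_adj_of_isPath hP hp h fun ht => ?_)
    have h1 := dist_le (p.takeUntil t ht)
    have h2 := p.length_takeUntil_le_length ht
    omega
  rw [key u h hu, key u' h' hu']

theorem dist_le_of_path (hT : T.IsTree) (r : ι) {a s : ι} (p : T.Walk a s) (hp : p.IsPath)
    {b : ι} (hb : T.Adj a b) (hba : T.dist r b < T.dist r a) (hbp : b ∉ p.support) :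
    T.dist r a ≤ T.dist r s := by
  induction p generalizing b with
  | nil => exact le_rfl
  | @cons a c s hac p ih =>
    rw [Walk.cons_isPath_iff] at hp
    have h1 : T.dist r a < T.dist r c := by
      rcases lt_or_gt_of_ne (hT.dist_ne_of_adj r hac) with h | h
      · exact h
      · exact absurd (parent_unique hT r hb hac hba h) fun h' => hbp (by simp [h'])
    exact h1.le.trans (ih hp.1 hac.symm h1 hp.2)

theorem exists_parent (hT : T.IsTree) (r : ι) {S : Set ι} (hS : (T.induce S).Connected) {t s : ι}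
    (ht : t ∈ S) (hs : s ∈ S) (hts : t ≠ s) (h : T.dist r s ≤ T.dist r t) :
    ∃ u ∈ S, T.Adj t u ∧ T.dist r u < T.dist r t := by
  classical
  obtain ⟨p₀⟩ := hS ⟨t, ht⟩ ⟨s, hs⟩
  let p₁ : T.Walk t s := p₀.map (Embedding.induce S).toHom
  have h1 : ∀ x ∈ p₁.bypass.support, x ∈ S := by
    intro x hx
    have : x ∈ (p₀.map (Embedding.induce S).toHom).support := p₁.support_bypass_subset_support hx
    rw [Walk.support_map, List.mem_map] at this
    obtain ⟨y, -, rfl⟩ := this
    exact y.2
  have h2 := p₁.bypass_isPath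
  generalize p₁.bypass = p at h1 h2
  cases p with
  | nil => exact absurd rfl hts
  | @cons _ c _ htc p =>
    refine ⟨c, h1 c (by simp), htc, ?_⟩
    rw [Walk.cons_isPath_iff] at h2
    rcases lt_or_gt_of_ne (hT.dist_ne_of_adj r htc) with h3 | h3
    · have := dist_le_of_path hT r p h2.1 htc.symm h3 h2.2
      omega
    · exact h3

end Tree

variable {V : Type*} [LinearOrder V] [Fintype V]

omit [LinearOrder V] in
theorem TreewidthLE.exists_peo {G : SimpleGraph V} {w : ℕ} (h : TreewidthLE G w) :
    ∃ (H : SimpleGraph V) (ord : V → ℕ), G ≤ H ∧ PEO H ord w := by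
  classical
  obtain ⟨ι, T, B, hT, hE, hC, hB⟩ := h
  obtain ⟨r⟩ := hT.connected.nonempty
  have htop : ∀ v, ∃ t, v ∈ B t ∧ ∀ s, v ∈ B s → T.dist r t ≤ T.dist r s := by
    intro v
    obtain ⟨t, ht⟩ := (hC v).nonempty
    exact ⟨_, Function.argminOn_mem (T.dist r) {t | v ∈ B t} ⟨t, ht⟩,
      fun s hs => Function.argminOn_le (T.dist r) {t | v ∈ B t} hs⟩
  choose top htop1 htop2 using htop
  have key : ∀ x y, T.dist r (top y) ≤ T.dist r (top x) → ∀ t, x ∈ B t → y ∈ B t →
      y ∈ B (top x) := by
    intro x y hxy t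
    induction hn : T.dist r t using Nat.strong_induction_on generalizing t with
    | _ n ih =>
    subst hn
    intro hx hy
    by_cases h1 : t = top x
    · exact h1 ▸ hy
    obtain ⟨u, hu1, hu2, hu3⟩ := exists_parent hT r (hC x) hx (htop1 x) h1 (htop2 x t hx)
    have h2 : t ≠ top y := by
      rintro rfl
      have := htop2 x u hu1
      omega
    obtain ⟨u', hu1', hu2', hu3'⟩ := exists_parent hT r (hC y) hy (htop1 y) h2 (htop2 y t hy)
    obtain rfl := parent_unique hT r hu2 hu2' hu3 hu3'
    exact ih _ hu3 u rfl hu1 hu1'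
  let D := Finset.univ.sup fun v => T.dist r (top v)
  have hD : ∀ v, T.dist r (top v) ≤ D := fun v =>
    Finset.le_sup (f := fun v => T.dist r (top v)) (Finset.mem_univ v)
  let n := Fintype.card V
  let ord : V → ℕ := fun v => (D - T.dist r (top v)) * n + Fintype.equivFin V v
  have hlt : ∀ v, (Fintype.equivFin V v : ℕ) < n := fun v => (Fintype.equivFin V v).2
  have hord : ∀ x y, ord x < ord y → T.dist r (top y) ≤ T.dist r (top x) := by
    intro x y hxy
    by_contra hc
    have h1 : D - T.dist r (top y) + 1 ≤ D - T.dist r (top x) := by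
      have := hD y; omega
    have h2 := Nat.mul_le_mul_right n h1
    have h3 := hlt y
    simp only [ord] at hxy
    rw [Nat.add_mul, one_mul] at h2
    omega
  let H : SimpleGraph V :=
    { Adj := fun x y => x ≠ y ∧ ∃ t, x ∈ B t ∧ y ∈ B t
      symm := ⟨fun x y ⟨h1, t, h2, h3⟩ => ⟨h1.symm, t, h3, h2⟩⟩
      loopless := ⟨fun x h => h.1 rfl⟩ }
  have hkey : ∀ v a, H.Adj v a → ord v < ord a → a ∈ B (top v) := fun v a ⟨_, t, h1, h2⟩ h3 =>
    key v a (hord v a h3) t h1 h2
  refine ⟨H, ord, fun x y h => ⟨h.ne, hE x y h⟩, ?_, ?_, ?_⟩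
  · intro x y hxy
    have := congrArg (· % n) hxy
    simp only [ord, Nat.mul_add_mod_self_right, Nat.mod_eq_of_lt (hlt _)] at this
    exact (Fintype.equivFin V).injective (Fin.ext this)
  · intro v a b ha hb ha' hb' hab
    exact ⟨hab, top v, hkey v a ha ha', hkey v b hb hb'⟩
  · intro v S hS
    have h1 : insert v S ⊆ B (top v) := by
      intro a ha
      rcases Finset.mem_insert.1 ha with rfl | ha
      exacts [htop1 _, hkey v a (hS a ha).1 (hS a ha).2]
    have h2 := (Finset.card_le_card h1).trans (hB _)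
    rw [Finset.card_insert_of_notMem fun h => (hS v h).1.1 rfl] at h2
    omega

end Pool.Agent.Lib.MP_9087e4_co
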